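import Pool.Agent.R468.MF.Tup

/-!
Averages: from a local approximation in the window to the sum of all counts.
-/

set_option autoImplicit false

namespace Pool.Agent.L7h55.GC

open Finset Filter Topology
open Pool.Agent.R468.MF

/-- if `f x k ≤ N x k`, `N` follows a local law, and `f x k` is `x g (x, k) (Φ + o(1))` in all windows, with `Φ`
continuous and periodic, then the sum of the `f x k` is asymptotic to `x ∫ Φ` -/
theorem avg {N : ℝ → ℤ → ℝ} {μ v α : ℝ} {θ : ℝ → ℝ} {Ψ : ℝ → ℝ} {δ : ℝ} (L : Law N μ v α θ Ψ δ)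
    {f : ℝ → ℤ → ℝ} (h0 : ∀ x k, 0 ≤ f x k) (h1 : ∀ x k, f x k ≤ N x k) {Φ : ℝ → ℝ} (hc : Continuous Φ)
    (hp : ∀ t, Φ (t + 1) = Φ t) (hΦ : ∀ t, 0 ≤ Φ t) {θ' : ℝ → ℝ}
    (hloc : ∀ K ε : ℝ, 0 < K → 0 < ε → ∃ X₀ : ℝ, 2 ≤ X₀ ∧ ∀ x : ℝ, X₀ ≤ x → ∀ j : ℤ,
      |(j : ℝ) - μ * Real.log x| ≤ K * Real.sqrt (Real.log x) →
      |f x j / (x * gn μ v x j) - Φ (θ' x - j * α)| ≤ ε) :
    ∀ ε : ℝ, 0 < ε → ∃ X₀ : ℝ, 2 ≤ X₀ ∧ ∀ x : ℝ, X₀ ≤ x → ∀ J : Finset ℤ, (∀ k, k ∉ J → f x k = 0) →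
      |∑ k ∈ J, f x k - x * ∫ t in (0 : ℝ)..1, Φ t| ≤ ε * x := by
  intro ε hε
  obtain ⟨K₁, hK1, X₁, hX1, g1⟩ := win_sum (μ := μ) L.irr hc hp hΦ L.v_pos 1 le_rfl (ε / 4) (by positivity)
  obtain ⟨K₂, hK2, X₂, hX2, g2⟩ := mass_out L (ε / 4) (by positivity)
  obtain ⟨K, hK⟩ : ∃ K : ℝ, K = max K₁ K₂ := ⟨_, rfl⟩
  have hKK1 : K₁ ≤ K := by rw [hK]; exact le_max_left _ _
  have hKK2 : K₂ ≤ K := by rw [hK]; exact le_max_right _ _
  have hK0 : 0 < K := hK1.trans_le hKK1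
  obtain ⟨X₃, hX3, g3⟩ := hloc K (ε / 8) hK0 (by positivity)
  obtain ⟨X₄, hX4, g4⟩ := full_sum (Φ := fun _ => 1) L.irr continuous_const (fun _ => rfl) (μ := μ) L.v_pos 1 le_rfl 1
    one_pos
  refine ⟨max (max X₁ X₂) (max X₃ X₄), le_max_of_le_left (le_max_of_le_left hX1), fun x hx J hJ => ?_⟩
  have hx1 : X₁ ≤ x := ((le_max_left _ _).trans (le_max_left _ _)).trans hx
  have hx2 : X₂ ≤ x := ((le_max_right _ _).trans (le_max_left _ _)).trans hx
  have hx3 : X₃ ≤ x := ((le_max_left _ _).trans (le_max_right _ _)).trans hx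
  have hx4 : X₄ ≤ x := ((le_max_right _ _).trans (le_max_right _ _)).trans hx
  have hx0 : 0 < x := by linarith
  have hl : 0 < Real.log x := Real.log_pos (by linarith)
  obtain ⟨W, hW⟩ : ∃ W : Finset ℤ, W = win μ K x := ⟨_, rfl⟩
  -- the split
  have e1 : ∑ k ∈ J, f x k = ∑ k ∈ W, f x k + ∑ k ∈ J \ W, f x k := by
    rw [← Finset.sum_union Finset.disjoint_sdiff]
    apply Finset.sum_subset
    · intro k hk
      rw [Finset.mem_union, Finset.mem_sdiff]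
      by_cases h : k ∈ W
      · exact Or.inl h
      · exact Or.inr ⟨hk, h⟩
    · intro k _ hk
      exact hJ k hk
  have e2 : ∑ k ∈ J \ W, f x k ≤ ε / 4 * x := by
    refine (Finset.sum_le_sum fun k _ => h1 x k).trans (g2 x hx2 _ fun k hk => ?_)
    have := (Finset.mem_sdiff.1 hk).2
    rw [hW, mem_win] at this
    exact lt_of_le_of_lt (mul_le_mul_of_nonneg_right hKK2 (Real.sqrt_nonneg _)) (lt_of_not_ge this)
  have e3 : 0 ≤ ∑ k ∈ J \ W, f x k := Finset.sum_nonneg fun k _ => h0 x k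
  have a1 := g1 x hx1 K hKK1 (θ' x)
  simp only [Nat.sub_self, pow_zero, one_mul, pow_one, Nat.cast_one, Real.sqrt_one, div_one] at a1
  obtain ⟨hs4, a2⟩ := g4 x hx4 (θ' x)
  simp only [Nat.sub_self, pow_zero, one_mul, pow_one, Nat.cast_one, Real.sqrt_one, div_one, mul_one,
    intervalIntegral.integral_const, sub_zero, smul_eq_mul] at a2 hs4
  have a3 : ∑ j ∈ W, gn μ v x j ≤ 2 := by
    have := hs4.sum_le_tsum W (fun j _ => (gn_pos L.v_pos hl j).le)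
    linarith [(abs_le.1 a2).2]
  have a4 : ∀ j ∈ W, |f x j - x * (gn μ v x j * Φ (θ' x - j * α))| ≤ x * (gn μ v x j * (ε / 8)) := by
    intro j hj
    rw [hW, mem_win] at hj
    have b1 := g3 x hx3 j hj
    have b2 := gn_pos (μ := μ) L.v_pos hl j
    have b3 : f x j - x * (gn μ v x j * Φ (θ' x - j * α)) =
        (f x j / (x * gn μ v x j) - Φ (θ' x - j * α)) * (x * gn μ v x j) := by
      field_simp
    rw [b3, abs_mul, abs_of_pos (by positivity : 0 < x * gn μ v x j)]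
    have b4 := mul_le_mul_of_nonneg_right b1 (by positivity : 0 ≤ x * gn μ v x j)
    linarith
  have a5 : |∑ j ∈ W, f x j - x * ∑ j ∈ W, gn μ v x j * Φ (θ' x - j * α)| ≤ ε / 4 * x := by
    rw [Finset.mul_sum, ← Finset.sum_sub_distrib]
    refine (Finset.abs_sum_le_sum_abs _ _).trans ((Finset.sum_le_sum a4).trans ?_)
    rw [← Finset.mul_sum, ← Finset.sum_mul]
    have : x * ((∑ j ∈ W, gn μ v x j) * (ε / 8)) ≤ x * (2 * (ε / 8)) :=
      mul_le_mul_of_nonneg_left (mul_le_mul_of_nonneg_right a3 (by positivity)) hx0.le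
    linarith
  rw [← hW] at a1
  have a6 : |x * ∑ j ∈ W, gn μ v x j * Φ (θ' x - j * α) - x * ∫ t in (0 : ℝ)..1, Φ t| ≤ ε / 4 * x := by
    rw [← mul_sub, abs_mul, abs_of_pos hx0]
    have := mul_le_mul_of_nonneg_left a1 hx0.le
    linarith
  rw [e1]
  rw [abs_le] at a5 a6 ⊢
  have hεx : 0 < ε * x := by positivity
  constructor <;> linarith [a5.1, a5.2, a6.1, a6.2]

/-- from the counts in `(x / 3, x]` to the counts in `[1, x]` -/
theorem geo {S : ℝ → ℝ} {C ρ : ℝ} (hb : ∀ x : ℝ, 0 < x → |S x| ≤ C * x)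
    (h : ∀ ε : ℝ, 0 < ε → ∃ X₀ : ℝ, ∀ x : ℝ, X₀ ≤ x → |S x - S (x / 3) - x * ρ| ≤ ε * x) :
    Tendsto (fun x : ℝ => S x / x) atTop (𝓝 (3 / 2 * ρ)) := by
  -- the bounds improve by a factor
  have key : ∀ ε : ℝ, 0 < ε → ∀ m : ℕ, ∃ X₀ : ℝ, 0 < X₀ ∧ ∀ x : ℝ, X₀ ≤ x →
      |S x - x * (3 / 2 * ρ)| ≤ (2 * ε + (C + 3 / 2 * |ρ|) / 3 ^ m) * x := by
    intro ε hε m
    induction m with
    | zero =>
        refine ⟨1, one_pos, fun x hx => ?_⟩
        have hx0 : 0 < x := by linarith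
        have h1 := hb x hx0
        have h2 : |x * (3 / 2 * ρ)| = x * (3 / 2 * |ρ|) := by
          rw [abs_mul, abs_mul, abs_of_pos hx0, abs_of_pos (by norm_num : (0 : ℝ) < 3 / 2)]
        have h3 := abs_sub (S x) (x * (3 / 2 * ρ))
        rw [h2] at h3
        rw [pow_zero, div_one]
        nlinarith [mul_pos hε hx0]
    | succ m ih =>
        obtain ⟨X₀, hX0, ih⟩ := ih
        obtain ⟨X₁, hX1⟩ := h ε hε
        refine ⟨max (3 * X₀) X₁, lt_max_of_lt_left (by positivity), fun x hx => ?_⟩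
        have hx1 : 3 * X₀ ≤ x := (le_max_left _ _).trans hx
        have hx0 : 0 < x := by linarith
        have h1 := ih (x / 3) (by linarith)
        have h2 := hX1 x ((le_max_right _ _).trans hx)
        have h3 : S x - x * (3 / 2 * ρ) = (S x - S (x / 3) - x * ρ) + (S (x / 3) - x / 3 * (3 / 2 * ρ)) := by ring
        rw [h3]
        refine (abs_add_le _ _).trans ?_
        have h4 : (2 * ε + (C + 3 / 2 * |ρ|) / 3 ^ (m + 1)) * x =
            2 * ε * x + (C + 3 / 2 * |ρ|) / 3 ^ m * (x / 3) := by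
          rw [pow_succ]
          field_simp
        rw [h4]
        have h5 : (2 * ε + (C + 3 / 2 * |ρ|) / 3 ^ m) * (x / 3) =
            2 * ε * (x / 3) + (C + 3 / 2 * |ρ|) / 3 ^ m * (x / 3) := by ring
        rw [h5] at h1
        nlinarith [mul_pos hε hx0]
  rw [Metric.tendsto_atTop]
  intro ε hε
  have hlim : Tendsto (fun m : ℕ => (C + 3 / 2 * |ρ|) / (3 : ℝ) ^ m) atTop (𝓝 0) := by
    have := (tendsto_pow_atTop_nhds_zero_of_lt_one (by norm_num : (0 : ℝ) ≤ 1 / 3) (by norm_num)).const_mul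
      (C + 3 / 2 * |ρ|)
    rw [mul_zero] at this
    refine this.congr fun m => ?_
    rw [one_div, inv_pow]
    rfl
  obtain ⟨m, hm⟩ := (hlim.eventually_lt_const (show (0 : ℝ) < ε / 4 by positivity)).exists
  obtain ⟨X₀, hX0, hX⟩ := key (ε / 4) (by positivity) m
  refine ⟨X₀, fun x hx => ?_⟩
  have hx0 : 0 < x := hX0.trans_le hx
  have h1 := hX x hx
  rw [Real.dist_eq]
  have h2 : S x / x - 3 / 2 * ρ = (S x - x * (3 / 2 * ρ)) / x := by field_simp
  rw [h2, abs_div, abs_of_pos hx0, div_lt_iff₀ hx0]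
  nlinarith [mul_pos hε hx0]

end Pool.Agent.L7h55.GC
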