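import Mathlib

/-! Comparison of two normal densities with nearby parameters. -/

set_option autoImplicit false

namespace Pool.Agent.L7h55.GC

open Real

theorem ratio {v ρ : ℝ} (hv : 0 < v) (hρ : 0 < ρ) {K C : ℝ} (hK : 0 ≤ K) (hC : 0 ≤ C) {ε : ℝ} (hε : 0 < ε) :
    ∃ L₀ : ℝ, 1 ≤ L₀ ∧ 2 * C ≤ L₀ ∧ ∀ L D a b : ℝ, L₀ ≤ L → |D| ≤ K * √L → |a| ≤ C → |b| ≤ C →
      ∃ E : ℝ, |E| ≤ ε ∧
        ρ * (exp (-((ρ * D + b) ^ 2 / (2 * (ρ ^ 2 * v * (L + a))))) / √(2 * π * (ρ ^ 2 * v * (L + a)))) =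
          exp E * (exp (-(D ^ 2 / (2 * (v * L)))) / √(2 * π * (v * L))) := by
  obtain ⟨M, hM⟩ : ∃ M : ℝ, M = (ρ ^ 2 * K ^ 2 * C + 2 * ρ * K * C + C ^ 2) / (ρ ^ 2 * v) := ⟨_, rfl⟩
  have hM0 : 0 ≤ M := by rw [hM]; positivity
  refine ⟨1 + 2 * C + ((M + C) / ε) ^ 2, by nlinarith [sq_nonneg ((M + C) / ε)],
    by nlinarith [sq_nonneg ((M + C) / ε)], fun L D a b hL hD ha hb => ?_⟩
  have hsq := sq_nonneg ((M + C) / ε)
  have hL1 : 1 ≤ L := by linarith
  have hL0 : 0 < L := by linarith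
  have hLC : 2 * C ≤ L := by linarith
  have ha' := abs_le.1 ha
  have hLa : L / 2 ≤ L + a := by linarith
  have hLa0 : 0 < L + a := by linarith
  have hr0 : 0 < √L := sqrt_pos.2 hL0
  have hr1 : 1 ≤ √L := by rw [← sqrt_one]; exact sqrt_le_sqrt hL1
  have hrr : √L * √L = L := mul_self_sqrt hL0.le
  have hrL : (M + C) / ε ≤ √L := by
    apply le_sqrt_of_sq_le
    linarith
  refine ⟨D ^ 2 / (2 * (v * L)) - (ρ * D + b) ^ 2 / (2 * (ρ ^ 2 * v * (L + a))) + log (L / (L + a)) / 2, ?_, ?_⟩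
  · have h1 : |D ^ 2 / (2 * (v * L)) - (ρ * D + b) ^ 2 / (2 * (ρ ^ 2 * v * (L + a)))| ≤ M / √L := by
      have e1 : D ^ 2 / (2 * (v * L)) - (ρ * D + b) ^ 2 / (2 * (ρ ^ 2 * v * (L + a))) =
          (ρ ^ 2 * D ^ 2 * a - 2 * ρ * (D * b) * L - b ^ 2 * L) / (2 * (ρ ^ 2 * v) * L * (L + a)) := by
        field_simp
        ring
      have e2 : |ρ ^ 2 * D ^ 2 * a - 2 * ρ * (D * b) * L - b ^ 2 * L| ≤
          (ρ ^ 2 * K ^ 2 * C + 2 * ρ * K * C + C ^ 2) * (√L * L) := by
        have f1 : D ^ 2 ≤ K ^ 2 * L := by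
          have := pow_le_pow_left₀ (abs_nonneg D) hD 2
          rw [sq_abs, mul_pow, sq_sqrt hL0.le] at this
          exact this
        have f2 : |ρ ^ 2 * D ^ 2 * a| ≤ ρ ^ 2 * (K ^ 2 * L) * C := by
          rw [abs_mul, abs_of_nonneg (by positivity : (0 : ℝ) ≤ ρ ^ 2 * D ^ 2)]
          apply mul_le_mul _ ha (abs_nonneg a) (by positivity)
          exact mul_le_mul_of_nonneg_left f1 (by positivity)
        have f3 : |2 * ρ * (D * b) * L| ≤ 2 * ρ * (K * √L * C) * L := by
          rw [abs_mul, abs_mul, abs_mul D b, abs_of_pos (by positivity : (0 : ℝ) < 2 * ρ), abs_of_pos hL0]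
          apply mul_le_mul_of_nonneg_right _ hL0.le
          apply mul_le_mul_of_nonneg_left _ (by positivity)
          exact mul_le_mul hD hb (abs_nonneg b) (by positivity)
        have f4 : |b ^ 2 * L| ≤ C ^ 2 * L := by
          rw [abs_of_nonneg (by positivity : (0 : ℝ) ≤ b ^ 2 * L)]
          apply mul_le_mul_of_nonneg_right _ hL0.le
          have := pow_le_pow_left₀ (abs_nonneg b) hb 2
          rwa [sq_abs] at this
        have f5 : L ≤ √L * L := by nlinarith
        have f6 : 0 ≤ ρ ^ 2 * K ^ 2 * C := by positivity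
        calc |ρ ^ 2 * D ^ 2 * a - 2 * ρ * (D * b) * L - b ^ 2 * L|
            ≤ |ρ ^ 2 * D ^ 2 * a| + |2 * ρ * (D * b) * L| + |b ^ 2 * L| := by
              refine (abs_sub _ _).trans ?_
              gcongr
              exact abs_sub _ _
          _ ≤ ρ ^ 2 * (K ^ 2 * L) * C + 2 * ρ * (K * √L * C) * L + C ^ 2 * L := by linarith
          _ = ρ ^ 2 * K ^ 2 * C * L + 2 * ρ * K * C * (√L * L) + C ^ 2 * L := by ring
          _ ≤ ρ ^ 2 * K ^ 2 * C * (√L * L) + 2 * ρ * K * C * (√L * L) + C ^ 2 * (√L * L) := by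
              have g1 := mul_le_mul_of_nonneg_left f5 f6
              have g2 := mul_le_mul_of_nonneg_left f5 (sq_nonneg C)
              linarith
          _ = _ := by ring
      have e3 : ρ ^ 2 * v * L * L ≤ 2 * (ρ ^ 2 * v) * L * (L + a) := by
        have : 0 < ρ ^ 2 * v * L := by positivity
        nlinarith
      have e4 : 0 < ρ ^ 2 * v * L * L := by positivity
      rw [e1, abs_div, abs_of_pos (lt_of_lt_of_le e4 e3)]
      calc _ ≤ (ρ ^ 2 * K ^ 2 * C + 2 * ρ * K * C + C ^ 2) * (√L * L) / (ρ ^ 2 * v * L * L) := by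
            apply div_le_div₀ (by positivity) e2 e4 e3
        _ = M / √L := by
            have e5 : ρ ^ 2 * v * L * L = ρ ^ 2 * v * L * (√L * √L) := by rw [hrr]
            rw [hM, e5]
            field_simp
    have h2 : |log (L / (L + a)) / 2| ≤ C / √L := by
      have g1 : log (L / (L + a)) ≤ 2 * C / L := by
        have := log_le_sub_one_of_pos (div_pos hL0 hLa0)
        have g2 : L / (L + a) - 1 = (-a) / (L + a) := by field_simp; ring
        rw [g2] at this
        refine this.trans ?_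
        rw [div_le_div_iff₀ hLa0 hL0]
        have g3 : -a * L ≤ C * L := mul_le_mul_of_nonneg_right (by linarith) hL0.le
        nlinarith
      have g2 : -(2 * C / L) ≤ log (L / (L + a)) := by
        have := log_le_sub_one_of_pos (div_pos hLa0 hL0)
        have g3 : (L + a) / L - 1 = a / L := by field_simp; ring
        rw [g3] at this
        have g4 : log (L / (L + a)) = - log ((L + a) / L) := by rw [← log_inv, inv_div]
        rw [g4]
        have g5 : a / L ≤ 2 * C / L := div_le_div_of_nonneg_right (by linarith) hL0.le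
        linarith
      have g3 : |log (L / (L + a))| ≤ 2 * C / L := abs_le.2 ⟨g2, g1⟩
      have g4 : C / L ≤ C / √L := by
        apply div_le_div_of_nonneg_left hC hr0
        nlinarith
      rw [abs_div, abs_two]
      have g5 : 2 * C / L = 2 * (C / L) := by ring
      rw [g5] at g3
      linarith
    have h3 : (M + C) / √L ≤ ε := by
      rw [div_le_iff₀ hr0]
      rw [div_le_iff₀ hε] at hrL
      linarith
    have h4 := abs_add_le (D ^ 2 / (2 * (v * L)) - (ρ * D + b) ^ 2 / (2 * (ρ ^ 2 * v * (L + a)))) (log (L / (L + a)) / 2)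
    have h5 : (M + C) / √L = M / √L + C / √L := by ring
    linarith
  · have hpi := pi_pos
    have e1 : √(2 * π * (ρ ^ 2 * v * (L + a))) = ρ * √(2 * π * (v * L)) * √((L + a) / L) := by
      have : 2 * π * (ρ ^ 2 * v * (L + a)) = ρ ^ 2 * (2 * π * (v * L)) * ((L + a) / L) := by
        field_simp
      rw [this, sqrt_mul (by positivity), sqrt_mul (by positivity), sqrt_sq hρ.le]
    have e2 : exp (log (L / (L + a)) / 2) = 1 / √((L + a) / L) := by
      rw [one_div, ← sqrt_inv, inv_div, sqrt_eq_rpow, rpow_def_of_pos (div_pos hL0 hLa0)]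
      congr 1
      ring
    have h0 : 0 < √((L + a) / L) := sqrt_pos.2 (div_pos hLa0 hL0)
    have h1 : 0 < √(2 * π * (v * L)) := sqrt_pos.2 (by positivity)
    have e3 : exp (D ^ 2 / (2 * (v * L))) * exp (-(D ^ 2 / (2 * (v * L)))) = 1 := by
      rw [← exp_add, add_neg_cancel, exp_zero]
    rw [e1, exp_add, sub_eq_add_neg, exp_add, e2]
    generalize exp (D ^ 2 / (2 * (v * L))) = E1 at e3 ⊢
    generalize exp (-(D ^ 2 / (2 * (v * L)))) = E2 at e3 ⊢
    generalize exp (-((ρ * D + b) ^ 2 / (2 * (ρ ^ 2 * v * (L + a))))) = E3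
    generalize √((L + a) / L) = s2 at h0 ⊢
    generalize √(2 * π * (v * L)) = s1 at h1 ⊢
    field_simp
    linear_combination (-E3) * e3

end Pool.Agent.L7h55.GC
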