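import Pool.Agent.R468.MG.K
import Pool.Agent.L7h55.GC.Ratio

/-!
The number of the elements with given values of both statistics: from the local limit law for a linear combination.
-/

set_option autoImplicit false

namespace Pool.Agent.L7h55.GC

open Finset Filter Topology
open Pool.Agent.R468.GL
open Pool.Agent.R468.MF
open Pool.Agent.R468.MG
open Pool.Agent.R468.LL (lam lam_eq lam_pos lam_lt)

/-- the number of the positive elements up to `y` with the values `k`, `l` of the statistics -/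
noncomputable def cell (B : Set ℤ) (κ ω : ℤ → ℤ) (k l : ℤ) (y : ℝ) : ℝ :=
  ({n : ℤ | 1 ≤ n ∧ (n : ℝ) ≤ y ∧ n ∈ B ∧ κ n = k ∧ ω n = l}.ncard : ℝ)

/-- the logarithm of the size of a cell -/
noncomputable def LW (c : ℝ) (k l : ℤ) : ℝ := c + k * Real.log 2 - l * Real.log 3

/-- the sizes of the elements -/
def Size (B : Set ℤ) (κ ω : ℤ → ℤ) (c A₁ A₂ : ℝ) : Prop :=
  ∀ n ∈ B, 1 ≤ n → LW c (κ n) (ω n) - A₁ ≤ Real.log n ∧ Real.log n ≤ LW c (κ n) (ω n) + A₂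

theorem fin_set (S : Set ℤ) (y : ℝ) : {n : ℤ | 1 ≤ n ∧ (n : ℝ) ≤ y ∧ n ∈ S}.Finite := by
  apply (Set.finite_Icc 1 ⌊y⌋).subset
  rintro n ⟨h1, h2, -⟩
  exact ⟨h1, Int.le_floor.2 h2⟩

theorem cell_fin (B : Set ℤ) (κ ω : ℤ → ℤ) (k l : ℤ) (y : ℝ) :
    {n : ℤ | 1 ≤ n ∧ (n : ℝ) ≤ y ∧ n ∈ B ∧ κ n = k ∧ ω n = l}.Finite :=
  fin_set {n | n ∈ B ∧ κ n = k ∧ ω n = l} y

theorem cell_mono (B : Set ℤ) (κ ω : ℤ → ℤ) (k l : ℤ) {y z : ℝ} (h : y ≤ z) :
    cell B κ ω k l y ≤ cell B κ ω k l z := by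
  unfold cell
  have := Set.ncard_le_ncard (s := {n : ℤ | 1 ≤ n ∧ (n : ℝ) ≤ y ∧ n ∈ B ∧ κ n = k ∧ ω n = l})
    (t := {n : ℤ | 1 ≤ n ∧ (n : ℝ) ≤ z ∧ n ∈ B ∧ κ n = k ∧ ω n = l})
    (fun n ⟨h1, h2, h3⟩ => ⟨h1, h2.trans h, h3⟩) (cell_fin B κ ω k l z)
  exact_mod_cast this

theorem cell_nonneg (B : Set ℤ) (κ ω : ℤ → ℤ) (k l : ℤ) (y : ℝ) : 0 ≤ cell B κ ω k l y := Nat.cast_nonneg _

theorem CG_ncard (P : Par) (B : Set ℤ) (κ ω : ℤ → ℤ) (x : ℝ) (j : ℤ) : CG P B κ ω x j =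
    ({n : ℤ | 1 ≤ n ∧ (n : ℝ) ≤ x ∧ n ∈ Lj P B κ ω j}.ncard : ℝ) := by
  classical
  unfold CG
  rw [← Set.ncard_coe_finset]
  congr 2
  ext n
  rw [mem_coe, mem_filter, mem_Icc, Int.le_floor, Set.mem_ofPred_eq]
  tauto

/-- the points on a line -/
theorem line (P : Par) {k l k' l' : ℤ} (h : P.α * l' + P.β * k' = P.α * l + P.β * k) :
    ∃ i : ℤ, k' = k - P.α * i ∧ l' = l + P.β * i := by
  refine ⟨P.k1 * (l' - l) - P.o1 * (k' - k), ?_, ?_⟩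
  · linear_combination (-(k' - k)) * P.bez + P.k1 * h
  · linear_combination (-(l' - l)) * P.bez + P.o1 * h

theorem LW_line (P : Par) (c : ℝ) (k l i : ℤ) : LW c (k - P.α * i) (l + P.β * i) = LW c k l - i * ww P := by
  unfold LW ww
  push_cast
  ring

variable {P : Par} {B : Set ℤ} {κ ω : ℤ → ℤ} {c A₁ A₂ : ℝ}

/-- the count on a line is the count in the cell plus the count far below -/
theorem cell_eq (hS : Size B κ ω c A₁ A₂) (h1 : 2 * A₁ < ww P) (h2 : 2 * A₂ < ww P) (k l : ℤ) {y : ℝ} (hy : 0 < y)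
    (hy1 : LW c k l - ww P / 2 ≤ Real.log y) (hy2 : Real.log y ≤ LW c k l + ww P / 2) :
    CG P B κ ω y (P.α * l + P.β * k) = cell B κ ω k l y +
      CG P B κ ω (Real.exp (LW c k l - ww P / 2)) (P.α * l + P.β * k) := by
  have hw := ww_pos P
  have hlow : Real.exp (LW c k l - ww P / 2) ≤ y := by
    rw [← Real.le_log_iff_exp_le hy]
    exact hy1
  have hpos : ∀ n : ℤ, 1 ≤ n → (0 : ℝ) < n := fun n hn => by exact_mod_cast (by omega : 0 < n)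
  have key : {n : ℤ | 1 ≤ n ∧ (n : ℝ) ≤ y ∧ n ∈ Lj P B κ ω (P.α * l + P.β * k)} =
      {n : ℤ | 1 ≤ n ∧ (n : ℝ) ≤ y ∧ n ∈ B ∧ κ n = k ∧ ω n = l} ∪
      {n : ℤ | 1 ≤ n ∧ (n : ℝ) ≤ Real.exp (LW c k l - ww P / 2) ∧ n ∈ Lj P B κ ω (P.α * l + P.β * k)} := by
    ext n
    rw [Set.mem_union]
    constructor
    · rintro ⟨g1, g2, g3, g4⟩
      obtain ⟨i, hi1, hi2⟩ := line P g4
      obtain ⟨g5, g6⟩ := hS n g3 g1
      rw [hi1, hi2, LW_line] at g5 g6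
      have g7 : Real.log n ≤ Real.log y := Real.log_le_log (hpos n g1) g2
      rcases lt_trichotomy i 0 with hi | hi | hi
      · exfalso
        have : (i : ℝ) ≤ -1 := by exact_mod_cast (by omega : i ≤ -1)
        nlinarith
      · left
        subst hi
        refine ⟨g1, g2, g3, by rw [hi1]; ring, by rw [hi2]; ring⟩
      · right
        have : (1 : ℝ) ≤ i := by exact_mod_cast (by omega : 1 ≤ i)
        refine ⟨g1, ?_, g3, g4⟩
        rw [← Real.log_le_iff_le_exp (hpos n g1)]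
        nlinarith
    · rintro (⟨g1, g2, g3, g4, g5⟩ | ⟨g1, g2, g3⟩)
      · exact ⟨g1, g2, g3, by rw [g4, g5]⟩
      · exact ⟨g1, g2.trans hlow, g3⟩
  have hdis : Disjoint {n : ℤ | 1 ≤ n ∧ (n : ℝ) ≤ y ∧ n ∈ B ∧ κ n = k ∧ ω n = l}
      {n : ℤ | 1 ≤ n ∧ (n : ℝ) ≤ Real.exp (LW c k l - ww P / 2) ∧ n ∈ Lj P B κ ω (P.α * l + P.β * k)} := by
    rw [Set.disjoint_left]
    rintro n ⟨g1, _, g3, g4, g5⟩ ⟨_, g6, _⟩
    obtain ⟨g7, _⟩ := hS n g3 g1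
    rw [g4, g5] at g7
    rw [← Real.log_le_iff_le_exp (hpos n g1)] at g6
    linarith
  rw [CG_ncard, CG_ncard, key, Set.ncard_union_eq hdis (cell_fin B κ ω k l y) (fin_set _ _)]
  unfold cell
  push_cast
  rfl

/-- nothing below -/
theorem cell_low (hS : Size B κ ω c A₁ A₂) (k l : ℤ) {y : ℝ} (hy : y < Real.exp (LW c k l - A₁)) :
    cell B κ ω k l y = 0 := by
  unfold cell
  have : {n : ℤ | 1 ≤ n ∧ (n : ℝ) ≤ y ∧ n ∈ B ∧ κ n = k ∧ ω n = l} = ∅ := by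
    rw [Set.eq_empty_iff_forall_notMem]
    rintro n ⟨g1, g2, g3, g4, g5⟩
    obtain ⟨g7, _⟩ := hS n g3 g1
    rw [g4, g5] at g7
    have hn : (0 : ℝ) < n := by exact_mod_cast (by omega : 0 < n)
    rw [Real.le_log_iff_exp_le hn] at g7
    linarith
  rw [this, Set.ncard_empty, Nat.cast_zero]

/-- nothing above -/
theorem cell_high (hS : Size B κ ω c A₁ A₂) (k l : ℤ) {y z : ℝ} (hy : Real.exp (LW c k l + A₂) ≤ y) (hyz : y ≤ z) :
    cell B κ ω k l y = cell B κ ω k l z := by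
  unfold cell
  congr 2
  ext n
  constructor
  · rintro ⟨g1, g2, g3⟩
    exact ⟨g1, g2.trans hyz, g3⟩
  · rintro ⟨g1, g2, g3, g4, g5⟩
    obtain ⟨_, g7⟩ := hS n g3 g1
    rw [g4, g5] at g7
    have hn : (0 : ℝ) < n := by exact_mod_cast (by omega : 0 < n)
    rw [Real.log_le_iff_le_exp hn] at g7
    exact ⟨g1, g7.trans hy, g3, g4, g5⟩

/-- the phase -/
theorem phase (P : Par) (c : ℝ) (k l : ℤ) : LW c k l - ((P.α * l + P.β * k : ℤ) : ℝ) * kap P =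
    c + ((P.o1 * k - P.k1 * l : ℤ) : ℝ) * ww P := by
  have h := P.bezR
  unfold LW kap ww
  push_cast
  linear_combination (-(k * Real.log 2 - l * Real.log 3)) * h

/-- the deviation of the linear combination -/
theorem dev (P : Par) (c a : ℝ) (k l : ℤ) : ((P.α * l + P.β * k : ℤ) : ℝ) - A0 P / lam * (LW c k l + a) =
    ww P / Real.log 3 * (k - 2 / lam * LW c k l) + (P.α * c / Real.log 3 - A0 P / lam * a) := by
  have hl3 : Real.log 3 ≠ 0 := (Real.log_pos (by norm_num)).ne'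
  have hl := lam_pos.ne'
  have e : (l : ℝ) = (k * Real.log 2 + c - LW c k l) / Real.log 3 := by
    unfold LW
    field_simp
    ring
  obtain ⟨y, hy⟩ : ∃ y, y = LW c k l := ⟨_, rfl⟩
  rw [← hy] at e ⊢
  push_cast
  rw [e]
  unfold ww A0
  field_simp
  rw [lam_eq]
  ring

end Pool.Agent.L7h55.GC
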