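import Pool.Agent.L7h55.GC.Cell

/-!
The local law for the number of the elements with given values of both statistics.
-/

set_option autoImplicit false

namespace Pool.Agent.L7h55.GC

open Finset Filter Topology
open Pool.Agent.R468.GL
open Pool.Agent.R468.MF
open Pool.Agent.R468.MG
open Pool.Agent.R468.LL (lam lam_eq lam_pos lam_lt)

/-- the mean -/
noncomputable def m0 : ℝ := 2 / lam

/-- the variance -/
noncomputable def v0 : ℝ := 2 * Real.log 3 ^ 2 / lam ^ 3

theorem log3_pos : 0 < Real.log 3 := Real.log_pos (by norm_num)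

theorem v0_pos : 0 < v0 := by
  unfold v0
  have := lam_pos
  have := log3_pos
  positivity

variable {P : Par} {B : Set ℤ} {κ ω : ℤ → ℤ} {c A₁ A₂ : ℝ} {Ψ : ℝ → ℝ} {δ : ℝ}

/-- comparison of the two normal densities -/
theorem gn_cmp (P : Par) (c : ℝ) {K ε : ℝ} (hK : 0 ≤ K) (hε : 0 < ε) : ∃ L₀ : ℝ, 1 ≤ L₀ ∧ ∀ (k l : ℤ) (a : ℝ),
    L₀ ≤ LW c k l → |(k : ℝ) - m0 * LW c k l| ≤ K * √(LW c k l) → |a| ≤ ww P / 2 →
    ∃ E : ℝ, |E| ≤ ε ∧
      gn (A0 P / lam) (2 * ww P ^ 2 / lam ^ 3) (Real.exp (LW c k l + a)) (P.α * l + P.β * k) =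
        Real.log 3 / ww P * (Real.exp E * gn m0 v0 (Real.exp (LW c k l)) k) := by
  have hw := ww_pos P
  have hl := lam_pos
  have h3 := log3_pos
  have hA0 : 0 ≤ A0 P / lam := div_nonneg (by linarith [A0_ge P]) hl.le
  obtain ⟨C, hC⟩ : ∃ C : ℝ, C = |P.α * c / Real.log 3| + A0 P / lam * (ww P / 2) + ww P / 2 := ⟨_, rfl⟩
  have hC0 : 0 ≤ C := by rw [hC]; positivity
  obtain ⟨L₀, h1, -, h⟩ := ratio (v := v0) (ρ := ww P / Real.log 3) v0_pos (by positivity) hK hC0 hε
  refine ⟨L₀, h1, fun k l a hL hk ha => ?_⟩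
  have hb : |P.α * c / Real.log 3 - A0 P / lam * a| ≤ C := by
    have g1 := abs_sub (P.α * c / Real.log 3) (A0 P / lam * a)
    have g2 : |A0 P / lam * a| ≤ A0 P / lam * (ww P / 2) := by
      rw [abs_mul, abs_of_nonneg hA0]
      exact mul_le_mul_of_nonneg_left ha hA0
    have g3 : 0 ≤ ww P / 2 := by positivity
    rw [hC]
    linarith
  have ha' : |a| ≤ C := by
    rw [hC]
    have g1 : 0 ≤ A0 P / lam * (ww P / 2) := by positivity
    have g2 := abs_nonneg (P.α * c / Real.log 3)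
    linarith
  obtain ⟨E, hE, he⟩ := h (LW c k l) (k - m0 * LW c k l) a (P.α * c / Real.log 3 - A0 P / lam * a) hL hk ha' hb
  refine ⟨E, hE, ?_⟩
  have e1 : (ww P / Real.log 3) ^ 2 * v0 = 2 * ww P ^ 2 / lam ^ 3 := by
    unfold v0
    field_simp
  rw [e1] at he
  unfold gn sd
  rw [Real.log_exp, Real.log_exp, dev P c a k l]
  have e2 : gn m0 v0 (Real.exp (LW c k l)) k = gn m0 v0 (Real.exp (LW c k l)) k := rfl
  have e3 : (Real.log 3 / ww P) * (ww P / Real.log 3) = 1 := by field_simp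
  have e4 := congrArg (fun z => Real.log 3 / ww P * z) he
  rw [← mul_assoc, e3, one_mul] at e4
  exact e4

/-- the counts at comparable sizes -/
theorem count_asym (Lw : Law (CG P B κ ω) (A0 P / lam) (2 * ww P ^ 2 / lam ^ 3) (kap P / ww P)
      (fun x => Real.log x / ww P) Ψ δ) {K ε : ℝ} (hK : 0 ≤ K) (hε : 0 < ε) : ∃ L₀ : ℝ, 1 ≤ L₀ ∧
    ∀ (k l : ℤ) (a : ℝ), L₀ ≤ LW c k l → |(k : ℝ) - m0 * LW c k l| ≤ K * √(LW c k l) → |a| ≤ ww P / 2 →
    |CG P B κ ω (Real.exp (LW c k l + a)) (P.α * l + P.β * k) /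
        (Real.exp (LW c k l) * gn m0 v0 (Real.exp (LW c k l)) k) -
      Real.log 3 / ww P * (Real.exp a * Ψ ((c + a) / ww P))| ≤ ε := by
  have hw := ww_pos P
  have hl := lam_pos
  have h3 := log3_pos
  have hA0 : 0 ≤ A0 P / lam := div_nonneg (by linarith [A0_ge P]) hl.le
  obtain ⟨t₀, ht₀⟩ := per_bound Lw.cont Lw.per
  obtain ⟨M, hM⟩ : ∃ M : ℝ, M = Ψ t₀ := ⟨_, rfl⟩
  rw [← hM] at ht₀
  have hM0 : 0 ≤ M := (Lw.psi_nonneg 0).trans (ht₀ 0)
  obtain ⟨r, hr⟩ : ∃ r : ℝ, r = Real.log 3 / ww P := ⟨_, rfl⟩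
  obtain ⟨q, hq⟩ : ∃ q : ℝ, q = Real.exp (ww P / 2) := ⟨_, rfl⟩
  have hr0 : 0 < r := by rw [hr]; positivity
  have hq0 : 0 < q := by rw [hq]; positivity
  obtain ⟨ε₁, hε₁⟩ : ∃ e : ℝ, e = min 1 (ε / (r * q * (2 * M + 3))) := ⟨_, rfl⟩
  have hε₁0 : 0 < ε₁ := by rw [hε₁]; positivity
  have hε₁1 : ε₁ ≤ 1 := by rw [hε₁]; exact min_le_left _ _
  have hε₁2 : r * q * (2 * M + 3) * ε₁ ≤ ε := by
    have : ε₁ ≤ ε / (r * q * (2 * M + 3)) := by rw [hε₁]; exact min_le_right _ _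
    rw [le_div_iff₀ (by positivity)] at this
    linarith
  obtain ⟨L₁, hL₁, hg⟩ := gn_cmp P c hK hε₁0
  obtain ⟨Cb, hCb⟩ : ∃ C : ℝ, C = |P.α * c / Real.log 3| + A0 P / lam * (ww P / 2) := ⟨_, rfl⟩
  have hCb0 : 0 ≤ Cb := by rw [hCb]; positivity
  obtain ⟨X₀, hX2, hloc⟩ := Lw.loc (2 * (ww P / Real.log 3 * K + Cb)) ε₁ hε₁0
  refine ⟨max L₁ (max (Real.log X₀ + ww P / 2) (ww P)), hL₁.trans (le_max_left _ _), fun k l a hL hk ha => ?_⟩
  obtain ⟨L, hLd⟩ : ∃ L : ℝ, L = LW c k l := ⟨_, rfl⟩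
  rw [← hLd] at hL hk ⊢
  have hL1 : L₁ ≤ L := (le_max_left _ _).trans hL
  have hL2 : Real.log X₀ + ww P / 2 ≤ L := ((le_max_left _ _).trans (le_max_right _ _)).trans hL
  have hL3 : ww P ≤ L := ((le_max_right _ _).trans (le_max_right _ _)).trans hL
  have hL4 : 1 ≤ L := hL₁.trans hL1
  have hL0 : 0 < L := by linarith
  have ha' := abs_le.1 ha
  have hr1 : 1 ≤ √L := by rw [← Real.sqrt_one]; exact Real.sqrt_le_sqrt hL4
  have hhalf : √L / 2 ≤ √(L + a) := by
    apply Real.le_sqrt_of_sq_le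
    rw [div_pow, Real.sq_sqrt hL0.le]
    linarith
  obtain ⟨E, hE, hgn⟩ := hg k l a (by rw [← hLd]; exact hL1) (by rw [← hLd]; exact hk) ha
  rw [← hLd, ← hr] at hgn
  have hX : X₀ ≤ Real.exp (L + a) := by
    rw [← Real.log_le_iff_le_exp (by linarith)]
    linarith
  have hb : |P.α * c / Real.log 3 - A0 P / lam * a| ≤ Cb := by
    have g1 := abs_sub (P.α * c / Real.log 3) (A0 P / lam * a)
    have g2 : |A0 P / lam * a| ≤ A0 P / lam * (ww P / 2) := by
      rw [abs_mul, abs_of_nonneg hA0]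
      exact mul_le_mul_of_nonneg_left ha hA0
    rw [hCb]
    linarith
  have hdev : |((P.α * l + P.β * k : ℤ) : ℝ) - A0 P / lam * Real.log (Real.exp (L + a))| ≤
      2 * (ww P / Real.log 3 * K + Cb) * √(Real.log (Real.exp (L + a))) := by
    rw [Real.log_exp]
    have e := dev P c a k l
    rw [← hLd] at e
    rw [e]
    have g1 := abs_add_le (ww P / Real.log 3 * (k - 2 / lam * L)) (P.α * c / Real.log 3 - A0 P / lam * a)
    have g2 : |ww P / Real.log 3 * (k - 2 / lam * L)| ≤ ww P / Real.log 3 * (K * √L) := by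
      rw [abs_mul, abs_of_pos (by positivity : 0 < ww P / Real.log 3)]
      exact mul_le_mul_of_nonneg_left hk (by positivity)
    have g3 : 0 ≤ ww P / Real.log 3 * K := by positivity
    calc _ ≤ ww P / Real.log 3 * (K * √L) + Cb := by linarith
      _ ≤ (ww P / Real.log 3 * K + Cb) * √L := by nlinarith
      _ = 2 * (ww P / Real.log 3 * K + Cb) * (√L / 2) := by ring
      _ ≤ _ := mul_le_mul_of_nonneg_left hhalf (by positivity)
  have h6 := hloc _ hX (P.α * l + P.β * k) hdev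
  have hph : Real.log (Real.exp (L + a)) / ww P - ((P.α * l + P.β * k : ℤ) : ℝ) * (kap P / ww P) =
      (c + a) / ww P + ((P.o1 * k - P.k1 * l : ℤ) : ℝ) := by
    have e := phase P c k l
    rw [← hLd] at e
    rw [Real.log_exp]
    field_simp
    linear_combination e
  have hper : Function.Periodic Ψ 1 := Lw.per
  have h7 : Ψ ((c + a) / ww P + ((P.o1 * k - P.k1 * l : ℤ) : ℝ)) = Ψ ((c + a) / ww P) := by
    have := hper.int_mul (P.o1 * k - P.k1 * l) ((c + a) / ww P)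
    rwa [mul_one] at this
  rw [hph, h7] at h6
  -- the final computation
  obtain ⟨Q, hQ⟩ : ∃ Q : ℝ, Q = CG P B κ ω (Real.exp (L + a)) (P.α * l + P.β * k) := ⟨_, rfl⟩
  obtain ⟨g, hgd⟩ : ∃ g : ℝ, g = gn m0 v0 (Real.exp L) k := ⟨_, rfl⟩
  obtain ⟨p, hp⟩ : ∃ p : ℝ, p = Ψ ((c + a) / ww P) := ⟨_, rfl⟩
  have hg0 : 0 < g := by
    rw [hgd]
    exact gn_pos v0_pos (by rw [Real.log_exp]; exact hL0) k
  rw [← hQ, ← hp] at h6
  rw [← hgd] at hgn
  rw [hgn] at h6
  rw [← hQ, ← hgd, ← hr, ← hp]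
  have hp0 : 0 ≤ p := by rw [hp]; exact Lw.psi_nonneg _
  have hpM : p ≤ M := by rw [hp]; exact ht₀ _
  obtain ⟨R, hR⟩ : ∃ R : ℝ, R = Q / (Real.exp (L + a) * (r * (Real.exp E * g))) := ⟨_, rfl⟩
  rw [← hR] at h6
  have e1 : Q / (Real.exp L * g) = r * Real.exp a * (Real.exp E * R) := by
    rw [hR, Real.exp_add]
    field_simp
  have h8 : |Real.exp E - 1| ≤ 2 * ε₁ := by
    have := Real.abs_exp_sub_one_le (hE.trans hε₁1)
    linarith
  have h9 : |R| ≤ M + 1 := by
    have := abs_sub_abs_le_abs_sub R p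
    rw [abs_of_nonneg hp0] at this
    linarith
  have h10 : Real.exp a ≤ q := by
    rw [hq]
    exact Real.exp_le_exp.2 ha'.2
  have e2 : r * Real.exp a * (Real.exp E * R) - r * (Real.exp a * p) =
      r * Real.exp a * ((Real.exp E - 1) * R + (R - p)) := by ring
  rw [e1, e2, abs_mul, abs_of_pos (by positivity : 0 < r * Real.exp a)]
  have h11 : |(Real.exp E - 1) * R + (R - p)| ≤ (2 * M + 3) * ε₁ := by
    have g1 := abs_add_le ((Real.exp E - 1) * R) (R - p)
    have g2 : |(Real.exp E - 1) * R| ≤ 2 * ε₁ * (M + 1) := by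
      rw [abs_mul]
      exact mul_le_mul h8 h9 (abs_nonneg _) (by positivity)
    linarith
  calc r * Real.exp a * |(Real.exp E - 1) * R + (R - p)| ≤ r * q * ((2 * M + 3) * ε₁) := by
        apply mul_le_mul _ h11 (abs_nonneg _) (by positivity)
        exact mul_le_mul_of_nonneg_left h10 hr0.le
    _ = r * q * (2 * M + 3) * ε₁ := by ring
    _ ≤ ε := hε₁2

/-- the cut off of the argument -/
noncomputable def clamp (P : Par) (t : ℝ) : ℝ := max (Real.exp (-(ww P / 2))) (min (Real.exp (ww P / 2)) t)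

/-- the profile -/
noncomputable def UU (P : Par) (Ψ : ℝ → ℝ) (c t : ℝ) : ℝ :=
  Real.log 3 / ww P * (clamp P t * Ψ ((c + Real.log (clamp P t)) / ww P)) -
    Real.log 3 / ww P * (Real.exp (-(ww P / 2)) * Ψ ((c + -(ww P / 2)) / ww P))

theorem clamp_pos (P : Par) (t : ℝ) : 0 < clamp P t := lt_of_lt_of_le (Real.exp_pos _) (le_max_left _ _)

theorem clamp_log (P : Par) (t : ℝ) : |Real.log (clamp P t)| ≤ ww P / 2 := by
  have hw := ww_pos P
  have h1 : Real.exp (-(ww P / 2)) ≤ clamp P t := le_max_left _ _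
  have h2 : clamp P t ≤ Real.exp (ww P / 2) := by
    apply max_le _ (min_le_left _ _)
    exact Real.exp_le_exp.2 (by linarith)
  rw [← Real.le_log_iff_exp_le (clamp_pos P t)] at h1
  rw [← Real.log_le_iff_le_exp (clamp_pos P t)] at h2
  exact abs_le.2 ⟨h1, h2⟩

theorem clamp_cont (P : Par) : Continuous (clamp P) := by
  unfold clamp
  fun_prop

theorem UU_cont (hc : Continuous Ψ) : Continuous (UU P Ψ c) := by
  unfold UU
  have h1 := clamp_cont P
  have h2 : Continuous fun t => Real.log (clamp P t) := h1.log fun t => (clamp_pos P t).ne'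
  have h3 : Continuous fun t => Ψ ((c + Real.log (clamp P t)) / ww P) :=
    hc.comp ((continuous_const.add h2).div_const _)
  exact (continuous_const.mul (h1.mul h3)).sub continuous_const

theorem cell_clamp (hS : Size B κ ω c A₁ A₂) (h1 : 2 * A₁ < ww P) (h2 : 2 * A₂ < ww P) (k l : ℤ) (t : ℝ) :
    cell B κ ω k l (t * Real.exp (LW c k l)) = cell B κ ω k l (clamp P t * Real.exp (LW c k l)) := by
  have hw := ww_pos P
  have hW := Real.exp_pos (LW c k l)
  have e1 : Real.exp (-(ww P / 2)) * Real.exp (LW c k l) < Real.exp (LW c k l - A₁) := by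
    rw [← Real.exp_add]
    exact Real.exp_lt_exp.2 (by linarith)
  have e2 : Real.exp (LW c k l + A₂) ≤ Real.exp (ww P / 2) * Real.exp (LW c k l) := by
    rw [← Real.exp_add]
    exact Real.exp_le_exp.2 (by linarith)
  rcases le_total t (Real.exp (-(ww P / 2))) with g | g
  · have e3 : clamp P t = Real.exp (-(ww P / 2)) := by
      unfold clamp
      exact max_eq_left ((min_le_right _ _).trans g)
    rw [e3, cell_low hS k l e1, cell_low hS k l (lt_of_le_of_lt (mul_le_mul_of_nonneg_right g hW.le) e1)]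
  · rcases le_total t (Real.exp (ww P / 2)) with g' | g'
    · have e3 : clamp P t = t := by
        unfold clamp
        rw [min_eq_right g', max_eq_right g]
      rw [e3]
    · have e3 : clamp P t = Real.exp (ww P / 2) := by
        unfold clamp
        rw [min_eq_left g', max_eq_right (Real.exp_le_exp.2 (by linarith))]
      rw [e3]
      exact (cell_high hS k l e2 (mul_le_mul_of_nonneg_right g' hW.le)).symm

/-- **the local law for the cells** -/
theorem cell_law (Lw : Law (CG P B κ ω) (A0 P / lam) (2 * ww P ^ 2 / lam ^ 3) (kap P / ww P)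
      (fun x => Real.log x / ww P) Ψ δ) (hS : Size B κ ω c A₁ A₂) (h1 : 2 * A₁ < ww P) (h2 : 2 * A₂ < ww P)
    {K ε : ℝ} (hK : 0 ≤ K) (hε : 0 < ε) : ∃ L₀ : ℝ, 1 ≤ L₀ ∧
    ∀ (k l : ℤ), L₀ ≤ LW c k l → |(k : ℝ) - m0 * LW c k l| ≤ K * √(LW c k l) → ∀ t : ℝ,
    |cell B κ ω k l (t * Real.exp (LW c k l)) / (Real.exp (LW c k l) * gn m0 v0 (Real.exp (LW c k l)) k) -
      UU P Ψ c t| ≤ ε := by
  have hw := ww_pos P
  obtain ⟨L₀, hL₀, h⟩ := count_asym (c := c) Lw hK (half_pos hε)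
  refine ⟨L₀, hL₀, fun k l hL hk t => ?_⟩
  rw [cell_clamp hS h1 h2]
  have hcl := clamp_log P t
  have hcl' := abs_le.1 hcl
  have hW := Real.exp_pos (LW c k l)
  have hlog : Real.log (clamp P t * Real.exp (LW c k l)) = Real.log (clamp P t) + LW c k l := by
    rw [Real.log_mul (clamp_pos P t).ne' hW.ne', Real.log_exp]
  have hy : clamp P t * Real.exp (LW c k l) = Real.exp (LW c k l + Real.log (clamp P t)) := by
    rw [Real.exp_add, Real.exp_log (clamp_pos P t)]
    ring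
  have e := cell_eq hS h1 h2 k l (mul_pos (clamp_pos P t) hW) (by rw [hlog]; linarith) (by rw [hlog]; linarith)
  have g1 := h k l (Real.log (clamp P t)) hL hk hcl
  have g2 := h k l (-(ww P / 2)) hL hk (by rw [abs_neg, abs_of_pos (by positivity)])
  rw [Real.exp_log (clamp_pos P t), ← hy] at g1
  have e2 : cell B κ ω k l (clamp P t * Real.exp (LW c k l)) =
      CG P B κ ω (clamp P t * Real.exp (LW c k l)) (P.α * l + P.β * k) -
      CG P B κ ω (Real.exp (LW c k l + -(ww P / 2))) (P.α * l + P.β * k) := by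
    rw [e, ← sub_eq_add_neg]
    ring
  rw [e2, sub_div]
  unfold UU
  rw [abs_le] at g1 g2 ⊢
  constructor <;> linarith

end Pool.Agent.L7h55.GC
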