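import Pool.Agent.L7h55.GC.Loc
import Pool.Agent.R468.GL.Inst

/-!
The natural density of the integers of a class with a bounded quotient by their growth constant.
-/

set_option autoImplicit false

namespace Pool.Agent.L7h55.GC

open Finset Filter Topology
open Pool.Agent.R468.GL
open Pool.Agent.R468.MF
open Pool.Agent.R468.MG
open Pool.Agent.R468.LL (lam lam_eq lam_pos lam_lt)

/-- the integers up to `x` which are at most `t` times the growth constant -/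
noncomputable def SS (B : Set ℤ) (κ ω : ℤ → ℤ) (c t x : ℝ) : ℝ :=
  ({n : ℤ | 1 ≤ n ∧ (n : ℝ) ≤ x ∧ n ∈ B ∧ (n : ℝ) ≤ t * Real.exp (LW c (κ n) (ω n))}.ncard : ℝ)

theorem SS_nonneg (B : Set ℤ) (κ ω : ℤ → ℤ) (c t x : ℝ) : 0 ≤ SS B κ ω c t x := Nat.cast_nonneg _

theorem ncard_int_le (S : Set ℤ) {x : ℝ} (hx : 0 ≤ x) : (({n : ℤ | 1 ≤ n ∧ (n : ℝ) ≤ x ∧ n ∈ S}.ncard : ℕ) : ℝ) ≤ x := by
  have h1 : {n : ℤ | 1 ≤ n ∧ (n : ℝ) ≤ x ∧ n ∈ S} ⊆ ((Icc 1 ⌊x⌋ : Finset ℤ) : Set ℤ) := by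
    rintro n ⟨h1, h2, -⟩
    rw [mem_coe, mem_Icc]
    exact ⟨h1, Int.le_floor.2 h2⟩
  have h2 := Set.ncard_le_ncard h1 (Finset.finite_toSet _)
  rw [Set.ncard_coe_finset, Int.card_Icc] at h2
  have h3 : (0 : ℤ) ≤ ⌊x⌋ := Int.floor_nonneg.2 hx
  have h4 : (((⌊x⌋ + 1 - 1).toNat : ℕ) : ℝ) ≤ x := by
    have : (((⌊x⌋ + 1 - 1).toNat : ℕ) : ℤ) = ⌊x⌋ := by
      rw [Int.toNat_of_nonneg (by omega)]
      ring
    have h5 : (((⌊x⌋ + 1 - 1).toNat : ℕ) : ℝ) = (⌊x⌋ : ℝ) := by exact_mod_cast this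
    rw [h5]
    exact Int.floor_le x
  exact le_trans (by exact_mod_cast h2) h4

theorem SS_le (B : Set ℤ) (κ ω : ℤ → ℤ) (c t : ℝ) {x : ℝ} (hx : 0 < x) : |SS B κ ω c t x| ≤ 1 * x := by
  rw [abs_of_nonneg (SS_nonneg B κ ω c t x), one_mul]
  exact ncard_int_le {n : ℤ | n ∈ B ∧ (n : ℝ) ≤ t * Real.exp (LW c (κ n) (ω n))} hx.le

/-- the difference is a sum over the values of `κ` -/
theorem SS_sub (B : Set ℤ) (κ ω : ℤ → ℤ) (c t : ℝ) {x : ℝ} (hx : 0 < x) : ∃ J : Finset ℤ,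
    (∀ k, k ∉ J → ff B κ ω c t x k = 0) ∧ SS B κ ω c t x - SS B κ ω c t (x / 3) = ∑ k ∈ J, ff B κ ω c t x k := by
  classical
  have hfin : {n : ℤ | 1 ≤ n ∧ (n : ℝ) ≤ x ∧ n ∈ B ∧ (n : ℝ) ≤ t * Real.exp (LW c (κ n) (ω n)) ∧ x / 3 < n}.Finite :=
    fin_set {n : ℤ | n ∈ B ∧ (n : ℝ) ≤ t * Real.exp (LW c (κ n) (ω n)) ∧ x / 3 < n} x
  have hfin2 : {n : ℤ | 1 ≤ n ∧ (n : ℝ) ≤ x / 3 ∧ n ∈ B ∧ (n : ℝ) ≤ t * Real.exp (LW c (κ n) (ω n))}.Finite :=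
    fin_set {n : ℤ | n ∈ B ∧ (n : ℝ) ≤ t * Real.exp (LW c (κ n) (ω n))} (x / 3)
  have key : {n : ℤ | 1 ≤ n ∧ (n : ℝ) ≤ x ∧ n ∈ B ∧ (n : ℝ) ≤ t * Real.exp (LW c (κ n) (ω n))} =
      {n : ℤ | 1 ≤ n ∧ (n : ℝ) ≤ x ∧ n ∈ B ∧ (n : ℝ) ≤ t * Real.exp (LW c (κ n) (ω n)) ∧ x / 3 < n} ∪
      {n : ℤ | 1 ≤ n ∧ (n : ℝ) ≤ x / 3 ∧ n ∈ B ∧ (n : ℝ) ≤ t * Real.exp (LW c (κ n) (ω n))} := by
    ext n
    rw [Set.mem_union]
    constructor
    · rintro ⟨h1, h2, h3, h4⟩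
      rcases lt_or_ge (x / 3) n with h | h
      · exact Or.inl ⟨h1, h2, h3, h4, h⟩
      · exact Or.inr ⟨h1, h, h3, h4⟩
    · rintro (⟨h1, h2, h3, h4, _⟩ | ⟨h1, h2, h3, h4⟩)
      · exact ⟨h1, h2, h3, h4⟩
      · exact ⟨h1, h2.trans (by linarith), h3, h4⟩
  have hdis : Disjoint {n : ℤ | 1 ≤ n ∧ (n : ℝ) ≤ x ∧ n ∈ B ∧ (n : ℝ) ≤ t * Real.exp (LW c (κ n) (ω n)) ∧ x / 3 < n}
      {n : ℤ | 1 ≤ n ∧ (n : ℝ) ≤ x / 3 ∧ n ∈ B ∧ (n : ℝ) ≤ t * Real.exp (LW c (κ n) (ω n))} := by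
    rw [Set.disjoint_left]
    rintro n ⟨_, _, _, _, h⟩ ⟨_, h', _⟩
    linarith
  refine ⟨hfin.toFinset.image κ, fun k hk => ?_, ?_⟩
  · unfold ff
    have : {n : ℤ | 1 ≤ n ∧ (n : ℝ) ≤ x ∧ n ∈ B ∧ κ n = k ∧ x / 3 < n ∧
        (n : ℝ) ≤ t * Real.exp (LW c (κ n) (ω n))} = ∅ := by
      rw [Set.eq_empty_iff_forall_notMem]
      rintro n ⟨h1, h2, h3, h4, h5, h6⟩
      apply hk
      rw [mem_image]
      refine ⟨n, ?_, h4⟩
      rw [Set.Finite.mem_toFinset]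
      exact ⟨h1, h2, h3, h6, h5⟩
    rw [this, Set.ncard_empty, Nat.cast_zero]
  · unfold SS
    rw [key, Set.ncard_union_eq hdis hfin hfin2, Nat.cast_add, add_sub_cancel_right,
      Set.ncard_eq_toFinset_card _ hfin, Finset.card_eq_sum_card_image κ]
    push_cast
    apply Finset.sum_congr rfl
    intro k _
    unfold ff
    rw [← Set.ncard_coe_finset]
    congr 2
    ext n
    rw [mem_coe, mem_filter, Set.Finite.mem_toFinset]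
    constructor
    · rintro ⟨⟨h1, h2, h3, h4, h5⟩, h6⟩
      exact ⟨h1, h2, h3, h6, h5, h4⟩
    · rintro ⟨h1, h2, h3, h4, h5, h6⟩
      exact ⟨⟨h1, h2, h3, h6, h5⟩, h4⟩

theorem ff_le (B : Set ℤ) (κ ω : ℤ → ℤ) (c t x : ℝ) (k : ℤ) : ff B κ ω c t x k ≤ CG PT B κ ω x k := by
  rw [CG_ncard]
  unfold ff
  have := Set.ncard_le_ncard (s := {n : ℤ | 1 ≤ n ∧ (n : ℝ) ≤ x ∧ n ∈ B ∧ κ n = k ∧ x / 3 < n ∧
      (n : ℝ) ≤ t * Real.exp (LW c (κ n) (ω n))}) (t := {n : ℤ | 1 ≤ n ∧ (n : ℝ) ≤ x ∧ n ∈ Lj PT B κ ω k}) (by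
    rintro n ⟨h1, h2, h3, h4, _⟩
    refine ⟨h1, h2, h3, ?_⟩
    show ((0 : ℕ) : ℤ) * ω n + ((1 : ℕ) : ℤ) * κ n = k
    push_cast
    omega) (fin_set (Lj PT B κ ω k) x)
  exact_mod_cast this

theorem ff_zero (B : Set ℤ) (κ ω : ℤ → ℤ) (c t : ℝ) {x : ℝ} (hx : x < 1) (k : ℤ) : ff B κ ω c t x k = 0 := by
  unfold ff
  have : {n : ℤ | 1 ≤ n ∧ (n : ℝ) ≤ x ∧ n ∈ B ∧ κ n = k ∧ x / 3 < n ∧
      (n : ℝ) ≤ t * Real.exp (LW c (κ n) (ω n))} = ∅ := by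
    rw [Set.eq_empty_iff_forall_notMem]
    rintro n ⟨h1, h2, _⟩
    have : (1 : ℝ) ≤ n := by exact_mod_cast h1
    linarith
  rw [this, Set.ncard_empty, Nat.cast_zero]

variable {P : Par} {B : Set ℤ} {κ ω : ℤ → ℤ} {c A₁ A₂ : ℝ} {Ψ Ψ₀ : ℝ → ℝ} {δ δ₀ : ℝ}

/-- the density -/
noncomputable def VV (U : ℝ → ℝ) (I : ℕ) (t : ℝ) : ℝ := 3 / 2 * ∫ θ in (0 : ℝ)..1, HH U I t θ

theorem VV_cont {U : ℝ → ℝ} (hU : Continuous U) (I : ℕ) : Continuous (VV U I) := by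
  unfold VV
  apply Continuous.mul continuous_const
  exact intervalIntegral.continuous_parametric_intervalIntegral_of_continuous' (f := fun t θ => HH U I t θ)
    (HH_cont hU I) 0 1

theorem neg_fract_int {H : ℝ → ℝ} (h : H 0 = H 1) :
    ∫ t in (0 : ℝ)..1, H (Int.fract (-t)) = ∫ t in (0 : ℝ)..1, H t := by
  have e1 : ∀ t : ℝ, H (Int.fract (-t)) = (fun s => H (Int.fract s)) (1 - t) := fun t => by
    simp only
    congr 1
    rw [sub_eq_add_neg, add_comm, Int.fract_add_one]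
  simp only [e1]
  rw [intervalIntegral.integral_comp_sub_left (fun s => H (Int.fract s)) 1, sub_self, sub_zero]
  apply intervalIntegral.integral_congr
  intro s hs
  rw [Set.uIcc_of_le zero_le_one] at hs
  simp only
  rcases eq_or_lt_of_le hs.2 with g | g
  · rw [g, Int.fract_one, h]
  · rw [Int.fract_eq_self.2 ⟨hs.1, g⟩]

theorem dens (Lw : Law (CG P B κ ω) (A0 P / lam) (2 * ww P ^ 2 / lam ^ 3) (kap P / ww P)
      (fun x => Real.log x / ww P) Ψ δ)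
    (Lw₀ : Law (CG PT B κ ω) (A0 PT / lam) (2 * ww PT ^ 2 / lam ^ 3) (kap PT / ww PT)
      (fun x => Real.log x / ww PT) Ψ₀ δ₀) (hS : Size B κ ω c A₁ A₂) (h1 : 2 * A₁ < ww P) (h2 : 2 * A₂ < ww P)
    (I : ℕ) (hI1 : A₁ ≤ I * Real.log 3) (hI2 : A₂ + Real.log 3 ≤ I * Real.log 3) (t : ℝ) :
    Tendsto (fun x : ℝ => SS B κ ω c t x / x) atTop (𝓝 (VV (UU P Ψ c) I t)) := by
  have h3 := log3_pos
  have em : A0 PT / lam = m0 := by rw [A0_PT]; rfl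
  have ev : 2 * ww PT ^ 2 / lam ^ 3 = v0 := by rw [ww_PT]; rfl
  obtain ⟨U, hU⟩ : ∃ U : ℝ → ℝ, U = UU P Ψ c := ⟨_, rfl⟩
  have hUc : Continuous U := by rw [hU]; exact UU_cont Lw.cont
  have hUm : Monotone U := by rw [hU]; exact UU_mono Lw hS h1 h2
  have hUl : ∀ t, t ≤ Real.exp (-A₁) → U t = 0 := fun t ht => by rw [hU]; exact UU_low Lw hS h1 h2 ht
  have hUh : ∀ t, Real.exp A₂ ≤ t → U t = U (Real.exp A₂) := fun t ht => by rw [hU]; exact UU_high Lw hS h1 h2 ht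
  have hper := HH_per hUl hUh hI1 hI2 t
  have hHc : Continuous fun u => HH U I t u := (HH_cont hUc I).comp (by fun_prop : Continuous fun u : ℝ => (t, u))
  have hfr : Continuous fun s : ℝ => HH U I t (Int.fract s) :=
    ContinuousOn.comp_fract'' (f := fun u => HH U I t u) hHc.continuousOn hper
  have hloc := ff_loc Lw hS h1 h2 I hI1 hI2
  rw [← hU] at hloc ⊢
  rw [em, ev] at Lw₀
  have hav := avg Lw₀ (f := fun x k => ff B κ ω c t x k) (fun x k => ff_nonneg B κ ω c t x k)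
    (fun x k => ff_le B κ ω c t x k) (Φ := fun s => HH U I t (Int.fract (-s))) (hfr.comp continuous_neg)
    (fun s => by
      rw [neg_add, ← sub_eq_add_neg, Int.fract_sub_one])
    (fun s => HH_nonneg hUm I t _) (θ' := fun x => (Real.log x - c) / Real.log 3) (fun K ε hK hε => by
      obtain ⟨X₀, hX0, h⟩ := hloc K ε hK hε
      refine ⟨X₀, hX0, fun x hx k hk => ?_⟩
      have e : -((Real.log x - c) / Real.log 3 - (k : ℝ) * (kap PT / ww PT)) = l0 c x k := by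
        rw [kap_PT, ww_PT]
        unfold l0
        field_simp
        ring
      rw [e]
      exact h x hx k hk t)
  have hint := neg_fract_int (H := fun u => HH U I t u) hper
  rw [hint] at hav
  unfold VV
  refine geo (C := 1) (fun x hx => SS_le B κ ω c t hx) fun ε hε => ?_
  obtain ⟨X₀, hX0, h⟩ := hav ε hε
  refine ⟨X₀, fun x hx => ?_⟩
  obtain ⟨J, hJ1, hJ2⟩ := SS_sub B κ ω c t (x := x) (by linarith)
  rw [hJ2]
  exact h x hx J hJ1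

end Pool.Agent.L7h55.GC
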