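import Pool.Agent.R468.MF.Tup

/-!
Averages of powers: from a local approximation in the window to the sum of all counts.
-/

set_option autoImplicit false

namespace Pool.Agent.L7h55.GC

open Finset Filter Topology
open Pool.Agent.R468.MF

/-- if `0 ≤ f x k ≤ (N x k) ^ r`, `N` follows a local law with the uniform bound, and `f x k` is
`(x g (x, k)) ^ r (Φ + o(1))` in all windows, with `Φ` continuous and periodic, then the sum of the `f x k` is asymptotic to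
`x ^ r / (√r sd (x) ^ (r - 1)) ∫ Φ` -/
theorem avg_pow {N : ℝ → ℤ → ℝ} {μ v α : ℝ} {θ : ℝ → ℝ} {Ψ : ℝ → ℝ} {δ : ℝ} (L : Law N μ v α θ Ψ δ) {A : ℝ} (hA : 0 < A)
    (hu : ∀ x : ℝ, 2 ≤ x → ∀ j : ℤ, N x j ≤ A * x / Real.sqrt (Real.log x)) (r : ℕ) (hr : 1 ≤ r)
    {f : ℝ → ℤ → ℝ} (h0 : ∀ x k, 0 ≤ f x k) (h1 : ∀ x k, f x k ≤ N x k ^ r) {Φ : ℝ → ℝ} (hc : Continuous Φ)
    (hp : ∀ t, Φ (t + 1) = Φ t) (hΦ : ∀ t, 0 ≤ Φ t) {θ' : ℝ → ℝ}
    (hloc : ∀ K ε : ℝ, 0 < K → 0 < ε → ∃ X₀ : ℝ, 2 ≤ X₀ ∧ ∀ x : ℝ, X₀ ≤ x → ∀ j : ℤ,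
      |(j : ℝ) - μ * Real.log x| ≤ K * Real.sqrt (Real.log x) →
      |f x j / (x * gn μ v x j) ^ r - Φ (θ' x - j * α)| ≤ ε) :
    ∀ ε : ℝ, 0 < ε → ∃ X₀ : ℝ, 2 ≤ X₀ ∧ ∀ x : ℝ, X₀ ≤ x → ∀ J : Finset ℤ, (∀ k, k ∉ J → f x k = 0) →
      |sd v x ^ (r - 1) / x ^ r * ∑ k ∈ J, f x k - 1 / Real.sqrt r * ∫ t in (0 : ℝ)..1, Φ t| ≤ ε := by
  intro ε hε
  have hv := L.v_pos
  set c0 : ℝ := Real.sqrt (2 * Real.pi * v) with hc0
  have hc0p : 0 < c0 := Real.sqrt_pos.2 (by have := Real.pi_pos; positivity)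
  set B : ℝ := (A * c0) ^ (r - 1) with hB
  have hB0 : 0 < B := by positivity
  have hr0 : (0 : ℝ) < r := by exact_mod_cast hr
  obtain ⟨K₁, hK₁, X₁, hX1, g1⟩ := win_sum (μ := μ) L.irr hc hp hΦ hv r hr (ε / 3) (by positivity)
  obtain ⟨K₂, hK₂, X₂, hX2, g2⟩ := mass_out L (ε / (3 * B)) (by positivity)
  obtain ⟨K, hK⟩ : ∃ K : ℝ, K = max K₁ K₂ := ⟨_, rfl⟩
  have hKK1 : K₁ ≤ K := by rw [hK]; exact le_max_left _ _
  have hKK2 : K₂ ≤ K := by rw [hK]; exact le_max_right _ _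
  have hK0 : 0 < K := hK₁.trans_le hKK1
  obtain ⟨X₃, hX3, g3⟩ := hloc K (ε / 6) hK0 (by positivity)
  obtain ⟨X₄, hX4, g4⟩ := full_sum (Φ := fun _ => 1) L.irr continuous_const (fun _ => rfl) (μ := μ) hv r hr 1 one_pos
  refine ⟨max (max X₁ X₂) (max X₃ X₄), le_max_of_le_left (le_max_of_le_left hX1), fun x hx J hJ => ?_⟩
  have hx1 : X₁ ≤ x := ((le_max_left _ _).trans (le_max_left _ _)).trans hx
  have hx2 : X₂ ≤ x := ((le_max_right _ _).trans (le_max_left _ _)).trans hx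
  have hx3 : X₃ ≤ x := ((le_max_left _ _).trans (le_max_right _ _)).trans hx
  have hx4 : X₄ ≤ x := ((le_max_right _ _).trans (le_max_right _ _)).trans hx
  have hxx : 2 ≤ x := hX1.trans hx1
  have hx0 : 0 < x := by linarith
  have hl : 0 < Real.log x := Real.log_pos (by linarith)
  have hs := sd_pos hv hl
  have hsl : 0 < Real.sqrt (Real.log x) := Real.sqrt_pos.2 hl
  have hsd : sd v x = c0 * Real.sqrt (Real.log x) := by
    unfold sd
    rw [hc0, ← Real.sqrt_mul (by have := Real.pi_pos; positivity)]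
    congr 1
    ring
  obtain ⟨W, hW⟩ : ∃ W : Finset ℤ, W = win μ K x := ⟨_, rfl⟩
  -- the split
  have e1 : ∑ k ∈ J, f x k = ∑ k ∈ W, f x k + ∑ k ∈ J \ W, f x k := by
    rw [← Finset.sum_union Finset.disjoint_sdiff]
    apply Finset.sum_subset
    · intro k hk
      rw [Finset.mem_union, Finset.mem_sdiff]
      by_cases h : k ∈ W
      · exact Or.inl h
      · exact Or.inr ⟨hk, h⟩
    · intro k _ hk
      exact hJ k hk
  -- outside
  have a1 : sd v x ^ (r - 1) / x ^ r * ∑ j ∈ J \ W, f x j ≤ ε / 3 := by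
    have b1 : ∀ j ∈ J \ W, sd v x ^ (r - 1) / x ^ r * f x j ≤ B / x * N x j := by
      intro j _
      have c1 := hu x hxx j
      have c2 : N x j ^ (r - 1) ≤ (A * x / Real.sqrt (Real.log x)) ^ (r - 1) := pow_le_pow_left₀ (L.nonneg x j) c1 _
      have c3 : N x j ^ r = N x j ^ (r - 1) * N x j := by
        rw [← pow_succ]; congr 1; omega
      have c4 : x ^ r = x ^ (r - 1) * x := by
        rw [← pow_succ]; congr 1; omega
      have c5 : sd v x ^ (r - 1) / x ^ r * ((A * x / Real.sqrt (Real.log x)) ^ (r - 1) * N x j) = B / x * N x j := by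
        rw [hsd, hB, c4, div_pow, mul_pow, mul_pow, mul_pow]
        field_simp
      rw [← c5]
      apply mul_le_mul_of_nonneg_left _ (by positivity)
      refine (h1 x j).trans ?_
      rw [c3]
      exact mul_le_mul_of_nonneg_right c2 (L.nonneg x j)
    have b2 := Finset.sum_le_sum b1
    rw [← Finset.mul_sum, ← Finset.mul_sum] at b2
    have b3 := g2 x hx2 (J \ W) (fun j hj => by
      have := (Finset.mem_sdiff.1 hj).2
      rw [hW, mem_win] at this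
      exact lt_of_le_of_lt (mul_le_mul_of_nonneg_right hKK2 (Real.sqrt_nonneg _)) (lt_of_not_ge this))
    refine b2.trans ((mul_le_mul_of_nonneg_left b3 (by positivity)).trans (le_of_eq ?_))
    field_simp
  have a1' : 0 ≤ sd v x ^ (r - 1) / x ^ r * ∑ j ∈ J \ W, f x j :=
    mul_nonneg (by positivity) (Finset.sum_nonneg fun j _ => h0 x j)
  -- inside
  have a2 : |sd v x ^ (r - 1) / x ^ r * ∑ j ∈ W, f x j -
      ∑ j ∈ W, sd v x ^ (r - 1) * gn μ v x j ^ r * Φ (θ' x - j * α)| ≤ ε / 3 := by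
    have b1 : ∀ j ∈ W, |sd v x ^ (r - 1) / x ^ r * f x j -
        sd v x ^ (r - 1) * gn μ v x j ^ r * Φ (θ' x - j * α)| ≤
        sd v x ^ (r - 1) * gn μ v x j ^ r * (ε / 6) := by
      intro j hj
      rw [hW, mem_win] at hj
      have c1 := g3 x hx3 j hj
      have c2 := gn_pos (μ := μ) hv hl j
      have c3 : sd v x ^ (r - 1) / x ^ r * f x j = sd v x ^ (r - 1) * gn μ v x j ^ r * (f x j / (x * gn μ v x j) ^ r) := by
        rw [mul_pow]
        field_simp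
      rw [c3, ← mul_sub, abs_mul, abs_of_nonneg (mul_nonneg (pow_nonneg hs.le _) (pow_nonneg c2.le _))]
      exact mul_le_mul_of_nonneg_left c1 (mul_nonneg (pow_nonneg hs.le _) (pow_nonneg c2.le _))
    obtain ⟨hs4, a2⟩ := g4 x hx4 (θ' x)
    simp only [mul_one, intervalIntegral.integral_const, sub_zero, smul_eq_mul] at a2 hs4
    have a3 : ∑ j ∈ W, sd v x ^ (r - 1) * gn μ v x j ^ r ≤ 2 := by
      have d1 := hs4.sum_le_tsum W (fun j _ =>
        mul_nonneg (pow_nonneg hs.le _) (pow_nonneg (gn_pos hv hl j).le _))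
      have d2 : 1 / Real.sqrt r ≤ 1 := by
        rw [div_le_one (Real.sqrt_pos.2 hr0)]
        exact Real.one_le_sqrt.2 (by exact_mod_cast hr)
      linarith [(abs_le.1 a2).2]
    rw [Finset.mul_sum, ← Finset.sum_sub_distrib]
    refine (Finset.abs_sum_le_sum_abs _ _).trans ((Finset.sum_le_sum b1).trans ?_)
    rw [← Finset.sum_mul]
    calc (∑ j ∈ W, sd v x ^ (r - 1) * gn μ v x j ^ r) * (ε / 6) ≤ 2 * (ε / 6) :=
          mul_le_mul_of_nonneg_right a3 (by positivity)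
      _ = ε / 3 := by ring
  have a3 := g1 x hx1 K hKK1 (θ' x)
  rw [← hW] at a3
  rw [e1, mul_add]
  rw [abs_le] at a2 a3 ⊢
  constructor <;> linarith [a2.1, a2.2, a3.1, a3.2]

end Pool.Agent.L7h55.GC
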