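import Pool.Agent.L7h55.GC.Dens
import Pool.Agent.L7h55.GC.Eq1

/-!
The counts in all cells of a column: approximation by the profile in the sum norm.
-/

set_option autoImplicit false

namespace Pool.Agent.L7h55.GC

open Finset Filter Topology
open Pool.Agent.R468.GL
open Pool.Agent.R468.MF
open Pool.Agent.R468.MG
open Pool.Agent.R468.LL (lam lam_eq lam_pos lam_lt)

variable {P : Par} {B : Set ℤ} {κ ω : ℤ → ℤ} {c A₁ A₂ : ℝ} {Ψ Ψ₀ : ℝ → ℝ} {δ δ₀ : ℝ}

/-- the profile on the logarithmic scale -/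
noncomputable def pf (U : ℝ → ℝ) (u : ℝ) : ℝ := Real.exp (u * Real.log 3) * U (Real.exp (-(u * Real.log 3)))

theorem pf_cont {U : ℝ → ℝ} (hU : Continuous U) : Continuous (pf U) := by
  unfold pf
  fun_prop

theorem near_term (Lw : Law (CG P B κ ω) (A0 P / lam) (2 * ww P ^ 2 / lam ^ 3) (kap P / ww P)
      (fun x => Real.log x / ww P) Ψ δ) (hS : Size B κ ω c A₁ A₂) (h1 : 2 * A₁ < ww P) (h2 : 2 * A₂ < ww P) :
    ∀ K C ε : ℝ, 0 < K → 0 ≤ C → 0 < ε → ∃ X₀ : ℝ, 2 ≤ X₀ ∧ ∀ x : ℝ, X₀ ≤ x → ∀ k : ℤ,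
      |(k : ℝ) - m0 * Real.log x| ≤ K * √(Real.log x) → ∀ l : ℤ, |(l0 c x k - l) * Real.log 3| ≤ C →
      |cell B κ ω k l x / (x * gn m0 v0 x k) - pf (UU P Ψ c) (l0 c x k - l)| ≤ ε := by
  intro K C ε hK hC0 hε
  have h3 := log3_pos
  have hm := m0_pos
  obtain ⟨U, hU⟩ : ∃ U : ℝ → ℝ, U = UU P Ψ c := ⟨_, rfl⟩
  have hUm : Monotone U := by rw [hU]; exact UU_mono Lw hS h1 h2
  have hUl : ∀ t, t ≤ Real.exp (-A₁) → U t = 0 := fun t ht => by rw [hU]; exact UU_low Lw hS h1 h2 ht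
  have hUh : ∀ t, Real.exp A₂ ≤ t → U t = U (Real.exp A₂) := fun t ht => by rw [hU]; exact UU_high Lw hS h1 h2 ht
  obtain ⟨M, hM⟩ : ∃ M : ℝ, M = U (Real.exp A₂) := ⟨_, rfl⟩
  have hU0 : ∀ t, 0 ≤ U t := fun t => by
    rcases le_total t (Real.exp (-A₁)) with h | h
    · rw [hUl t h]
    · rw [← hUl _ (le_refl (Real.exp (-A₁)))]
      exact hUm h
  have hUM : ∀ t, U t ≤ M := fun t => by
    rw [hM]
    rcases le_total t (Real.exp A₂) with h | h
    · exact hUm h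
    · exact (hUh t h).le
  have hM0 : 0 ≤ M := (hU0 0).trans (hUM 0)
  obtain ⟨Y, hY⟩ : ∃ Y : ℝ, Y = Real.exp C := ⟨_, rfl⟩
  have hY0 : 0 < Y := by rw [hY]; exact Real.exp_pos _
  obtain ⟨ε₁, hε₁⟩ : ∃ e : ℝ, e = min 1 (ε / (Y * (2 * M + 3))) := ⟨_, rfl⟩
  have hε₁0 : 0 < ε₁ := by rw [hε₁]; positivity
  have hε₁1 : ε₁ ≤ 1 := by rw [hε₁]; exact min_le_left _ _
  have hε₁2 : Y * (2 * M + 3) * ε₁ ≤ ε := by
    have : ε₁ ≤ ε / (Y * (2 * M + 3)) := by rw [hε₁]; exact min_le_right _ _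
    rw [le_div_iff₀ (by positivity)] at this
    linarith
  obtain ⟨L₁, hL₁, hcl⟩ := cell_law Lw hS h1 h2 (K := 2 * (K + m0 * C)) (by positivity) hε₁0
  obtain ⟨L₂, hL₂, hgn⟩ := gn_near hK.le hC0 hε₁0
  refine ⟨max 2 (Real.exp (L₁ + L₂ + 2 * C)), le_max_left _ _, fun x hx k hk l hu1 => ?_⟩
  have hx2 : 2 ≤ x := (le_max_left _ _).trans hx
  have hx0 : 0 < x := by linarith
  have hL : L₁ + L₂ + 2 * C ≤ Real.log x := by
    rw [Real.le_log_iff_exp_le hx0]
    exact (le_max_right _ _).trans hx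
  have hlx : 0 < Real.log x := by linarith
  obtain ⟨g, hg⟩ : ∃ g : ℝ, g = gn m0 v0 x k := ⟨_, rfl⟩
  have hg0 : 0 < g := by rw [hg]; exact gn_pos v0_pos hlx k
  rw [← hg, ← hU]
  have hr1 : 1 ≤ √(Real.log x) := by rw [← Real.sqrt_one]; exact Real.sqrt_le_sqrt (by linarith)
  obtain ⟨u, hu⟩ : ∃ u : ℝ, u = l0 c x k - l := ⟨_, rfl⟩
  rw [← hu] at hu1 ⊢
  have hLW : LW c k l = Real.log x + u * Real.log 3 := by rw [LW_l0 c x, hu]
  have hu1' := abs_le.1 hu1
  obtain ⟨W, hW⟩ : ∃ W : ℝ, W = Real.exp (LW c k l) := ⟨_, rfl⟩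
  have hW0 : 0 < W := by rw [hW]; exact Real.exp_pos _
  have hWx : W = x * Real.exp (u * Real.log 3) := by
    rw [hW, hLW, Real.exp_add, Real.exp_log hx0]
  have hlW : Real.log W = LW c k l := by rw [hW, Real.log_exp]
  have e1 : x = Real.exp (-(u * Real.log 3)) * W := by
    rw [hWx, mul_comm x, ← mul_assoc, ← Real.exp_add, neg_add_cancel, Real.exp_zero, one_mul]
  have hk' : |(k : ℝ) - m0 * LW c k l| ≤ 2 * (K + m0 * C) * √(LW c k l) := by
    have h5 : (k : ℝ) - m0 * LW c k l = (k - m0 * Real.log x) + -(m0 * (u * Real.log 3)) := by rw [hLW]; ring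
    have h6 : |(-(m0 * (u * Real.log 3)))| ≤ m0 * C := by
      rw [abs_neg, abs_mul, abs_of_pos hm]
      exact mul_le_mul_of_nonneg_left hu1 hm.le
    have h7 : √(Real.log x) / 2 ≤ √(LW c k l) := by
      apply Real.le_sqrt_of_sq_le
      rw [div_pow, Real.sq_sqrt hlx.le, hLW]
      linarith
    have h8 : m0 * C ≤ m0 * C * √(Real.log x) := le_mul_of_one_le_right (by positivity) hr1
    calc _ ≤ |(k : ℝ) - m0 * Real.log x| + |(-(m0 * (u * Real.log 3)))| := by rw [h5]; exact abs_add_le _ _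
      _ ≤ K * √(Real.log x) + m0 * C * √(Real.log x) := by linarith
      _ = 2 * (K + m0 * C) * (√(Real.log x) / 2) := by ring
      _ ≤ _ := mul_le_mul_of_nonneg_left h7 (by positivity)
  have hLL : L₁ ≤ LW c k l := by rw [hLW]; linarith
  have b1 := hcl k l hLL hk' (Real.exp (-(u * Real.log 3)))
  rw [← hU, ← hW, ← e1] at b1
  obtain ⟨E, hE, hgE⟩ := hgn x W k (by linarith) hk (by rw [hlW, hLW]; simpa using hu1)
  rw [← hg] at hgE
  rw [hgE] at b1
  unfold pf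
  generalize hU1 : U (Real.exp (-(u * Real.log 3))) = U1 at b1 ⊢
  generalize cell B κ ω k l x = c1 at b1 ⊢
  have u1 : U1 ≤ M := by rw [← hU1]; exact hUM _
  have u3 : 0 ≤ U1 := by rw [← hU1]; exact hU0 _
  obtain ⟨R, hR⟩ : ∃ R : ℝ, R = c1 / (W * (Real.exp E * g)) := ⟨_, rfl⟩
  rw [← hR] at b1
  have r2 : |R| ≤ M + 1 := by
    rw [abs_le] at b1 ⊢
    constructor <;> linarith [b1.1, b1.2]
  have r3 : |Real.exp E - 1| ≤ 2 * ε₁ := by
    have := Real.abs_exp_sub_one_le (hE.trans hε₁1)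
    linarith
  have r4 : c1 / (x * g) - Real.exp (u * Real.log 3) * U1 =
      Real.exp (u * Real.log 3) * ((Real.exp E - 1) * R + (R - U1)) := by
    rw [hR, hWx]
    have := Real.exp_pos (u * Real.log 3)
    have := Real.exp_pos E
    field_simp
    ring
  rw [r4, abs_mul, abs_of_pos (Real.exp_pos _)]
  have r5 : Real.exp (u * Real.log 3) ≤ Y := by
    rw [hY]
    exact Real.exp_le_exp.2 hu1'.2
  have r6 : |(Real.exp E - 1) * R + (R - U1)| ≤ (2 * M + 3) * ε₁ := by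
    have q1 := abs_add_le ((Real.exp E - 1) * R) (R - U1)
    have q2 : |(Real.exp E - 1) * R| ≤ 2 * ε₁ * (M + 1) := by
      rw [abs_mul]
      exact mul_le_mul r3 r2 (abs_nonneg _) (by positivity)
    linarith
  calc _ ≤ Y * ((2 * M + 3) * ε₁) := mul_le_mul r5 r6 (abs_nonneg _) hY0.le
    _ = Y * (2 * M + 3) * ε₁ := by ring
    _ ≤ ε := hε₁2

/-- the cells of a column far below -/
theorem cells_le (hS : Size B κ ω c A₁ A₂) {x : ℝ} (hx : 0 < x) (k : ℤ) (D : ℝ) (J : Finset ℤ)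
    (hJ : ∀ l ∈ J, l0 c x k - l ≤ -D) :
    ∑ l ∈ J, cell B κ ω k l x ≤ CG PT B κ ω (Real.exp (A₂ - D * Real.log 3) * x) k := by
  classical
  have h3 := log3_pos
  rw [CG_ncard]
  have hfin : {n : ℤ | 1 ≤ n ∧ (n : ℝ) ≤ Real.exp (A₂ - D * Real.log 3) * x ∧ n ∈ Lj PT B κ ω k}.Finite := fin_set _ _
  have e : ∀ l ∈ J, cell B κ ω k l x = ((hfin.toFinset.filter fun n : ℤ => (n : ℝ) ≤ x ∧ ω n = l).card : ℝ) := by
    intro l hl
    unfold cell
    rw [← Set.ncard_coe_finset]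
    congr 2
    ext n
    rw [mem_coe, mem_filter, Set.Finite.mem_toFinset]
    constructor
    · rintro ⟨g1, g2, g3, g4, g5⟩
      refine ⟨⟨g1, ?_, g3, ?_⟩, g2, g5⟩
      · have hn : (0 : ℝ) < n := by exact_mod_cast (by omega : 0 < n)
        have g6 := (hS n g3 g1).2
        rw [g4, g5, LW_l0 c x] at g6
        have g7 := mul_le_mul_of_nonneg_right (hJ l hl) h3.le
        rw [← Real.log_le_log_iff hn (by positivity), Real.log_mul (Real.exp_pos _).ne' hx.ne', Real.log_exp]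
        linarith
      · show ((0 : ℕ) : ℤ) * ω n + ((1 : ℕ) : ℤ) * κ n = k
        push_cast
        omega
    · rintro ⟨⟨g1, g2, g3, g4⟩, g5, g6⟩
      have g4' : ((0 : ℕ) : ℤ) * ω n + ((1 : ℕ) : ℤ) * κ n = k := g4
      push_cast at g4'
      exact ⟨g1, g5, g3, by omega, g6⟩
  rw [Finset.sum_congr rfl e, Set.ncard_eq_toFinset_card _ hfin]
  rw [← Nat.cast_sum, ← Finset.card_biUnion]
  · apply Nat.cast_le.2
    apply Finset.card_le_card
    intro n hn
    rw [Finset.mem_biUnion] at hn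
    obtain ⟨l, _, hl⟩ := hn
    exact (mem_filter.1 hl).1
  · intro l _ l' _ hll
    show Disjoint _ _
    rw [Finset.disjoint_left]
    intro n g1 g2
    exact hll ((mem_filter.1 g1).2.2.symm.trans (mem_filter.1 g2).2.2)

/-- the cells of a column far below have few elements -/
theorem tail_cells (Lw₀ : Law (CG PT B κ ω) m0 v0 (kap PT / ww PT) (fun x => Real.log x / ww PT) Ψ₀ δ₀)
    (hS : Size B κ ω c A₁ A₂) :
    ∀ K η : ℝ, 0 < K → 0 < η → ∃ D₀ : ℝ, 0 ≤ D₀ ∧ ∀ D : ℝ, D₀ ≤ D → ∃ X₀ : ℝ, 2 ≤ X₀ ∧ ∀ x : ℝ, X₀ ≤ x → ∀ k : ℤ,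
      |(k : ℝ) - m0 * Real.log x| ≤ K * √(Real.log x) → ∀ J : Finset ℤ, (∀ l ∈ J, l0 c x k - l ≤ -D) →
      ∑ l ∈ J, cell B κ ω k l x ≤ η * (x * gn m0 v0 x k) := by
  intro K η hK hη
  have h3 := log3_pos
  have hm := m0_pos
  obtain ⟨t₀, ht₀⟩ := per_bound Lw₀.cont Lw₀.per
  have hM := Lw₀.psi_nonneg t₀
  obtain ⟨M, hMdef⟩ : ∃ M : ℝ, M = Ψ₀ t₀ + 1 := ⟨_, rfl⟩
  have hM0 : 0 < M := by rw [hMdef]; linarith
  -- `3 M exp (A₂ - D log 3) ≤ η`
  obtain ⟨D₀, hD₀⟩ : ∃ D₀ : ℝ, D₀ = max 0 ((A₂ - Real.log (η / (3 * M))) / Real.log 3) := ⟨_, rfl⟩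
  refine ⟨D₀, by rw [hD₀]; exact le_max_left _ _, fun D hD => ?_⟩
  have hD1 : A₂ - D * Real.log 3 ≤ Real.log (η / (3 * M)) := by
    have : (A₂ - Real.log (η / (3 * M))) / Real.log 3 ≤ D := by
      refine le_trans ?_ hD
      rw [hD₀]
      exact le_max_right _ _
    rw [div_le_iff₀ h3] at this
    linarith
  have hD2 : Real.exp (A₂ - D * Real.log 3) * (3 * M) ≤ η := by
    have := Real.exp_le_exp.2 hD1
    rw [Real.exp_log (by positivity)] at this
    rw [le_div_iff₀ (by positivity)] at this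
    exact this
  obtain ⟨C, hC⟩ : ∃ C : ℝ, C = |A₂ - D * Real.log 3| := ⟨_, rfl⟩
  have hC0 : 0 ≤ C := by rw [hC]; exact abs_nonneg _
  obtain ⟨X₁, hX1, hloc⟩ := Lw₀.loc (2 * (K + m0 * C)) 1 one_pos
  obtain ⟨L₂, hL₂, hgn⟩ := gn_near hK.le hC0 one_pos
  refine ⟨max 2 (Real.exp (Real.log X₁ + L₂ + 2 * C)), le_max_left _ _, fun x hx k hk J hJ => ?_⟩
  have hx2 : 2 ≤ x := (le_max_left _ _).trans hx
  have hx0 : 0 < x := by linarith
  have hlX : 0 ≤ Real.log X₁ := Real.log_nonneg (by linarith)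
  have hL : Real.log X₁ + L₂ + 2 * C ≤ Real.log x := by
    rw [Real.le_log_iff_exp_le hx0]
    exact (le_max_right _ _).trans hx
  have hlx : 0 < Real.log x := by linarith
  obtain ⟨g, hg⟩ : ∃ g : ℝ, g = gn m0 v0 x k := ⟨_, rfl⟩
  have hg0 : 0 < g := by rw [hg]; exact gn_pos v0_pos hlx k
  rw [← hg]
  have hr1 : 1 ≤ √(Real.log x) := by rw [← Real.sqrt_one]; exact Real.sqrt_le_sqrt (by linarith)
  obtain ⟨y, hy⟩ : ∃ y : ℝ, y = Real.exp (A₂ - D * Real.log 3) * x := ⟨_, rfl⟩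
  have hy0 : 0 < y := by rw [hy]; positivity
  have hly : Real.log y = Real.log x + (A₂ - D * Real.log 3) := by
    rw [hy, Real.log_mul (Real.exp_pos _).ne' hx0.ne', Real.log_exp]
    ring
  have hab : |A₂ - D * Real.log 3| ≤ C := hC.symm.le
  have hab' := abs_le.1 hab
  have hyX : X₁ ≤ y := by
    rw [← Real.log_le_log_iff (by linarith) hy0, hly]
    linarith
  have hk' : |(k : ℝ) - m0 * Real.log y| ≤ 2 * (K + m0 * C) * √(Real.log y) := by
    have h5 : (k : ℝ) - m0 * Real.log y = (k - m0 * Real.log x) + -(m0 * (A₂ - D * Real.log 3)) := by rw [hly]; ring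
    have h6 : |(-(m0 * (A₂ - D * Real.log 3)))| ≤ m0 * C := by
      rw [abs_neg, abs_mul, abs_of_pos hm]
      exact mul_le_mul_of_nonneg_left hab hm.le
    have h7 : √(Real.log x) / 2 ≤ √(Real.log y) := by
      apply Real.le_sqrt_of_sq_le
      rw [div_pow, Real.sq_sqrt hlx.le, hly]
      linarith
    have h8 : m0 * C ≤ m0 * C * √(Real.log x) := le_mul_of_one_le_right (by positivity) hr1
    calc _ ≤ |(k : ℝ) - m0 * Real.log x| + |(-(m0 * (A₂ - D * Real.log 3)))| := by rw [h5]; exact abs_add_le _ _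
      _ ≤ K * √(Real.log x) + m0 * C * √(Real.log x) := by linarith
      _ = 2 * (K + m0 * C) * (√(Real.log x) / 2) := by ring
      _ ≤ _ := mul_le_mul_of_nonneg_left h7 (by positivity)
  have b1 := hloc y hyX k hk'
  have b2 := ht₀ (Real.log y / ww PT - k * (kap PT / ww PT))
  obtain ⟨E, hE, hgE⟩ := hgn x y k (by linarith) hk (by rw [hly]; simpa using hab)
  rw [← hg] at hgE
  rw [hgE] at b1
  have hE3 : Real.exp E ≤ 3 := by
    have := Real.exp_le_exp.2 (abs_le.1 hE).2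
    have h9 := Real.exp_one_lt_d9
    linarith
  have b3 : CG PT B κ ω y k ≤ M * (y * (Real.exp E * g)) := by
    have q1 : CG PT B κ ω y k / (y * (Real.exp E * g)) ≤ M := by
      have := (abs_le.1 b1).2
      rw [hMdef]
      linarith
    rwa [div_le_iff₀ (by have := Real.exp_pos E; positivity)] at q1
  have b4 := cells_le hS hx0 k D J hJ
  rw [← hy] at b4
  refine b4.trans (b3.trans ?_)
  calc M * (y * (Real.exp E * g)) ≤ M * (y * (3 * g)) := by
        apply mul_le_mul_of_nonneg_left _ hM0.le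
        apply mul_le_mul_of_nonneg_left _ hy0.le
        exact mul_le_mul_of_nonneg_right hE3 hg0.le
    _ = Real.exp (A₂ - D * Real.log 3) * (3 * M) * (x * g) := by rw [hy]; ring
    _ ≤ η * (x * g) := mul_le_mul_of_nonneg_right hD2 (by positivity)

/-- a geometric sum -/
theorem geo_sum (a D : ℝ) (J : Finset ℤ) (hJ : ∀ l ∈ J, a - l ≤ -D) :
    ∑ l ∈ J, Real.exp ((a - l) * Real.log 3) ≤ 3 / 2 * Real.exp (-(D * Real.log 3)) := by
  classical
  have h3 := log3_pos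
  have hs : Summable fun i : ℕ => (1 / 3 : ℝ) ^ i := summable_geometric_of_lt_one (by norm_num) (by norm_num)
  have ht : ∑' i : ℕ, (1 / 3 : ℝ) ^ i = 3 / 2 := by
    rw [tsum_geometric_of_lt_one (by norm_num) (by norm_num)]
    norm_num
  obtain ⟨m, hm⟩ : ∃ m : ℤ, m = ⌈a + D⌉ := ⟨_, rfl⟩
  have hm1 : a + D ≤ m := by rw [hm]; exact Int.le_ceil _
  have hml : ∀ l ∈ J, m ≤ l := by
    intro l hl
    rw [hm, Int.ceil_le]
    linarith [hJ l hl]
  have hinj : Set.InjOn (fun l : ℤ => (l - m).toNat) J := by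
    intro l hl l' hl' h
    have h1 := hml l hl
    have h2 := hml l' hl'
    simp only at h
    omega
  have e : ∀ l ∈ J, Real.exp ((a - l) * Real.log 3) ≤ Real.exp (-(D * Real.log 3)) * (1 / 3 : ℝ) ^ (l - m).toNat := by
    intro l hl
    have h1 := hml l hl
    have h2 : (((l - m).toNat : ℕ) : ℝ) = l - m := by
      have : (((l - m).toNat : ℕ) : ℤ) = l - m := Int.toNat_of_nonneg (by omega)
      exact_mod_cast this
    have h4 : (1 / 3 : ℝ) ^ (l - m).toNat = Real.exp (-((l - m) * Real.log 3)) := by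
      rw [← h2, one_div, inv_pow, Real.exp_neg, mul_comm, Real.exp_mul, Real.exp_log (by norm_num),
        Real.rpow_natCast]
    rw [h4, ← Real.exp_add]
    apply Real.exp_le_exp.2
    nlinarith
  calc ∑ l ∈ J, Real.exp ((a - l) * Real.log 3)
      ≤ ∑ l ∈ J, Real.exp (-(D * Real.log 3)) * (1 / 3 : ℝ) ^ (l - m).toNat := Finset.sum_le_sum e
    _ = Real.exp (-(D * Real.log 3)) * ∑ i ∈ J.image (fun l : ℤ => (l - m).toNat), (1 / 3 : ℝ) ^ i := by
        rw [← Finset.mul_sum, Finset.sum_image hinj]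
    _ ≤ Real.exp (-(D * Real.log 3)) * (3 / 2) := by
        apply mul_le_mul_of_nonneg_left _ (Real.exp_pos _).le
        rw [← ht]
        exact hs.sum_le_tsum _ (fun i _ => by positivity)
    _ = _ := by ring

theorem card_mid (a : ℝ) {D : ℕ} (J : Finset ℤ) (hJ : ∀ l ∈ J, -(D : ℝ) < a - l ∧ a - l ≤ D) :
    (J.card : ℝ) ≤ 2 * D + 1 := by
  have h1 : J ⊆ Icc (⌈a⌉ - D) (⌊a⌋ + D) := by
    intro l hl
    obtain ⟨g1, g2⟩ := hJ l hl
    rw [mem_Icc]
    constructor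
    · have : a ≤ ((l + D : ℤ) : ℝ) := by push_cast; linarith
      have := Int.ceil_le.2 this
      omega
    · have : ((l - D : ℤ) : ℝ) ≤ a := by push_cast; linarith
      have := Int.le_floor.2 this
      omega
  have h2 := Finset.card_le_card h1
  rw [Int.card_Icc] at h2
  have h4 : ⌊a⌋ ≤ ⌈a⌉ := Int.floor_le_ceil a
  have h5 : J.card ≤ 2 * D + 1 := by omega
  exact_mod_cast h5

/-- **the approximation of the column in the sum norm** -/
theorem l1_loc (Lw : Law (CG P B κ ω) (A0 P / lam) (2 * ww P ^ 2 / lam ^ 3) (kap P / ww P)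
      (fun x => Real.log x / ww P) Ψ δ)
    (Lw₀ : Law (CG PT B κ ω) m0 v0 (kap PT / ww PT) (fun x => Real.log x / ww PT) Ψ₀ δ₀)
    (hS : Size B κ ω c A₁ A₂) (h1 : 2 * A₁ < ww P) (h2 : 2 * A₂ < ww P) :
    ∀ K ε : ℝ, 0 < K → 0 < ε → ∃ X₀ : ℝ, 2 ≤ X₀ ∧ ∀ x : ℝ, X₀ ≤ x → ∀ k : ℤ,
      |(k : ℝ) - m0 * Real.log x| ≤ K * √(Real.log x) → ∀ J : Finset ℤ,
      ∑ l ∈ J, |cell B κ ω k l x / (x * gn m0 v0 x k) - pf (UU P Ψ c) (l0 c x k - l)| ≤ ε := by
  classical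
  intro K ε hK hε
  have h3 := log3_pos
  obtain ⟨U, hU⟩ : ∃ U : ℝ → ℝ, U = UU P Ψ c := ⟨_, rfl⟩
  have hUm : Monotone U := by rw [hU]; exact UU_mono Lw hS h1 h2
  have hUl : ∀ t, t ≤ Real.exp (-A₁) → U t = 0 := fun t ht => by rw [hU]; exact UU_low Lw hS h1 h2 ht
  have hUh : ∀ t, Real.exp A₂ ≤ t → U t = U (Real.exp A₂) := fun t ht => by rw [hU]; exact UU_high Lw hS h1 h2 ht
  obtain ⟨M, hM⟩ : ∃ M : ℝ, M = U (Real.exp A₂) := ⟨_, rfl⟩
  have hU0 : ∀ t, 0 ≤ U t := fun t => by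
    rcases le_total t (Real.exp (-A₁)) with h | h
    · rw [hUl t h]
    · rw [← hUl _ (le_refl (Real.exp (-A₁)))]
      exact hUm h
  have hUM : ∀ t, U t ≤ M := fun t => by
    rw [hM]
    rcases le_total t (Real.exp A₂) with h | h
    · exact hUm h
    · exact (hUh t h).le
  have hM0 : 0 ≤ M := (hU0 0).trans (hUM 0)
  obtain ⟨D₀, hD0, htail⟩ := tail_cells Lw₀ hS (c := c) K (ε / 3) hK (by positivity)
  obtain ⟨D₁, hD₁⟩ := exists_nat_ge (max (max D₀ (A₁ / Real.log 3)) (Real.log (9 * (M + 1) / (2 * ε)) / Real.log 3))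
  obtain ⟨D, hD⟩ : ∃ D : ℕ, D = D₁ := ⟨_, rfl⟩
  rw [← hD] at hD₁
  have hDD : D₀ ≤ D := ((le_max_left _ _).trans (le_max_left _ _)).trans hD₁
  have hDA : A₁ ≤ D * Real.log 3 := by
    have := ((le_max_right _ _).trans (le_max_left _ _)).trans hD₁
    rwa [div_le_iff₀ h3] at this
  have hDM : 3 / 2 * M * Real.exp (-(D * Real.log 3)) ≤ ε / 3 := by
    have h4 := (le_max_right _ _).trans hD₁
    rw [div_le_iff₀ h3] at h4
    have h5 := Real.exp_le_exp.2 h4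
    rw [Real.exp_log (by positivity)] at h5
    rw [Real.exp_neg, ← div_eq_mul_inv, div_le_iff₀ (Real.exp_pos _)]
    have h6 : ε / 3 * (9 * (M + 1) / (2 * ε)) = 3 / 2 * (M + 1) := by field_simp; ring
    have h7 := mul_le_mul_of_nonneg_left h5 (by positivity : 0 ≤ ε / 3)
    rw [h6] at h7
    linarith
  obtain ⟨X₁, hX1, g1⟩ := htail D hDD
  obtain ⟨X₂, hX2, g2⟩ := near_term Lw hS h1 h2 K (D * Real.log 3) (ε / (3 * (2 * D + 1))) hK (by positivity) (by positivity)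
  refine ⟨max X₁ X₂, le_max_of_le_left hX1, fun x hx k hk J => ?_⟩
  have hx1 := (le_max_left _ _).trans hx
  have hx2 := (le_max_right _ _).trans hx
  have hx0 : 0 < x := by linarith
  have hlx : 0 < Real.log x := Real.log_pos (by linarith)
  have hg0 : 0 < gn m0 v0 x k := gn_pos v0_pos hlx k
  rw [← hU] at g2 ⊢
  obtain ⟨g, hg⟩ : ∃ g : ℝ, g = gn m0 v0 x k := ⟨_, rfl⟩
  have g1' := g1 x hx1 k hk
  have g2' := g2 x hx2 k hk
  rw [← hg] at g1' g2' hg0 ⊢
  have hxg : 0 < x * g := by positivity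
  -- the three parts
  have p1 : ∑ l ∈ J.filter (fun l : ℤ => l0 c x k - l ≤ -(D : ℝ)), |cell B κ ω k l x / (x * g) - pf U (l0 c x k - l)| ≤
      ε / 3 + ε / 3 := by
    have q1 : ∀ l ∈ J.filter (fun l : ℤ => l0 c x k - l ≤ -(D : ℝ)),
        |cell B κ ω k l x / (x * g) - pf U (l0 c x k - l)| ≤
        cell B κ ω k l x / (x * g) + M * Real.exp ((l0 c x k - l) * Real.log 3) := by
      intro l _
      have r1 : 0 ≤ cell B κ ω k l x / (x * g) := div_nonneg (cell_nonneg _ _ _ _ _ _) hxg.le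
      have r2 : 0 ≤ pf U (l0 c x k - l) := mul_nonneg (Real.exp_pos _).le (hU0 _)
      have r3 : pf U (l0 c x k - l) ≤ M * Real.exp ((l0 c x k - l) * Real.log 3) := by
        unfold pf
        rw [mul_comm]
        exact mul_le_mul_of_nonneg_right (hUM _) (Real.exp_pos _).le
      rw [abs_le]
      constructor <;> linarith
    refine (Finset.sum_le_sum q1).trans ?_
    rw [Finset.sum_add_distrib, ← Finset.sum_div, ← Finset.mul_sum]
    have q2 := g1' (J.filter (fun l : ℤ => l0 c x k - l ≤ -(D : ℝ))) (fun l hl => (mem_filter.1 hl).2)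
    have q3 := geo_sum (l0 c x k) D (J.filter (fun l : ℤ => l0 c x k - l ≤ -(D : ℝ))) (fun l hl => (mem_filter.1 hl).2)
    have q4 := mul_le_mul_of_nonneg_left q3 hM0
    rw [← div_le_iff₀ hxg] at q2
    linarith
  have p2 : ∑ l ∈ (J.filter (fun l : ℤ => ¬ l0 c x k - l ≤ -(D : ℝ))).filter (fun l : ℤ => l0 c x k - l ≤ D),
      |cell B κ ω k l x / (x * g) - pf U (l0 c x k - l)| ≤ ε / 3 := by
    have q1 := Finset.sum_le_card_nsmul ((J.filter (fun l : ℤ => ¬ l0 c x k - l ≤ -(D : ℝ))).filter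
      (fun l : ℤ => l0 c x k - l ≤ D)) (fun l => |cell B κ ω k l x / (x * g) - pf U (l0 c x k - l)|)
      (ε / (3 * (2 * D + 1))) (by
        intro l hl
        rw [mem_filter, mem_filter, not_le] at hl
        apply g2'
        rw [abs_mul, abs_of_pos h3]
        apply mul_le_mul_of_nonneg_right _ h3.le
        rw [abs_le]
        exact ⟨hl.1.2.le, hl.2⟩)
    rw [nsmul_eq_mul] at q1
    have q2 := card_mid (l0 c x k) (D := D) ((J.filter (fun l : ℤ => ¬ l0 c x k - l ≤ -(D : ℝ))).filter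
      (fun l : ℤ => l0 c x k - l ≤ D)) (by
        intro l hl
        rw [mem_filter, mem_filter, not_le] at hl
        exact ⟨hl.1.2, hl.2⟩)
    refine q1.trans ((mul_le_mul_of_nonneg_right q2 (by positivity)).trans (le_of_eq ?_))
    field_simp
  have p3 : ∑ l ∈ (J.filter (fun l : ℤ => ¬ l0 c x k - l ≤ -(D : ℝ))).filter (fun l : ℤ => ¬ l0 c x k - l ≤ D),
      |cell B κ ω k l x / (x * g) - pf U (l0 c x k - l)| = 0 := by
    apply Finset.sum_eq_zero
    intro l hl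
    rw [mem_filter, not_le] at hl
    have q1 := mul_lt_mul_of_pos_right hl.2 h3
    rw [cell_low hS k l (y := x), zero_div, zero_sub, abs_neg, abs_eq_zero]
    · unfold pf
      rw [hUl, mul_zero]
      apply Real.exp_le_exp.2
      linarith
    · rw [← Real.log_lt_iff_lt_exp hx0, LW_l0 c x]
      linarith
  rw [← Finset.sum_filter_add_sum_filter_not J (fun l : ℤ => l0 c x k - l ≤ -(D : ℝ)),
    ← Finset.sum_filter_add_sum_filter_not (J.filter (fun l : ℤ => ¬ l0 c x k - l ≤ -(D : ℝ)))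
      (fun l : ℤ => l0 c x k - l ≤ D), p3]
  linarith

end Pool.Agent.L7h55.GC
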