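import Pool.Agent.L7h55.GC.Eq2

/-!
The sums of the powers and the supremum of the shifted profiles.
-/

set_option autoImplicit false

namespace Pool.Agent.L7h55.GC

open Finset Filter Topology MeasureTheory

/-- a profile -/
structure Prof (U : ℝ → ℝ) (a M : ℝ) : Prop where
  cont : Continuous U
  low : ∀ t, t ≤ Real.exp (-a) → U t = 0
  nonneg : ∀ t, 0 ≤ U t
  le : ∀ t, U t ≤ M
  ha : 0 ≤ a

variable {U : ℝ → ℝ} {a M : ℝ}

theorem Prof.M0 (h : Prof U a M) : 0 ≤ M := (h.nonneg 0).trans (h.le 0)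

theorem pf_nonneg (h : Prof U a M) (u : ℝ) : 0 ≤ pf U u := mul_nonneg (Real.exp_pos _).le (h.nonneg _)

theorem pf_zero (h : Prof U a M) {u : ℝ} (hu : a ≤ u * Real.log 3) : pf U u = 0 := by
  unfold pf
  rw [h.low _ (Real.exp_le_exp.2 (by linarith)), mul_zero]

theorem pf_exp (h : Prof U a M) (u : ℝ) : pf U u ≤ M * Real.exp (u * Real.log 3) := by
  unfold pf
  rw [mul_comm]
  exact mul_le_mul_of_nonneg_right (h.le _) (Real.exp_pos _).le

/-- two-sided decay -/
theorem pf_dec (h : Prof U a M) (u : ℝ) : pf U u ≤ M * Real.exp (2 * a) * Real.exp (-(|u| * Real.log 3)) := by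
  have h3 := log3_pos
  have hM := h.M0
  have ha := h.ha
  rcases le_total u 0 with hu | hu
  · rw [abs_of_nonpos hu]
    refine (pf_exp h u).trans ?_
    rw [mul_assoc, ← Real.exp_add]
    apply mul_le_mul_of_nonneg_left _ hM
    apply Real.exp_le_exp.2
    linarith
  · rw [abs_of_nonneg hu]
    rcases le_or_gt a (u * Real.log 3) with h1 | h1
    · rw [pf_zero h h1]
      positivity
    · refine (pf_exp h u).trans ?_
      rw [mul_assoc, ← Real.exp_add]
      apply mul_le_mul_of_nonneg_left _ hM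
      apply Real.exp_le_exp.2
      linarith

theorem pf_le (h : Prof U a M) (u : ℝ) : pf U u ≤ M * Real.exp (2 * a) := by
  have h3 := log3_pos
  refine (pf_dec h u).trans ?_
  have h1 : Real.exp (-(|u| * Real.log 3)) ≤ 1 := by
    rw [Real.exp_le_one_iff]
    have := mul_nonneg (abs_nonneg u) h3.le
    linarith
  have := h.M0
  exact mul_le_of_le_one_right (by positivity) h1

theorem pf_tendsto (h : Prof U a M) : Tendsto (pf U) (cocompact ℝ) (𝓝 0) := by
  have h3 := log3_pos
  have h1 : Tendsto (fun u : ℝ => M * Real.exp (2 * a) * Real.exp (-(|u| * Real.log 3))) (cocompact ℝ) (𝓝 0) := by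
    have h2 : Tendsto (fun u : ℝ => |u| * Real.log 3) (cocompact ℝ) atTop := by
      apply Tendsto.atTop_mul_const h3
      have := tendsto_norm_cocompact_atTop (E := ℝ)
      exact this
    have h4 := (Real.tendsto_exp_neg_atTop_nhds_zero.comp h2).const_mul (M * Real.exp (2 * a))
    rw [mul_zero] at h4
    exact h4
  exact squeeze_zero (fun u => pf_nonneg h u) (fun u => pf_dec h u) h1

theorem pf_unif (h : Prof U a M) : UniformContinuous (pf U) :=
  (pf_cont h.cont).uniformContinuous_of_tendsto_cocompact (pf_tendsto h)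

theorem dec_integrable (b : ℝ) (hb : 0 < b) : Integrable (fun u : ℝ => Real.exp (-(|u| * b))) := by
  rw [← integrableOn_univ, ← Set.Iic_union_Ioi (a := (0 : ℝ))]
  apply IntegrableOn.union
  · refine (integrableOn_exp_mul_Iic hb 0).congr_fun (fun u hu => ?_) measurableSet_Iic
    simp only
    rw [abs_of_nonpos hu]
    congr 1
    ring
  · refine (integrableOn_exp_mul_Ioi (neg_lt_zero.2 hb) 0).congr_fun (fun u hu => ?_) measurableSet_Ioi
    simp only
    rw [abs_of_pos hu]
    congr 1
    ring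

theorem pf_pow_dec (h : Prof U a M) (r : ℕ) (u : ℝ) :
    pf U u ^ r ≤ (M * Real.exp (2 * a)) ^ r * Real.exp (-(|u| * (r * Real.log 3))) := by
  refine (pow_le_pow_left₀ (pf_nonneg h u) (pf_dec h u) r).trans (le_of_eq ?_)
  rw [mul_pow, ← Real.exp_nat_mul]
  congr 2
  ring

theorem pf_integrable (h : Prof U a M) {r : ℕ} (hr : 1 ≤ r) : Integrable (fun u => pf U u ^ r) := by
  have h3 := log3_pos
  have hr0 : (0 : ℝ) < r := by exact_mod_cast hr
  refine ((dec_integrable (r * Real.log 3) (by positivity)).const_mul ((M * Real.exp (2 * a)) ^ r)).mono'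
    ((pf_cont h.cont).pow r).aestronglyMeasurable (ae_of_all _ fun u => ?_)
  rw [Real.norm_of_nonneg (pow_nonneg (pf_nonneg h u) r)]
  exact pf_pow_dec h r u

theorem summable_abs {ρ : ℝ} (h0 : 0 ≤ ρ) (h1 : ρ < 1) : Summable fun n : ℤ => ρ ^ n.natAbs := by
  apply Summable.of_nat_of_neg
  · simpa using summable_geometric_of_lt_one h0 h1
  · simpa using summable_geometric_of_lt_one h0 h1

/-- the bound of the shifted profiles -/
theorem pf_shift (h : Prof U a M) {r : ℕ} (x₀ : ℝ) (n : ℤ) {x : ℝ} (hx : |x| ≤ x₀) :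
    pf U (x + n) ^ r ≤ (M * Real.exp (2 * a)) ^ r * Real.exp (x₀ * (r * Real.log 3)) *
      (Real.exp (-(r * Real.log 3))) ^ n.natAbs := by
  have h3 := log3_pos
  have hM := h.M0
  refine (pf_pow_dec h r _).trans ?_
  rw [mul_assoc]
  apply mul_le_mul_of_nonneg_left _ (by positivity)
  rw [← Real.exp_nat_mul, ← Real.exp_add]
  apply Real.exp_le_exp.2
  have h4 : ((n.natAbs : ℕ) : ℝ) = |(n : ℝ)| := by rw [Nat.cast_natAbs, Int.cast_abs]
  rw [h4]
  have h5 : |(n : ℝ)| ≤ |x + n| + |x| := by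
    have := abs_sub (x + n) x
    rwa [add_sub_cancel_left] at this
  have h6 : (0 : ℝ) ≤ r * Real.log 3 := by positivity
  nlinarith

theorem pf_summable (h : Prof U a M) {r : ℕ} (hr : 1 ≤ r) (x : ℝ) : Summable fun n : ℤ => pf U (x + n) ^ r := by
  have h3 := log3_pos
  have hr0 : (0 : ℝ) < r := by exact_mod_cast hr
  refine Summable.of_nonneg_of_le (fun n => pow_nonneg (pf_nonneg h _) r) (fun n => pf_shift h |x| n le_rfl)
    ((summable_abs (Real.exp_pos _).le ?_).mul_left _)
  rw [Real.exp_lt_one_iff, neg_lt_zero]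
  positivity

/-- the sum of the powers of the shifted profiles -/
noncomputable def PH (U : ℝ → ℝ) (r : ℕ) (s : ℝ) : ℝ := ∑' n : ℤ, pf U (s + n) ^ r

theorem PH_nonneg (h : Prof U a M) (r : ℕ) (s : ℝ) : 0 ≤ PH U r s := tsum_nonneg fun n => pow_nonneg (pf_nonneg h _) r

theorem PH_per (U : ℝ → ℝ) (r : ℕ) (s : ℝ) : PH U r (s + 1) = PH U r s := by
  unfold PH
  rw [← (Equiv.addRight (1 : ℤ)).tsum_eq (fun n : ℤ => pf U (s + n) ^ r)]
  apply tsum_congr
  intro n
  rw [Equiv.coe_addRight]
  congr 2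
  push_cast
  ring

theorem PH_cont (h : Prof U a M) {r : ℕ} (hr : 1 ≤ r) : Continuous (PH U r) := by
  have h3 := log3_pos
  have hr0 : (0 : ℝ) < r := by exact_mod_cast hr
  rw [continuous_iff_continuousAt]
  intro x₀
  have h1 : ContinuousOn (PH U r) (Set.Ioo (x₀ - 1) (x₀ + 1)) := by
    unfold PH
    refine continuousOn_tsum (u := fun n : ℤ => (M * Real.exp (2 * a)) ^ r * Real.exp ((|x₀| + 1) * (r * Real.log 3)) *
      (Real.exp (-(r * Real.log 3))) ^ n.natAbs) (fun n => ?_) ((summable_abs (Real.exp_pos _).le ?_).mul_left _)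
      (fun n x hx => ?_)
    · exact (((pf_cont h.cont).comp (by fun_prop : Continuous fun s : ℝ => s + (n : ℝ))).pow r).continuousOn
    · rw [Real.exp_lt_one_iff, neg_lt_zero]
      positivity
    · rw [Real.norm_of_nonneg (pow_nonneg (pf_nonneg h _) r)]
      apply pf_shift h
      have h4 : |x - x₀| ≤ 1 := by rw [abs_le]; constructor <;> linarith [hx.1, hx.2]
      have h5 := abs_add_le (x - x₀) x₀
      rw [sub_add_cancel] at h5
      linarith
  exact h1.continuousAt (Ioo_mem_nhds (by linarith) (by linarith))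

theorem PH_int (h : Prof U a M) {r : ℕ} (hr : 1 ≤ r) : ∫ s in (0 : ℝ)..1, PH U r s = ∫ u, pf U u ^ r := by
  have h1 := (pf_integrable h hr).hasSum_intervalIntegral_comp_add_int
  rw [← h1.tsum_eq]
  unfold PH
  simp only [intervalIntegral.integral_of_le zero_le_one]
  rw [integral_tsum_of_summable_integral_norm]
  · intro n
    have : Continuous fun s : ℝ => pf U (s + n) ^ r :=
      ((pf_cont h.cont).comp (by fun_prop : Continuous fun s : ℝ => s + (n : ℝ))).pow r
    exact (this.intervalIntegrable 0 1).1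
  · refine h1.summable.congr fun n => ?_
    rw [intervalIntegral.integral_of_le zero_le_one]
    apply setIntegral_congr_fun measurableSet_Ioc
    intro s _
    simp only
    rw [Real.norm_of_nonneg (pow_nonneg (pf_nonneg h _) r)]

/-- the supremum of the shifted profiles -/
noncomputable def PM (U : ℝ → ℝ) (s : ℝ) : ℝ := ⨆ n : ℤ, pf U (s + n)

theorem PM_bdd (h : Prof U a M) (s : ℝ) : BddAbove (Set.range fun n : ℤ => pf U (s + n)) :=
  ⟨M * Real.exp (2 * a), by rintro _ ⟨n, rfl⟩; exact pf_le h _⟩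

theorem PM_ge (h : Prof U a M) (s : ℝ) (n : ℤ) : pf U (s + n) ≤ PM U s := le_ciSup (PM_bdd h s) n

theorem PM_nonneg (h : Prof U a M) (s : ℝ) : 0 ≤ PM U s := (pf_nonneg h _).trans (PM_ge h s 0)

theorem PM_per (U : ℝ → ℝ) (s : ℝ) : PM U (s + 1) = PM U s := by
  unfold PM
  rw [← (Equiv.addRight (1 : ℤ)).iSup_comp (g := fun n : ℤ => pf U (s + n))]
  congr 1
  funext n
  rw [Equiv.coe_addRight]
  congr 1
  push_cast
  ring

theorem PM_cont (h : Prof U a M) : Continuous (PM U) := by
  apply UniformContinuous.continuous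
  rw [Metric.uniformContinuous_iff]
  intro ε hε
  obtain ⟨δ, hδ, hd⟩ := Metric.uniformContinuous_iff.1 (pf_unif h) (ε / 2) (by positivity)
  refine ⟨δ, hδ, fun s t hst => ?_⟩
  have key : ∀ s t : ℝ, dist s t < δ → PM U s ≤ PM U t + ε / 2 := by
    intro s t hst
    apply ciSup_le
    intro n
    have h1 := hd (a := s + n) (b := t + n) (by rwa [dist_add_right])
    rw [Real.dist_eq] at h1
    have h2 := PM_ge h t n
    linarith [(abs_lt.1 h1).2]
  have h1 := key s t hst
  have h2 := key t s (by rwa [dist_comm])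
  rw [Real.dist_eq, abs_lt]
  constructor <;> linarith

end Pool.Agent.L7h55.GC
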