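import Pool.Agent.L7h55.GC.Eq3
import Pool.Agent.R468.MF.Mode

/-!
The sums of the powers and the maximum of the counts in the cells of a column.
-/

set_option autoImplicit false

namespace Pool.Agent.L7h55.GC

open Finset Filter Topology
open Pool.Agent.R468.GL
open Pool.Agent.R468.MF
open Pool.Agent.R468.MG
open Pool.Agent.R468.LL (lam lam_eq lam_pos lam_lt)

variable {P : Par} {B : Set ℤ} {κ ω : ℤ → ℤ} {c A₁ A₂ : ℝ} {Ψ Ψ₀ : ℝ → ℝ} {δ δ₀ : ℝ}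

theorem prof_UU (Lw : Law (CG P B κ ω) (A0 P / lam) (2 * ww P ^ 2 / lam ^ 3) (kap P / ww P)
      (fun x => Real.log x / ww P) Ψ δ) (hS : Size B κ ω c A₁ A₂) (h1 : 2 * A₁ < ww P) (h2 : 2 * A₂ < ww P)
    (ha : 0 ≤ A₁) : Prof (UU P Ψ c) A₁ (UU P Ψ c (Real.exp A₂)) := by
  have hUm : Monotone (UU P Ψ c) := UU_mono Lw hS h1 h2
  refine ⟨UU_cont Lw.cont, fun t ht => UU_low Lw hS h1 h2 ht, fun t => ?_, fun t => ?_, ha⟩
  · rcases le_total t (Real.exp (-A₁)) with h | h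
    · rw [UU_low Lw hS h1 h2 h]
    · rw [← UU_low Lw hS h1 h2 (le_refl (Real.exp (-A₁)))]
      exact hUm h
  · rcases le_total t (Real.exp A₂) with h | h
    · exact hUm h
    · exact (UU_high Lw hS h1 h2 h).le

open scoped Classical in
/-- the labels of the elements up to `x` -/
noncomputable def labs (B : Set ℤ) (ω : ℤ → ℤ) (x : ℝ) : Finset ℤ := (fin_set B x).toFinset.image ω

theorem cell_out {k l : ℤ} {x : ℝ} (h : l ∉ labs B ω x) : cell B κ ω k l x = 0 := by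
  unfold cell
  have : {n : ℤ | 1 ≤ n ∧ (n : ℝ) ≤ x ∧ n ∈ B ∧ κ n = k ∧ ω n = l} = ∅ := by
    rw [Set.eq_empty_iff_forall_notMem]
    rintro n ⟨g1, g2, g3, g4, g5⟩
    apply h
    unfold labs
    rw [mem_image]
    exact ⟨n, (Set.Finite.mem_toFinset _).2 ⟨g1, g2, g3⟩, g5⟩
  rw [this, Set.ncard_empty, Nat.cast_zero]

theorem cell_out' {k l : ℤ} {x : ℝ} (h : k ∉ labs B κ x) : cell B κ ω k l x = 0 := by
  unfold cell
  have : {n : ℤ | 1 ≤ n ∧ (n : ℝ) ≤ x ∧ n ∈ B ∧ κ n = k ∧ ω n = l} = ∅ := by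
    rw [Set.eq_empty_iff_forall_notMem]
    rintro n ⟨g1, g2, g3, g4, g5⟩
    apply h
    unfold labs
    rw [mem_image]
    exact ⟨n, (Set.Finite.mem_toFinset _).2 ⟨g1, g2, g3⟩, g4⟩
  rw [this, Set.ncard_empty, Nat.cast_zero]

/-- the sum over a column -/
theorem col_sum_le (B : Set ℤ) (κ ω : ℤ → ℤ) (x : ℝ) (k : ℤ) (J : Finset ℤ) :
    ∑ l ∈ J, cell B κ ω k l x ≤ CG PT B κ ω x k := by
  classical
  rw [CG_ncard]
  have hfin : {n : ℤ | 1 ≤ n ∧ (n : ℝ) ≤ x ∧ n ∈ Lj PT B κ ω k}.Finite := fin_set _ _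
  have e : ∀ l ∈ J, cell B κ ω k l x = ((hfin.toFinset.filter fun n : ℤ => ω n = l).card : ℝ) := by
    intro l _
    unfold cell
    rw [← Set.ncard_coe_finset]
    congr 2
    ext n
    rw [mem_coe, mem_filter, Set.Finite.mem_toFinset]
    constructor
    · rintro ⟨g1, g2, g3, g4, g5⟩
      refine ⟨⟨g1, g2, g3, ?_⟩, g5⟩
      show ((0 : ℕ) : ℤ) * ω n + ((1 : ℕ) : ℤ) * κ n = k
      push_cast
      omega
    · rintro ⟨⟨g1, g2, g3, g4⟩, g6⟩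
      have g4' : ((0 : ℕ) : ℤ) * ω n + ((1 : ℕ) : ℤ) * κ n = k := g4
      push_cast at g4'
      exact ⟨g1, g2, g3, by omega, g6⟩
  rw [Finset.sum_congr rfl e, Set.ncard_eq_toFinset_card _ hfin, ← Nat.cast_sum, ← Finset.card_biUnion]
  · apply Nat.cast_le.2
    apply Finset.card_le_card
    intro n hn
    rw [Finset.mem_biUnion] at hn
    obtain ⟨l, _, hl⟩ := hn
    exact (mem_filter.1 hl).1
  · intro l _ l' _ hll
    show Disjoint _ _
    rw [Finset.disjoint_left]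
    intro n g1 g2
    exact hll ((mem_filter.1 g1).2.symm.trans (mem_filter.1 g2).2)

theorem cell_le_CG (B : Set ℤ) (κ ω : ℤ → ℤ) (x : ℝ) (k l : ℤ) : cell B κ ω k l x ≤ CG PT B κ ω x k := by
  have := col_sum_le B κ ω x k {l}
  rwa [Finset.sum_singleton] at this

/-- the sum of the powers of the counts of a column -/
noncomputable def FP (B : Set ℤ) (κ ω : ℤ → ℤ) (r : ℕ) (x : ℝ) (k : ℤ) : ℝ :=
  ∑ l ∈ labs B ω x, cell B κ ω k l x ^ r

theorem FP_nonneg (r : ℕ) (x : ℝ) (k : ℤ) : 0 ≤ FP B κ ω r x k :=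
  Finset.sum_nonneg fun _ _ => pow_nonneg (cell_nonneg _ _ _ _ _ _) r

theorem FP_le {r : ℕ} (hr : 1 ≤ r) (x : ℝ) (k : ℤ) : FP B κ ω r x k ≤ CG PT B κ ω x k ^ r := by
  obtain ⟨q, rfl⟩ : ∃ q, r = q + 1 := ⟨r - 1, by omega⟩
  have h0 : 0 ≤ CG PT B κ ω x k := CG_nonneg PT B κ ω x k
  calc FP B κ ω (q + 1) x k ≤ ∑ l ∈ labs B ω x, CG PT B κ ω x k ^ q * cell B κ ω k l x := by
        apply Finset.sum_le_sum
        intro l _
        rw [pow_succ]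
        exact mul_le_mul_of_nonneg_right (pow_le_pow_left₀ (cell_nonneg _ _ _ _ _ _) (cell_le_CG B κ ω x k l) q)
          (cell_nonneg _ _ _ _ _ _)
    _ = CG PT B κ ω x k ^ q * ∑ l ∈ labs B ω x, cell B κ ω k l x := by rw [Finset.mul_sum]
    _ ≤ CG PT B κ ω x k ^ q * CG PT B κ ω x k := mul_le_mul_of_nonneg_left (col_sum_le B κ ω x k _) (pow_nonneg h0 q)
    _ = _ := by rw [pow_succ]

theorem FP_out {r : ℕ} (hr : 1 ≤ r) {x : ℝ} {k : ℤ} (h : k ∉ labs B κ x) : FP B κ ω r x k = 0 := by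
  unfold FP
  apply Finset.sum_eq_zero
  intro l _
  rw [cell_out' h, zero_pow (by omega)]

/-- the largest count of a column -/
noncomputable def MC (B : Set ℤ) (κ ω : ℤ → ℤ) (x : ℝ) (k : ℤ) : ℝ := ⨆ l : ℤ, cell B κ ω k l x

theorem MC_bdd (B : Set ℤ) (κ ω : ℤ → ℤ) (x : ℝ) (k : ℤ) : BddAbove (Set.range fun l : ℤ => cell B κ ω k l x) :=
  ⟨CG PT B κ ω x k, by rintro _ ⟨l, rfl⟩; exact cell_le_CG B κ ω x k l⟩

theorem MC_ge (B : Set ℤ) (κ ω : ℤ → ℤ) (x : ℝ) (k l : ℤ) : cell B κ ω k l x ≤ MC B κ ω x k := le_ciSup (MC_bdd B κ ω x k) l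

theorem MC_nonneg (B : Set ℤ) (κ ω : ℤ → ℤ) (x : ℝ) (k : ℤ) : 0 ≤ MC B κ ω x k :=
  (cell_nonneg B κ ω k 0 x).trans (MC_ge B κ ω x k 0)

theorem MC_le (B : Set ℤ) (κ ω : ℤ → ℤ) (x : ℝ) (k : ℤ) : MC B κ ω x k ≤ CG PT B κ ω x k :=
  ciSup_le fun l => cell_le_CG B κ ω x k l

theorem MC_out {x : ℝ} {k : ℤ} (h : k ∉ labs B κ x) : MC B κ ω x k = 0 := by
  unfold MC
  simp only [cell_out' h, ciSup_const]

/-- the position on the column -/
theorem l0_eq (x : ℝ) (k : ℤ) : -((Real.log x - c) / Real.log 3 - (k : ℝ) * (kap PT / ww PT)) = l0 c x k := by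
  have h3 := log3_pos
  rw [kap_PT, ww_PT]
  unfold l0
  field_simp
  ring

section
variable (Lw : Law (CG P B κ ω) (A0 P / lam) (2 * ww P ^ 2 / lam ^ 3) (kap P / ww P) (fun x => Real.log x / ww P) Ψ δ)
  (Lw₀ : Law (CG PT B κ ω) m0 v0 (kap PT / ww PT) (fun x => Real.log x / ww PT) Ψ₀ δ₀)
  (hS : Size B κ ω c A₁ A₂) (h1 : 2 * A₁ < ww P) (h2 : 2 * A₂ < ww P) (ha : 0 ≤ A₁)
include Lw Lw₀ hS h1 h2 ha

theorem FP_loc {r : ℕ} (hr : 1 ≤ r) :
    ∀ K ε : ℝ, 0 < K → 0 < ε → ∃ X₀ : ℝ, 2 ≤ X₀ ∧ ∀ x : ℝ, X₀ ≤ x → ∀ k : ℤ,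
      |(k : ℝ) - m0 * Real.log x| ≤ K * √(Real.log x) →
      |FP B κ ω r x k / (x * gn m0 v0 x k) ^ r - PH (UU P Ψ c) r (l0 c x k)| ≤ ε := by
  classical
  intro K ε hK hε
  have hPr := prof_UU Lw hS h1 h2 ha
  obtain ⟨U, hU⟩ : ∃ U : ℝ → ℝ, U = UU P Ψ c := ⟨_, rfl⟩
  rw [← hU] at hPr ⊢
  obtain ⟨M, hM⟩ : ∃ M : ℝ, M = U (Real.exp A₂) := ⟨_, rfl⟩
  rw [← hM] at hPr
  obtain ⟨M1, hM1⟩ : ∃ M1 : ℝ, M1 = M * Real.exp (2 * A₁) + 1 := ⟨_, rfl⟩
  have hM0 := hPr.M0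
  have hM10 : 1 ≤ M1 := by
    rw [hM1]
    have : 0 ≤ M * Real.exp (2 * A₁) := by positivity
    linarith
  obtain ⟨R, hR⟩ : ∃ R : ℝ, R = r * M1 ^ (r - 1) := ⟨_, rfl⟩
  have hR0 : 0 ≤ R := by rw [hR]; positivity
  obtain ⟨X₀, hX0, hX⟩ := l1_loc Lw Lw₀ hS h1 h2 K (min 1 (ε / (2 * (R + 1)))) hK (by positivity)
  refine ⟨X₀, hX0, fun x hx k hk => ?_⟩
  have hx0 : 0 < x := by linarith
  have hlx : 0 < Real.log x := Real.log_pos (by linarith)
  have hg0 : 0 < gn m0 v0 x k := gn_pos v0_pos hlx k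
  have hJ := hX x hx k hk
  rw [← hU] at hJ
  obtain ⟨g, hg⟩ : ∃ g : ℝ, g = gn m0 v0 x k := ⟨_, rfl⟩
  rw [← hg] at hJ hg0 ⊢
  have hxg : 0 < x * g := by positivity
  obtain ⟨s, hs⟩ : ∃ s : ℝ, s = l0 c x k := ⟨_, rfl⟩
  rw [← hs] at hJ ⊢
  -- the sum of the profiles
  have hsum : HasSum (fun l : ℤ => pf U (s - l) ^ r) (PH U r s) := by
    have q1 : HasSum (fun n : ℤ => pf U (s + n) ^ r) (PH U r s) := (pf_summable hPr hr s).hasSum
    have q2 := (Equiv.neg ℤ).hasSum_iff.2 q1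
    have e : ((fun n : ℤ => pf U (s + n) ^ r) ∘ (Equiv.neg ℤ)) = fun l : ℤ => pf U (s - l) ^ r := by
      funext l
      show pf U (s + ((-l : ℤ) : ℝ)) ^ r = pf U (s - l) ^ r
      rw [Int.cast_neg, ← sub_eq_add_neg]
    rwa [e] at q2
  obtain ⟨J₂, hJ₂⟩ := (Metric.tendsto_atTop.1 hsum) (ε / 2) (by positivity)
  obtain ⟨J, hJdef⟩ : ∃ J : Finset ℤ, J = labs B ω x ∪ J₂ := ⟨_, rfl⟩
  have g1 := hJ₂ J (by rw [hJdef]; exact subset_union_right)
  rw [Real.dist_eq] at g1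
  have g2 : FP B κ ω r x k / (x * g) ^ r = ∑ l ∈ J, (cell B κ ω k l x / (x * g)) ^ r := by
    unfold FP
    rw [Finset.sum_div, hJdef]
    simp only [div_pow]
    apply Finset.sum_subset subset_union_left
    intro l _ hl
    rw [cell_out hl, zero_pow (by omega), zero_div]
  have hmin1 : min 1 (ε / (2 * (R + 1))) ≤ 1 := min_le_left _ _
  have hmin2 : min 1 (ε / (2 * (R + 1))) ≤ ε / (2 * (R + 1)) := min_le_right _ _
  have g3 : |∑ l ∈ J, (cell B κ ω k l x / (x * g)) ^ r - ∑ l ∈ J, pf U (s - l) ^ r| ≤ ε / 2 := by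
    rw [← Finset.sum_sub_distrib]
    have q1 : ∀ l ∈ J, |(cell B κ ω k l x / (x * g)) ^ r - pf U (s - l) ^ r| ≤
        |cell B κ ω k l x / (x * g) - pf U (s - l)| * R := by
      intro l _
      have q2 := hJ {l}
      rw [Finset.sum_singleton] at q2
      have q3 := abs_le.1 (q2.trans hmin1)
      have q4 := pf_le hPr (s - l)
      rw [hR]
      exact pow_sub_pow_bd (div_nonneg (cell_nonneg _ _ _ _ _ _) hxg.le) (pf_nonneg hPr _)
        (by rw [hM1]; linarith [q3.2]) (by rw [hM1]; linarith) r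
    refine (Finset.abs_sum_le_sum_abs _ _).trans ((Finset.sum_le_sum q1).trans ?_)
    rw [← Finset.sum_mul]
    calc (∑ l ∈ J, |cell B κ ω k l x / (x * g) - pf U (s - l)|) * R ≤ ε / (2 * (R + 1)) * R :=
          mul_le_mul_of_nonneg_right ((hJ J).trans hmin2) hR0
      _ ≤ ε / 2 := by
          rw [div_mul_eq_mul_div, div_le_div_iff₀ (by positivity) (by norm_num)]
          nlinarith
  rw [g2]
  rw [abs_le] at g3 ⊢
  have g1' := abs_lt.1 g1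
  constructor <;> linarith [g3.1, g3.2, g1'.1, g1'.2]

theorem MC_loc :
    ∀ K ε : ℝ, 0 < K → 0 < ε → ∃ X₀ : ℝ, 2 ≤ X₀ ∧ ∀ x : ℝ, X₀ ≤ x → ∀ k : ℤ,
      |(k : ℝ) - m0 * Real.log x| ≤ K * √(Real.log x) →
      |MC B κ ω x k / (x * gn m0 v0 x k) - PM (UU P Ψ c) (l0 c x k)| ≤ ε := by
  intro K ε hK hε
  have hPr := prof_UU Lw hS h1 h2 ha
  obtain ⟨U, hU⟩ : ∃ U : ℝ → ℝ, U = UU P Ψ c := ⟨_, rfl⟩
  rw [← hU] at hPr ⊢
  obtain ⟨X₀, hX0, hX⟩ := l1_loc Lw Lw₀ hS h1 h2 K ε hK hε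
  refine ⟨X₀, hX0, fun x hx k hk => ?_⟩
  have hx0 : 0 < x := by linarith
  have hlx : 0 < Real.log x := Real.log_pos (by linarith)
  have hg0 : 0 < gn m0 v0 x k := gn_pos v0_pos hlx k
  have hJ := hX x hx k hk
  rw [← hU] at hJ
  obtain ⟨g, hg⟩ : ∃ g : ℝ, g = gn m0 v0 x k := ⟨_, rfl⟩
  rw [← hg] at hJ hg0 ⊢
  have hxg : 0 < x * g := by positivity
  obtain ⟨s, hs⟩ : ∃ s : ℝ, s = l0 c x k := ⟨_, rfl⟩
  rw [← hs] at hJ ⊢
  have key : ∀ l : ℤ, |cell B κ ω k l x / (x * g) - pf U (s - l)| ≤ ε := fun l => by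
    have q2 := hJ {l}
    rwa [Finset.sum_singleton] at q2
  have e : ∀ l : ℤ, s - l = s + ((-l : ℤ) : ℝ) := fun l => by push_cast; ring
  have g1 : MC B κ ω x k ≤ (PM U s + ε) * (x * g) := by
    apply ciSup_le
    intro l
    have q1 := (abs_le.1 (key l)).2
    have q2 := PM_ge hPr s (-l)
    rw [← e] at q2
    rw [← div_le_iff₀ hxg]
    linarith
  have g2 : PM U s ≤ MC B κ ω x k / (x * g) + ε := by
    apply ciSup_le
    intro n
    have q1 := (abs_le.1 (key (-n))).1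
    have q2 : cell B κ ω k (-n) x / (x * g) ≤ MC B κ ω x k / (x * g) :=
      div_le_div_of_nonneg_right (MC_ge B κ ω x k (-n)) hxg.le
    rw [e, neg_neg] at q1
    linarith
  rw [← div_le_iff₀ hxg] at g1
  rw [abs_le]
  constructor <;> linarith

/-- the sums of the powers of all counts -/
theorem FP_sum {A : ℝ} (hA : 0 < A) (hu : ∀ x : ℝ, 2 ≤ x → ∀ j : ℤ, CG PT B κ ω x j ≤ A * x / √(Real.log x))
    {r : ℕ} (hr : 1 ≤ r) :
    Tendsto (fun x : ℝ => sd v0 x ^ (r - 1) / x ^ r * ∑ k ∈ labs B κ x, FP B κ ω r x k) atTop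
      (𝓝 (1 / √r * ∫ u, pf (UU P Ψ c) u ^ r)) := by
  have hPr := prof_UU Lw hS h1 h2 ha
  have hloc := FP_loc Lw Lw₀ hS h1 h2 ha hr
  have hc := PH_cont hPr hr
  have hav := avg_pow Lw₀ hA hu r hr (f := fun x k => FP B κ ω r x k) (fun x k => FP_nonneg r x k)
    (fun x k => FP_le hr x k) (Φ := fun s => PH (UU P Ψ c) r (-s)) (hc.comp continuous_neg)
    (fun s => by
      have := PH_per (UU P Ψ c) r (-(s + 1))
      rw [← this]
      congr 1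
      ring)
    (fun s => PH_nonneg hPr r _) (θ' := fun x => (Real.log x - c) / Real.log 3) (fun K ε hK hε => by
      obtain ⟨X₀, hX0, h⟩ := hloc K ε hK hε
      refine ⟨X₀, hX0, fun x hx k hk => ?_⟩
      rw [l0_eq]
      exact h x hx k hk)
  have hint : ∫ t in (0 : ℝ)..1, PH (UU P Ψ c) r (-t) = ∫ u, pf (UU P Ψ c) u ^ r := by
    rw [← PH_int hPr hr]
    have hper : Function.Periodic (PH (UU P Ψ c) r) 1 := PH_per _ r
    rw [intervalIntegral.integral_comp_neg (fun t => PH (UU P Ψ c) r t)]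
    have := hper.intervalIntegral_add_eq (-1) 0
    simpa using this
  rw [hint] at hav
  rw [Metric.tendsto_atTop]
  intro ε hε
  obtain ⟨X₀, hX0, h⟩ := hav (ε / 2) (by positivity)
  refine ⟨X₀, fun x hx => ?_⟩
  rw [Real.dist_eq]
  have := h x hx (labs B κ x) (fun k hk => FP_out hr hk)
  linarith

/-- the law of the largest counts of the columns -/
theorem MC_law : Law (fun x k => MC B κ ω x k) m0 v0 (kap PT / ww PT) (fun x => (Real.log x - c) / Real.log 3)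
    (fun s => PM (UU P Ψ c) (-s)) (∫ t in (0 : ℝ)..1, PM (UU P Ψ c) (-t)) := by
  have hPr := prof_UU Lw hS h1 h2 ha
  have hloc := MC_loc Lw Lw₀ hS h1 h2 ha
  have hc : Continuous fun s => PM (UU P Ψ c) (-s) := (PM_cont hPr).comp continuous_neg
  have hp : ∀ t, PM (UU P Ψ c) (-(t + 1)) = PM (UU P Ψ c) (-t) := fun s => by
    have := PM_per (UU P Ψ c) (-(s + 1))
    rw [← this]
    congr 1
    ring
  have hloc' : ∀ K ε : ℝ, 0 < K → 0 < ε → ∃ X₀ : ℝ, 2 ≤ X₀ ∧ ∀ x : ℝ, X₀ ≤ x → ∀ j : ℤ,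
      |(j : ℝ) - m0 * Real.log x| ≤ K * Real.sqrt (Real.log x) →
      |MC B κ ω x j / (x * gn m0 v0 x j) - PM (UU P Ψ c) (-((Real.log x - c) / Real.log 3 - j * (kap PT / ww PT)))| ≤ ε := by
    intro K ε hK hε
    obtain ⟨X₀, hX0, h⟩ := hloc K ε hK hε
    refine ⟨X₀, hX0, fun x hx k hk => ?_⟩
    rw [l0_eq]
    exact h x hx k hk
  refine
    { v_pos := v0_pos
      irr := Lw₀.irr
      cont := hc
      per := hp
      psi_nonneg := fun s => PM_nonneg hPr _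
      psi_int := rfl
      nonneg := fun x k => MC_nonneg B κ ω x k
      mass := ?_
      loc := ?_ }
  · intro ε hε
    obtain ⟨X₀, hX0, h⟩ := avg Lw₀ (f := fun x k => MC B κ ω x k) (fun x k => MC_nonneg B κ ω x k)
      (fun x k => MC_le B κ ω x k) hc hp (fun s => PM_nonneg hPr _) hloc' ε hε
    refine ⟨X₀, hX0, fun x hx J => ?_⟩
    have h3 := h x hx (J ∪ labs B κ x) (fun k hk => MC_out fun h4 => hk (mem_union_right _ h4))
    have h5 : ∑ k ∈ J, MC B κ ω x k ≤ ∑ k ∈ J ∪ labs B κ x, MC B κ ω x k :=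
      Finset.sum_le_sum_of_subset_of_nonneg subset_union_left fun k _ _ => MC_nonneg B κ ω x k
    have h6 := (abs_le.1 h3).2
    rw [add_mul]
    linarith
  · intro K ε hε
    obtain ⟨X₀, hX0, h⟩ := hloc' (|K| + 1) ε (by positivity) hε
    refine ⟨X₀, hX0, fun x hx j hj => h x hx j (hj.trans ?_)⟩
    apply mul_le_mul_of_nonneg_right _ (Real.sqrt_nonneg _)
    linarith [le_abs_self K]

end

end Pool.Agent.L7h55.GC
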