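import Pool.Agent.L7h55.GC.Eq4

/-!
The largest count and the covering of nearly all elements by few cells.
-/

set_option autoImplicit false

namespace Pool.Agent.L7h55.GC

open Finset Filter Topology
open Pool.Agent.R468.GL
open Pool.Agent.R468.MF
open Pool.Agent.R468.MG
open Pool.Agent.R468.LL (lam lam_eq lam_pos lam_lt)

/-- the tuples with a common label -/
theorem tuples_gen {α ι : Type} {S : ι → Set α} (hS : ∀ n j j', n ∈ S j → n ∈ S j' → j = j') {X : Set α}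
    (hX : X.Finite) {r : ℕ} (hr : 1 ≤ r) (J : Finset ι) (hJ : ∀ n ∈ X, ∀ j, n ∈ S j → j ∈ J) :
    ({v : Fin r → α | (∀ i, v i ∈ X) ∧ ∃ j, ∀ i, v i ∈ S j}.ncard : ℝ) =
      ∑ j ∈ J, ({n : α | n ∈ X ∧ n ∈ S j}.ncard : ℝ) ^ r := by
  classical
  have hf : ∀ j, {n : α | n ∈ X ∧ n ∈ S j}.Finite := fun j => hX.subset fun n hn => hn.1
  have h0 : 0 < r := hr
  have key : {v : Fin r → α | (∀ i, v i ∈ X) ∧ ∃ j, ∀ i, v i ∈ S j} =
      ((J.biUnion fun j => Fintype.piFinset fun _ : Fin r => (hf j).toFinset : Finset (Fin r → α)) :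
        Set (Fin r → α)) := by
    ext v
    rw [Set.mem_ofPred_eq, mem_coe, mem_biUnion]
    constructor
    · rintro ⟨h1, j, h2⟩
      refine ⟨j, hJ _ (h1 ⟨0, h0⟩) j (h2 _), ?_⟩
      rw [Fintype.mem_piFinset]
      intro i
      rw [Set.Finite.mem_toFinset]
      exact ⟨h1 i, h2 i⟩
    · rintro ⟨j, _, h2⟩
      rw [Fintype.mem_piFinset] at h2
      have h3 : ∀ i, v i ∈ X ∧ v i ∈ S j := fun i => (hf j).mem_toFinset.1 (h2 i)
      exact ⟨fun i => (h3 i).1, j, fun i => (h3 i).2⟩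
  rw [key, Set.ncard_coe_finset, card_biUnion]
  · push_cast
    apply sum_congr rfl
    intro j _
    rw [Fintype.card_piFinset_const, Set.ncard_eq_toFinset_card _ (hf j)]
    push_cast
    rfl
  · intro j _ j' _ hne
    rw [Function.onFun, Finset.disjoint_left]
    intro v hv hv'
    rw [Fintype.mem_piFinset] at hv hv'
    exact hne (hS _ _ _ ((hf j).mem_toFinset.1 (hv ⟨0, h0⟩)).2 ((hf j').mem_toFinset.1 (hv' ⟨0, h0⟩)).2)

variable {P : Par} {B : Set ℤ} {κ ω : ℤ → ℤ} {c A₁ A₂ : ℝ} {Ψ Ψ₀ : ℝ → ℝ} {δ δ₀ : ℝ}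

/-- the maximum of the profile -/
theorem pf_max {U : ℝ → ℝ} {a M : ℝ} (h : Prof U a M) (hm : Monotone U) {t : ℝ} (ht : 0 < t) (hU : 0 < U t) :
    (∃ u₁, (∀ u, pf U u ≤ pf U u₁) ∧ 0 < pf U u₁) ∧ ∀ s, 0 < PM U s := by
  have h3 := log3_pos
  have hpos : ∀ u : ℝ, u ≤ -(Real.log t) / Real.log 3 → 0 < pf U u := by
    intro u hu
    unfold pf
    apply mul_pos (Real.exp_pos _)
    refine hU.trans_le (hm ?_)
    rw [le_div_iff₀ h3] at hu
    rw [← Real.log_le_iff_le_exp ht]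
    linarith
  constructor
  · have h0 := hpos _ le_rfl
    obtain ⟨u₁, hu₁⟩ := (pf_cont h.cont).exists_forall_ge' (-(Real.log t) / Real.log 3)
      ((pf_tendsto h).eventually_le_const h0)
    exact ⟨u₁, hu₁, h0.trans_le (hu₁ _)⟩
  · intro s
    obtain ⟨n, hn⟩ := exists_int_lt (-(Real.log t) / Real.log 3 - s)
    exact (hpos (s + n) (by linarith)).trans_le (PM_ge h s n)

section
variable (Lw : Law (CG P B κ ω) (A0 P / lam) (2 * ww P ^ 2 / lam ^ 3) (kap P / ww P) (fun x => Real.log x / ww P) Ψ δ)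
  (Lw₀ : Law (CG PT B κ ω) m0 v0 (kap PT / ww PT) (fun x => Real.log x / ww PT) Ψ₀ δ₀)
  (hS : Size B κ ω c A₁ A₂) (h1 : 2 * A₁ < ww P) (h2 : 2 * A₂ < ww P) (ha : 0 ≤ A₁)
include Lw Lw₀ hS h1 h2 ha

theorem col_max (hD : De m0 (CG PT B κ ω)) (hU : 0 < UU P Ψ c (Real.exp A₂)) :
    ∃ u₁ : ℝ, (∀ u, pf (UU P Ψ c) u ≤ pf (UU P Ψ c) u₁) ∧ 0 < pf (UU P Ψ c) u₁ ∧ ∀ ε : ℝ, 0 < ε →
      ∃ X₀ : ℝ, 2 ≤ X₀ ∧ ∀ x : ℝ, X₀ ≤ x →
      (∀ k l, cell B κ ω k l x ≤ (pf (UU P Ψ c) u₁ + ε) * x / sd v0 x) ∧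
      (∃ k l, (pf (UU P Ψ c) u₁ - ε) * x / sd v0 x ≤ cell B κ ω k l x) ∧
      ∀ k l, (∀ k' l', cell B κ ω k' l' x ≤ cell B κ ω k l x) → |(k : ℝ) - m0 * Real.log x| ≤ ε * √(Real.log x) := by
  have hPr := prof_UU Lw hS h1 h2 ha
  have hUm : Monotone (UU P Ψ c) := UU_mono Lw hS h1 h2
  have L := MC_law Lw Lw₀ hS h1 h2 ha
  obtain ⟨⟨u₁, hu₁, hu0⟩, hPM⟩ := pf_max hPr hUm (Real.exp_pos A₂) hU
  have hint : 0 < ∫ t in (0 : ℝ)..1, PM (UU P Ψ c) (-t) := by
    apply intervalIntegral.intervalIntegral_pos_of_pos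
    · exact ((PM_cont hPr).comp continuous_neg).intervalIntegrable _ _
    · intro t
      exact hPM _
    · exact zero_lt_one
  obtain ⟨t₀, g1, g2, g3⟩ := mode L hint (fun ε hε => by
    obtain ⟨K, _, X₀, hX0, h⟩ := hD ε hε
    exact ⟨K, X₀, hX0, fun x hx j hj => (MC_le B κ ω x j).trans (h x hx j hj)⟩)
  have e : PM (UU P Ψ c) (-t₀) = pf (UU P Ψ c) u₁ := by
    apply le_antisymm
    · exact ciSup_le fun n => hu₁ _
    · have q1 := g1 (-u₁)
      have q2 := PM_ge hPr u₁ 0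
      rw [neg_neg] at q1
      rw [Int.cast_zero, add_zero] at q2
      exact q2.trans q1
  simp only [e] at g2 g3
  refine ⟨u₁, hu₁, hu0, fun ε hε => ?_⟩
  obtain ⟨X₀, hX0, h⟩ := g3 (ε / 2) (by positivity)
  refine ⟨X₀, hX0, fun x hx => ?_⟩
  obtain ⟨q1, ⟨j, q2, q3⟩, q4⟩ := h x hx
  have hx0 : 0 < x := by linarith
  have hl : 0 < Real.log x := Real.log_pos (by linarith)
  have hs : 0 < sd v0 x := sd_pos v0_pos hl
  refine ⟨fun k l => ?_, ?_, fun k l hkl => ?_⟩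
  · refine ((MC_ge B κ ω x k l).trans (q1 k)).trans ?_
    gcongr
    linarith
  · have q5 : (pf (UU P Ψ c) u₁ - ε) * x / sd v0 x < MC B κ ω x j := by
      refine lt_of_lt_of_le ?_ q3
      apply div_lt_div_of_pos_right _ hs
      apply mul_lt_mul_of_pos_right _ hx0
      linarith
    obtain ⟨l, hl⟩ := exists_lt_of_lt_ciSup q5
    exact ⟨j, l, hl.le⟩
  · refine (q4 k fun i => ?_).trans ?_
    · exact (ciSup_le fun l' => hkl i l').trans (MC_ge B κ ω x k l)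
    · apply mul_le_mul_of_nonneg_right _ (Real.sqrt_nonneg _)
      linarith

theorem col_cover : ∀ η : ℝ, 0 < η → ∃ C X₀ : ℝ, 2 ≤ X₀ ∧ ∀ x : ℝ, X₀ ≤ x → ∃ S : Finset (ℤ × ℤ),
    (S.card : ℝ) ≤ C * √(Real.log x) ∧
    ({n : ℤ | 1 ≤ n ∧ (n : ℝ) ≤ x ∧ n ∈ B ∧ (κ n, ω n) ∉ S}.ncard : ℝ) ≤ η * x := by
  classical
  intro η hη
  have h3 := log3_pos
  obtain ⟨K, hK, X₁, hX1, hout⟩ := mass_out Lw₀ (η / 2) (by positivity)
  obtain ⟨D, hD⟩ := exists_nat_ge (max (A₁ / Real.log 3) ((A₂ - Real.log (η / 2)) / Real.log 3))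
  have hD1 : A₁ ≤ D * Real.log 3 := by
    have := (le_max_left _ _).trans hD
    rwa [div_le_iff₀ h3] at this
  have hD2 : Real.exp (A₂ - D * Real.log 3) ≤ η / 2 := by
    have := (le_max_right _ _).trans hD
    rw [div_le_iff₀ h3] at this
    rw [← Real.exp_log (by positivity : 0 < η / 2)]
    apply Real.exp_le_exp.2
    linarith
  refine ⟨(2 * K + 2) * (2 * D + 2), max X₁ 3, le_max_of_le_left hX1, fun x hx => ?_⟩
  have hx1 := (le_max_left _ _).trans hx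
  have hx3 : 3 ≤ x := (le_max_right _ _).trans hx
  have hx0 : 0 < x := by linarith
  have hl1 : 1 ≤ Real.log x := by
    rw [Real.le_log_iff_exp_le hx0]
    linarith [Real.exp_one_lt_d9]
  have hr1 : 1 ≤ √(Real.log x) := by rw [← Real.sqrt_one]; exact Real.sqrt_le_sqrt hl1
  let S : Finset (ℤ × ℤ) := (win m0 K x).biUnion fun k =>
    (Icc (⌈l0 c x k⌉ - (D : ℤ)) (⌊l0 c x k⌋ + D)).image fun l => (k, l)
  have hmem : ∀ k l : ℤ, |(k : ℝ) - m0 * Real.log x| ≤ K * √(Real.log x) → -(D : ℝ) ≤ l0 c x k - l → l0 c x k - l ≤ D →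
      (k, l) ∈ S := by
    intro k l hk g1 g2
    show (k, l) ∈ (win m0 K x).biUnion fun k =>
      (Icc (⌈l0 c x k⌉ - (D : ℤ)) (⌊l0 c x k⌋ + D)).image fun l => (k, l)
    rw [mem_biUnion]
    refine ⟨k, mem_win.2 hk, mem_image.2 ⟨l, mem_Icc.2 ⟨?_, ?_⟩, rfl⟩⟩
    · have : l0 c x k ≤ ((l + D : ℤ) : ℝ) := by push_cast; linarith
      have := Int.ceil_le.2 this
      omega
    · have : ((l - D : ℤ) : ℝ) ≤ l0 c x k := by push_cast; linarith
      have := Int.le_floor.2 this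
      omega
  refine ⟨S, ?_, ?_⟩
  · have q1 : (S.card : ℝ) ≤ ((win m0 K x).card : ℝ) * (2 * D + 1) := by
      have q2 : S.card ≤ ∑ k ∈ win m0 K x, (2 * D + 1) := by
        refine card_biUnion_le.trans (Finset.sum_le_sum fun k _ => card_image_le.trans ?_)
        rw [Int.card_Icc]
        have := Int.floor_le_ceil (l0 c x k)
        omega
      rw [Finset.sum_const, smul_eq_mul] at q2
      exact_mod_cast q2
    have q3 : ((win m0 K x).card : ℝ) ≤ (2 * K + 2) * √(Real.log x) := by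
      unfold win
      rw [Int.card_Icc]
      have e1 : ((⌊m0 * Real.log x + K * √(Real.log x)⌋ + 1 - ⌈m0 * Real.log x - K * √(Real.log x)⌉).toNat : ℝ) ≤
          2 * (K * √(Real.log x)) + 1 := by
        have e2 := Int.floor_le (m0 * Real.log x + K * √(Real.log x))
        have e3 := Int.le_ceil (m0 * Real.log x - K * √(Real.log x))
        have e4 : ((⌊m0 * Real.log x + K * √(Real.log x)⌋ + 1 - ⌈m0 * Real.log x - K * √(Real.log x)⌉ : ℤ) : ℝ) ≤
            2 * (K * √(Real.log x)) + 1 := by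
          push_cast
          linarith
        rcases le_total 0 (⌊m0 * Real.log x + K * √(Real.log x)⌋ + 1 - ⌈m0 * Real.log x - K * √(Real.log x)⌉) with h | h
        · have e5 : ((⌊m0 * Real.log x + K * √(Real.log x)⌋ + 1 - ⌈m0 * Real.log x - K * √(Real.log x)⌉).toNat : ℝ) =
              ((⌊m0 * Real.log x + K * √(Real.log x)⌋ + 1 - ⌈m0 * Real.log x - K * √(Real.log x)⌉ : ℤ) : ℝ) := by
            exact_mod_cast Int.toNat_of_nonneg h
          rw [e5]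
          exact e4
        · rw [Int.toNat_of_nonpos h]
          push_cast
          positivity
      linarith
    calc (S.card : ℝ) ≤ ((win m0 K x).card : ℝ) * (2 * D + 1) := q1
      _ ≤ ((2 * K + 2) * √(Real.log x)) * (2 * D + 2) := by
          apply mul_le_mul q3 (by linarith) (by positivity) (by positivity)
      _ = _ := by ring
  · -- outside
    have hf1 : {n : ℤ | 1 ≤ n ∧ (n : ℝ) ≤ x ∧ n ∈ B ∧ κ n ∉ win m0 K x}.Finite :=
      fin_set {n : ℤ | n ∈ B ∧ κ n ∉ win m0 K x} x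
    have hf2 : {n : ℤ | 1 ≤ n ∧ (n : ℝ) ≤ η / 2 * x ∧ n ∈ (Set.univ : Set ℤ)}.Finite := fin_set _ _
    have hsub : {n : ℤ | 1 ≤ n ∧ (n : ℝ) ≤ x ∧ n ∈ B ∧ (κ n, ω n) ∉ S} ⊆
        {n : ℤ | 1 ≤ n ∧ (n : ℝ) ≤ x ∧ n ∈ B ∧ κ n ∉ win m0 K x} ∪
        {n : ℤ | 1 ≤ n ∧ (n : ℝ) ≤ η / 2 * x ∧ n ∈ (Set.univ : Set ℤ)} := by
      rintro n ⟨g1, g2, g3, g4⟩
      by_cases hk : κ n ∈ win m0 K x
      · right
        refine ⟨g1, ?_, Set.mem_univ _⟩
        have hn : (0 : ℝ) < n := by exact_mod_cast (by omega : 0 < n)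
        obtain ⟨g5, g6⟩ := hS n g3 g1
        rw [LW_l0 c x] at g5 g6
        have g7 : Real.log n ≤ Real.log x := Real.log_le_log hn g2
        have g8 : l0 c x (κ n) - ω n ≤ D := by
          have : (l0 c x (κ n) - ω n) * Real.log 3 ≤ D * Real.log 3 := by linarith
          exact le_of_mul_le_mul_right this h3
        have g9 : l0 c x (κ n) - ω n < -(D : ℝ) := by
          by_contra hcon
          exact g4 (hmem _ _ (mem_win.1 hk) (not_lt.1 hcon) g8)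
        have g10 : Real.log n ≤ Real.log x + (A₂ - D * Real.log 3) := by
          have := mul_lt_mul_of_pos_right g9 h3
          linarith
        have g11 := Real.exp_le_exp.2 g10
        rw [Real.exp_log hn, Real.exp_add, Real.exp_log hx0] at g11
        calc (n : ℝ) ≤ x * Real.exp (A₂ - D * Real.log 3) := g11
          _ ≤ x * (η / 2) := mul_le_mul_of_nonneg_left hD2 hx0.le
          _ = η / 2 * x := by ring
      · left
        exact ⟨g1, g2, g3, hk⟩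
    have q1 := (Set.ncard_le_ncard hsub (hf1.union hf2)).trans (Set.ncard_union_le _ _)
    have q2 : (({n : ℤ | 1 ≤ n ∧ (n : ℝ) ≤ η / 2 * x ∧ n ∈ (Set.univ : Set ℤ)}.ncard : ℕ) : ℝ) ≤ η / 2 * x :=
      ncard_int_le Set.univ (by positivity)
    have q3 : ({n : ℤ | 1 ≤ n ∧ (n : ℝ) ≤ x ∧ n ∈ B ∧ κ n ∉ win m0 K x}.ncard : ℝ) ≤ η / 2 * x := by
      refine le_trans (le_of_eq ?_) (hout x hx1 (labs B κ x \ win m0 K x) (fun j hj => by
        have := (mem_sdiff.1 hj).2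
        rw [mem_win] at this
        exact lt_of_not_ge this))
      rw [Set.ncard_eq_toFinset_card _ hf1, Finset.card_eq_sum_card_fiberwise (f := κ) (t := labs B κ x \ win m0 K x)]
      · push_cast
        apply Finset.sum_congr rfl
        intro k hk
        rw [CG_ncard, ← Set.ncard_coe_finset]
        congr 2
        ext n
        rw [mem_coe, mem_filter, Set.Finite.mem_toFinset]
        constructor
        · rintro ⟨⟨g1, g2, g3, g4⟩, g5⟩
          refine ⟨g1, g2, g3, ?_⟩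
          show ((0 : ℕ) : ℤ) * ω n + ((1 : ℕ) : ℤ) * κ n = k
          push_cast
          omega
        · rintro ⟨g1, g2, g3, g4⟩
          have g4' : ((0 : ℕ) : ℤ) * ω n + ((1 : ℕ) : ℤ) * κ n = k := g4
          push_cast at g4'
          have g5 : κ n = k := by omega
          refine ⟨⟨g1, g2, g3, ?_⟩, g5⟩
          rw [g5]
          exact (mem_sdiff.1 hk).2
      · intro n hn
        rw [mem_coe, Set.Finite.mem_toFinset] at hn
        obtain ⟨g1, g2, g3, g4⟩ := hn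
        refine mem_coe.2 (mem_sdiff.2 ⟨?_, g4⟩)
        unfold labs
        rw [mem_image]
        exact ⟨n, (Set.Finite.mem_toFinset _).2 ⟨g1, g2, g3⟩, rfl⟩
    have q4 : ({n : ℤ | 1 ≤ n ∧ (n : ℝ) ≤ x ∧ n ∈ B ∧ (κ n, ω n) ∉ S}.ncard : ℝ) ≤
        ({n : ℤ | 1 ≤ n ∧ (n : ℝ) ≤ x ∧ n ∈ B ∧ κ n ∉ win m0 K x}.ncard : ℝ) +
        ({n : ℤ | 1 ≤ n ∧ (n : ℝ) ≤ η / 2 * x ∧ n ∈ (Set.univ : Set ℤ)}.ncard : ℝ) := by exact_mod_cast q1
    linarith

end

end Pool.Agent.L7h55.GC
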