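import Pool.Agent.L7h55.GC.Growth

/-!
The number of the integers with a given growth constant.
-/

set_option autoImplicit false

namespace Pool.Agent.L7h55.GC

open Filter Topology
open Pool.Agent.R468.GL
open Pool.Agent.R468.MF
open Pool.Agent.R468.MG
open Pool.Agent.H499R2.ND (Td HD Mg Mg_inv Mg_self Mg_iter Mg_symm class_pos Td_side side_odd side_cop cop_of_not_dvd)
open Pool.Agent.R468.LL (lam lam_eq lam_pos lam_lt)

/-- weights with a large ratio -/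
theorem exists_par (A : ℝ) : ∃ P : Par, 2 * A < ww P := by
  refine ⟨⟨1, ⌈2 * A⌉₊ + 1, 0, 1, by simp⟩, ?_⟩
  have h1 : 2 * A ≤ (⌈2 * A⌉₊ : ℝ) := Nat.le_ceil _
  have h3 : 1 ≤ Real.log 3 := by
    rw [Real.le_log_iff_exp_le (by norm_num)]
    linarith [Real.exp_one_lt_d9]
  have h2 : 0 < Real.log 2 := Real.log_pos (by norm_num)
  have h4 : (0 : ℝ) ≤ (⌈2 * A⌉₊ : ℝ) := Nat.cast_nonneg _
  unfold ww
  push_cast
  nlinarith

theorem w_exp {w : ℝ} (hw : w ≠ 0) (k l : ℤ) : |w| * 2 ^ k / 3 ^ l = Real.exp (LW (Real.log |w|) k l) := by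
  have h2 : (0 : ℝ) < 2 ^ k := by positivity
  have h3 : (0 : ℝ) < 3 ^ l := by positivity
  rw [← log_w hw, Real.exp_log (abs_pos.2 (by positivity)), abs_div, abs_mul, abs_of_pos h2, abs_of_pos h3]

theorem main : ∃ A : ℝ, ∀ n0 : ℤ, Dv n0 → ∃ w : ℝ, w ≠ 0 ∧ Gc n0 w ∧
    (∀ m : ℤ, m ∈ Mg (Td 1) n0 → ∃ k l : ℤ, Gc m (w * 2 ^ k / 3 ^ l)) ∧
    ∃ (c : ℝ) (U : ℝ → ℝ), 0 < c ∧ Continuous U ∧ Monotone U ∧
      (∀ t : ℝ, t ≤ Real.exp (-A) → U t = 0) ∧ (∀ t : ℝ, Real.exp A ≤ t → U t = c) ∧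
      (0 < n0 → ∀ t : ℝ, 1 ≤ t → U t = c) ∧ (n0 < 0 → ∀ t : ℝ, t ≤ 1 → U t = 0) ∧
      ∀ K ε : ℝ, 0 < ε → ∃ X₀ : ℝ, ∀ (k l : ℤ) (W : ℝ), W = |w| * 2 ^ k / 3 ^ l → X₀ ≤ W →
        |(k : ℝ) - 2 / Real.log (4 / 3) * Real.log W| ≤ K * Real.sqrt (Real.log W) → ∀ t : ℝ,
        |({m : ℤ | m ∈ Mg (Td 1) n0 ∧ Gc m (w * 2 ^ k / 3 ^ l) ∧ |(m : ℝ)| ≤ t * W}.ncard : ℝ) /
          (W * gn (2 / Real.log (4 / 3)) (2 * Real.log 3 ^ 2 / Real.log (4 / 3) ^ 3) W k) - U t| ≤ ε := by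
  obtain ⟨A, hA0, hA⟩ := gc_exists
  refine ⟨A, fun n0 hd => ?_⟩
  have hinj : Function.Injective (fun c : ℕ => (Td 1)^[c] n0) :=
    Pool.Agent.Results.MP_ff4775_nt.DivergentAsymptotics.injective_of_tendsto hd
  have hn0 : n0 ≠ 0 := by
    rintro rfl
    have : (0 : ℕ) = 1 := hinj (by decide)
    omega
  obtain ⟨s, hs, h0⟩ : ∃ s : ℤ, (s = 1 ∨ s = -1) ∧ 0 < s * n0 := by
    rcases lt_or_gt_of_ne hn0 with h | h
    · exact ⟨-1, Or.inr rfl, by omega⟩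
    · exact ⟨1, Or.inl rfl, by omega⟩
  obtain ⟨w, hw0, hw, -⟩ := hA n0 hd
  refine ⟨w, hw0, hw, fun m hm => ?_, ?_⟩
  · obtain ⟨a, b, h⟩ := hm
    exact ⟨_, _, gc_merge h hw⟩
  obtain ⟨P, hP⟩ := exists_par A
  have hww := ww_pos P
  obtain ⟨δ, Ψ, -, -, hHD, hΨ, Lw, -, -⟩ := mg_law P (side_odd odd_one hs) (side_cop isCoprime_one_left hs)
    (inj_side odd_one hs hinj)
  have h2' : HD s (Mg (Td 1) n0) δ := by
    rw [HD_one, Mg_side odd_one hs] at hHD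
    exact hHD
  have hδ : 0 < δ := by
    obtain ⟨a, g1, g2, g3⟩ := good_term hs h0
    exact class_pos odd_one (by omega) hs (Mg_inv 1 n0) g1 g2 g3 h2'
  have hΨ0 : ∀ t, 0 < Ψ t := fun t => by
    refine lt_of_lt_of_le ?_ (hΨ t).1
    have h1 := qr_pos P
    have h2 := qr_lt P
    have h3 : 0 < 1 - qr P := by linarith
    positivity
  have hS := size_mg hs h0 hd hinj hA0 hA hw0 hw
  have h1 : 2 * (if s = 1 then A else 0) < ww P := by split_ifs <;> linarith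
  have h2 : 2 * (if s = 1 then 0 else A) < ww P := by split_ifs <;> linarith
  refine ⟨UU P Ψ (Real.log |w|) (Real.exp (if s = 1 then 0 else A)), UU P Ψ (Real.log |w|),
    UU_pos Lw hS h1 h2 hΨ0, UU_cont Lw.cont, UU_mono Lw hS h1 h2, fun t ht => ?_, fun t ht => ?_, fun hn t ht => ?_,
    fun hn t ht => ?_, fun K ε hε => ?_⟩
  · refine UU_low Lw hS h1 h2 (ht.trans (Real.exp_le_exp.2 ?_))
    split_ifs <;> linarith
  · refine UU_high Lw hS h1 h2 (le_trans (Real.exp_le_exp.2 ?_) ht)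
    split_ifs <;> linarith
  · have hs1 : s = 1 := by rcases hs with rfl | rfl <;> omega
    refine UU_high Lw hS h1 h2 (le_trans (le_of_eq ?_) ht)
    rw [if_pos hs1, Real.exp_zero]
  · have hs1 : s ≠ 1 := by rcases hs with rfl | rfl <;> omega
    refine UU_low Lw hS h1 h2 (ht.trans (le_of_eq ?_))
    rw [if_neg hs1, neg_zero, Real.exp_zero]
  · obtain ⟨L₀, hL₀, h⟩ := cell_law Lw hS h1 h2 (abs_nonneg K) hε
    refine ⟨Real.exp L₀, fun k l W hW hX hk t => ?_⟩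
    rw [w_exp hw0] at hW
    subst hW
    rw [cnt_cell hs h0 hinj hw0 hw]
    refine h k l (Real.exp_le_exp.1 hX) ?_ t
    rw [Real.log_exp] at hk
    refine le_trans hk ?_
    exact mul_le_mul_of_nonneg_right (le_abs_self K) (Real.sqrt_nonneg _)

end Pool.Agent.L7h55.GC
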