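import Pool.Agent.L7h55.GC.Eq5
import Pool.Agent.L7h55.GC.Main

/-!
Equal growth constants.
-/

set_option autoImplicit false

namespace Pool.Agent.L7h55.GC

open Finset Filter Topology MeasureTheory
open Pool.Agent.R468.GL
open Pool.Agent.R468.MF
open Pool.Agent.R468.MG
open Pool.Agent.H499R2.ND (Td HD Mg Mg_inv Mg_self Mg_iter Mg_symm class_pos Td_side side_odd side_cop cop_of_not_dvd)
open Pool.Agent.R468.LL (lam lam_eq lam_pos lam_lt)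

theorem pf_change (U : ℝ → ℝ) (r : ℕ) :
    ∫ u, pf U u ^ r = 1 / Real.log 3 * ∫ s : ℝ, (U (Real.exp s) / Real.exp s) ^ r := by
  have h3 := log3_pos
  have h := Measure.integral_comp_mul_left (fun s : ℝ => (U (Real.exp s) / Real.exp s) ^ r) (-(Real.log 3))
  have e : ∀ u : ℝ, (U (Real.exp (-(Real.log 3) * u)) / Real.exp (-(Real.log 3) * u)) ^ r = pf U u ^ r := by
    intro u
    unfold pf
    have e1 : -(Real.log 3) * u = -(u * Real.log 3) := by ring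
    rw [e1, Real.exp_neg, div_inv_eq_mul, mul_comm]
  simp only [e] at h
  rw [h, smul_eq_mul, abs_inv, abs_neg, abs_of_pos h3, one_div]

theorem pf_div (U : ℝ → ℝ) {t : ℝ} (ht : 0 < t) : U t / t = pf U (-(Real.log t) / Real.log 3) := by
  have h3 := log3_pos
  unfold pf
  have e : -(Real.log t) / Real.log 3 * Real.log 3 = -Real.log t := by field_simp
  rw [e, neg_neg, Real.exp_neg, Real.exp_log ht]
  ring

section
variable {s : ℤ} (hs : s = 1 ∨ s = -1) {n0 : ℤ} (h0 : 0 < s * n0)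
    (hinj : Function.Injective (fun c : ℕ => (Td 1)^[c] n0)) {w : ℝ} (hw0 : w ≠ 0) (hw : Gc n0 w)
include hs h0 hinj hw0 hw

/-- the data of an element of the class -/
theorem elt {m : ℤ} (hm : m ∈ Mg (Td 1) n0) : 1 ≤ s * m ∧ |(m : ℝ)| = ((s * m : ℤ) : ℝ) ∧
    s * m ∈ Mg (Td (s * 1)) (s * n0) ∧
    Gc m (w * 2 ^ (mk (s * 1) (s * n0) (s * m)) / 3 ^ (mo (s * 1) (s * n0) (s * m))) := by
  have h : 0 < s * m := by
    obtain ⟨a, b, h⟩ := hm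
    exact mer_sgn hs h0 h
  have hsm : s * (s * m) = m := by rcases hs with rfl | rfl <;> ring
  have g4 : s * (s * m) ∈ Mg (Td 1) n0 := by rw [hsm]; exact hm
  have g5 := gc_stat hs hinj hw g4
  rw [hsm] at g5
  refine ⟨by omega, ?_, ?_, g5⟩
  · have hm' : (0 : ℝ) < ((s * m : ℤ) : ℝ) := by exact_mod_cast h
    rcases hs with rfl | rfl
    · push_cast at hm' ⊢
      rw [one_mul] at hm' ⊢
      rw [abs_of_pos hm']
    · push_cast at hm' ⊢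
      rw [neg_one_mul] at hm' ⊢
      rw [abs_of_neg (by linarith)]
  · rw [Mg_side odd_one hs]
    exact g4

/-- the number of the elements with the growth constant `u` -/
theorem cnt_le {C x : ℝ} (hC : 0 ≤ C) (h : ∀ k l, cell (Mg (Td (s * 1)) (s * n0)) (mk (s * 1) (s * n0)) (mo (s * 1) (s * n0)) k l x ≤ C)
    (u : ℝ) : ({m : ℤ | m ∈ Mg (Td 1) n0 ∧ Gc m u ∧ |(m : ℝ)| ≤ x}.ncard : ℝ) ≤ C := by
  rcases Set.eq_empty_or_nonempty {m : ℤ | m ∈ Mg (Td 1) n0 ∧ Gc m u ∧ |(m : ℝ)| ≤ x} with he | ⟨m, h1, h2, h3⟩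
  · rw [he, Set.ncard_empty, Nat.cast_zero]
    exact hC
  · obtain ⟨_, _, _, g⟩ := elt hs h0 hinj hw0 hw h1
    rw [gc_unique h2 g, cnt_cell hs h0 hinj hw0 hw]
    exact h _ _

theorem fin_abs (x : ℝ) : {m : ℤ | m ∈ Mg (Td 1) n0 ∧ |(m : ℝ)| ≤ x}.Finite := by
  apply (Set.finite_Icc (-⌊x⌋) ⌊x⌋).subset
  rintro m ⟨_, h⟩
  rw [abs_le] at h
  constructor
  · have : -x ≤ (m : ℝ) := h.1
    have h2 : ((-m : ℤ) : ℝ) ≤ x := by push_cast; linarith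
    have := Int.le_floor.2 h2
    omega
  · exact Int.le_floor.2 h.2

/-- the tuples -/
theorem tup_cnt (x : ℝ) {r : ℕ} (hr : 1 ≤ r) :
    ({v : Fin r → ℤ | (∀ i, v i ∈ Mg (Td 1) n0 ∧ |(v i : ℝ)| ≤ x) ∧ ∃ u, ∀ i, Gc (v i) u}.ncard : ℝ) =
      ∑ k ∈ labs (Mg (Td (s * 1)) (s * n0)) (mk (s * 1) (s * n0)) x,
        FP (Mg (Td (s * 1)) (s * n0)) (mk (s * 1) (s * n0)) (mo (s * 1) (s * n0)) r x k := by
  have hlab : ∀ m : ℤ, m ∈ Mg (Td 1) n0 → |(m : ℝ)| ≤ x → ∀ k l : ℤ, Gc m (w * 2 ^ k / 3 ^ l) →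
      k ∈ labs (Mg (Td (s * 1)) (s * n0)) (mk (s * 1) (s * n0)) x ∧
      l ∈ labs (Mg (Td (s * 1)) (s * n0)) (mo (s * 1) (s * n0)) x := by
    intro m h1 h2 k l h3
    obtain ⟨g1, g2, g3, g4⟩ := elt hs h0 hinj hw0 hw h1
    obtain ⟨e1, e2⟩ := w_unique hw0 (gc_unique h3 g4)
    rw [g2] at h2
    unfold labs
    rw [mem_image, mem_image]
    exact ⟨⟨s * m, (Set.Finite.mem_toFinset _).2 ⟨g1, h2, g3⟩, e1.symm⟩, ⟨s * m, (Set.Finite.mem_toFinset _).2 ⟨g1, h2, g3⟩, e2.symm⟩⟩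
  have key := tuples_gen (S := fun p : ℤ × ℤ => {m : ℤ | Gc m (w * 2 ^ p.1 / 3 ^ p.2)})
    (fun n j j' h1 h2 => by
      obtain ⟨e1, e2⟩ := w_unique hw0 (gc_unique h1 h2)
      exact Prod.ext e1 e2)
    (fin_abs hs h0 hinj hw0 hw x) hr (labs (Mg (Td (s * 1)) (s * n0)) (mk (s * 1) (s * n0)) x ×ˢ
      labs (Mg (Td (s * 1)) (s * n0)) (mo (s * 1) (s * n0)) x) (fun m hm p hp => by
      obtain ⟨g1, g2⟩ := hlab m hm.1 hm.2 p.1 p.2 hp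
      exact mem_product.2 ⟨g1, g2⟩)
  have e : {v : Fin r → ℤ | (∀ i, v i ∈ Mg (Td 1) n0 ∧ |(v i : ℝ)| ≤ x) ∧ ∃ u, ∀ i, Gc (v i) u} =
      {v : Fin r → ℤ | (∀ i, v i ∈ {m : ℤ | m ∈ Mg (Td 1) n0 ∧ |(m : ℝ)| ≤ x}) ∧
        ∃ j : ℤ × ℤ, ∀ i, v i ∈ {m : ℤ | Gc m (w * 2 ^ j.1 / 3 ^ j.2)}} := by
    ext v
    constructor
    · rintro ⟨h1, u, h2⟩
      refine ⟨h1, ?_⟩
      obtain ⟨_, _, _, g⟩ := elt hs h0 hinj hw0 hw (h1 ⟨0, hr⟩).1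
      refine ⟨(mk (s * 1) (s * n0) (s * v ⟨0, hr⟩), mo (s * 1) (s * n0) (s * v ⟨0, hr⟩)), fun i => ?_⟩
      have e1 := gc_unique (h2 ⟨0, hr⟩) g
      show Gc (v i) _
      rw [← e1]
      exact h2 i
    · rintro ⟨h1, p, h2⟩
      exact ⟨h1, _, h2⟩
  rw [e, key, sum_product]
  apply Finset.sum_congr rfl
  intro k _
  unfold FP
  apply Finset.sum_congr rfl
  intro l _
  rw [← cnt_cell hs h0 hinj hw0 hw]
  congr 3
  ext m
  simp only [Set.mem_ofPred_eq]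
  tauto

end

theorem main_eq : ∃ A : ℝ, ∀ n0 : ℤ, Dv n0 → ∃ w : ℝ, w ≠ 0 ∧ Gc n0 w ∧
    (∀ m : ℤ, m ∈ Mg (Td 1) n0 → ∃ k l : ℤ, Gc m (w * 2 ^ k / 3 ^ l)) ∧
    ∃ U : ℝ → ℝ, Continuous U ∧ Monotone U ∧ (∀ t : ℝ, t ≤ Real.exp (-A) → U t = 0) ∧
      (∀ t : ℝ, Real.exp A ≤ t → U t = U (Real.exp A)) ∧ 0 < U (Real.exp A) ∧
      (∀ K ε : ℝ, 0 < ε → ∃ X₀ : ℝ, ∀ (k l : ℤ) (W : ℝ), W = |w| * 2 ^ k / 3 ^ l → X₀ ≤ W →
        |(k : ℝ) - 2 / Real.log (4 / 3) * Real.log W| ≤ K * Real.sqrt (Real.log W) → ∀ t : ℝ,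
        |({m : ℤ | m ∈ Mg (Td 1) n0 ∧ Gc m (w * 2 ^ k / 3 ^ l) ∧ |(m : ℝ)| ≤ t * W}.ncard : ℝ) /
          (W * gn (2 / Real.log (4 / 3)) (2 * Real.log 3 ^ 2 / Real.log (4 / 3) ^ 3) W k) - U t| ≤ ε) ∧
      (∀ r : ℕ, 1 ≤ r → Tendsto (fun x : ℝ =>
        sd (2 * Real.log 3 ^ 2 / Real.log (4 / 3) ^ 3) x ^ (r - 1) / x ^ r *
        ({v : Fin r → ℤ | (∀ i, v i ∈ Mg (Td 1) n0 ∧ |(v i : ℝ)| ≤ x) ∧ ∃ u, ∀ i, Gc (v i) u}.ncard : ℝ)) atTop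
        (𝓝 (1 / √r * (1 / Real.log 3 * ∫ s : ℝ, (U (Real.exp s) / Real.exp s) ^ r)))) ∧
      (∃ t₁ : ℝ, 0 < t₁ ∧ (∀ t : ℝ, 0 < t → U t / t ≤ U t₁ / t₁) ∧ 0 < U t₁ ∧ ∀ ε : ℝ, 0 < ε → ∃ X₀ : ℝ, 2 ≤ X₀ ∧
        ∀ x : ℝ, X₀ ≤ x →
        (∀ u : ℝ, ({m : ℤ | m ∈ Mg (Td 1) n0 ∧ Gc m u ∧ |(m : ℝ)| ≤ x}.ncard : ℝ) ≤
          (U t₁ / t₁ + ε) * x / sd (2 * Real.log 3 ^ 2 / Real.log (4 / 3) ^ 3) x) ∧
        (∃ u : ℝ, (U t₁ / t₁ - ε) * x / sd (2 * Real.log 3 ^ 2 / Real.log (4 / 3) ^ 3) x ≤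
          ({m : ℤ | m ∈ Mg (Td 1) n0 ∧ Gc m u ∧ |(m : ℝ)| ≤ x}.ncard : ℝ)) ∧
        ∀ k l : ℤ, (∀ u : ℝ, ({m : ℤ | m ∈ Mg (Td 1) n0 ∧ Gc m u ∧ |(m : ℝ)| ≤ x}.ncard : ℝ) ≤
          ({m : ℤ | m ∈ Mg (Td 1) n0 ∧ Gc m (w * 2 ^ k / 3 ^ l) ∧ |(m : ℝ)| ≤ x}.ncard : ℝ)) →
          |(k : ℝ) - 2 / Real.log (4 / 3) * Real.log x| ≤ ε * Real.sqrt (Real.log x)) ∧
      (∀ η : ℝ, 0 < η → ∃ C X₀ : ℝ, ∀ x : ℝ, X₀ ≤ x → ∃ S : Finset ℝ, (S.card : ℝ) ≤ C * √(Real.log x) ∧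
        ({m : ℤ | m ∈ Mg (Td 1) n0 ∧ |(m : ℝ)| ≤ x ∧ ¬ ∃ u ∈ S, Gc m u}.ncard : ℝ) ≤ η * x) ∧
      ∀ η : ℝ, 0 < η → ∃ c X₀ : ℝ, 0 < c ∧ ∀ x : ℝ, X₀ ≤ x → ∀ S : Finset ℝ,
        η * x ≤ ({m : ℤ | m ∈ Mg (Td 1) n0 ∧ |(m : ℝ)| ≤ x ∧ ∃ u ∈ S, Gc m u}.ncard : ℝ) →
        c * √(Real.log x) ≤ S.card := by
  classical
  obtain ⟨A, hA0, hA⟩ := gc_exists
  refine ⟨A, fun n0 hd => ?_⟩
  have hinj : Function.Injective (fun c : ℕ => (Td 1)^[c] n0) :=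
    Pool.Agent.Results.MP_ff4775_nt.DivergentAsymptotics.injective_of_tendsto hd
  have hn0 : n0 ≠ 0 := by
    rintro rfl
    have : (0 : ℕ) = 1 := hinj (by decide)
    omega
  obtain ⟨s, hs, h0⟩ : ∃ s : ℤ, (s = 1 ∨ s = -1) ∧ 0 < s * n0 := by
    rcases lt_or_gt_of_ne hn0 with h | h
    · exact ⟨-1, Or.inr rfl, by omega⟩
    · exact ⟨1, Or.inl rfl, by omega⟩
  obtain ⟨w, hw0, hw, -⟩ := hA n0 hd
  refine ⟨w, hw0, hw, fun m hm => ?_, ?_⟩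
  · obtain ⟨a, b, h⟩ := hm
    exact ⟨_, _, gc_merge h hw⟩
  obtain ⟨P, hP⟩ := exists_par A
  have hww := ww_pos P
  have h3 := log3_pos
  obtain ⟨δ, Ψ, -, -, hHD, hΨ, Lw, -, -⟩ := mg_law P (side_odd odd_one hs) (side_cop isCoprime_one_left hs)
    (inj_side odd_one hs hinj)
  obtain ⟨δ₀, Ψ₀, -, -, -, -, Lw₀, hUp, hDe⟩ := mg_law PT (side_odd odd_one hs) (side_cop isCoprime_one_left hs)
    (inj_side odd_one hs hinj)
  have em : A0 PT / lam = m0 := by rw [A0_PT]; rfl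
  have ev : 2 * ww PT ^ 2 / lam ^ 3 = v0 := by rw [ww_PT]; rfl
  rw [em, ev] at Lw₀
  rw [em] at hDe
  have h2' : HD s (Mg (Td 1) n0) δ := by
    rw [HD_one, Mg_side odd_one hs] at hHD
    exact hHD
  have hδ : 0 < δ := by
    obtain ⟨a, g1, g2, g3⟩ := good_term hs h0
    exact class_pos odd_one (by omega) hs (Mg_inv 1 n0) g1 g2 g3 h2'
  have hΨ0 : ∀ t, 0 < Ψ t := fun t => by
    refine lt_of_lt_of_le ?_ (hΨ t).1
    have h1 := qr_pos P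
    have h2 := qr_lt P
    have h3 : 0 < 1 - qr P := by linarith
    positivity
  have hS := size_mg hs h0 hd hinj hA0 hA hw0 hw
  have h1 : 2 * (if s = 1 then A else 0) < ww P := by split_ifs <;> linarith
  have h2 : 2 * (if s = 1 then 0 else A) < ww P := by split_ifs <;> linarith
  have ha : 0 ≤ (if s = 1 then A else 0) := by split_ifs <;> linarith
  have hcell := cnt_cell hs h0 hinj hw0 hw
  obtain ⟨B, hB⟩ : ∃ B : Set ℤ, B = Mg (Td (s * 1)) (s * n0) := ⟨_, rfl⟩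
  obtain ⟨κ, hκ⟩ : ∃ κ : ℤ → ℤ, κ = mk (s * 1) (s * n0) := ⟨_, rfl⟩
  obtain ⟨ω, hω⟩ : ∃ ω : ℤ → ℤ, ω = mo (s * 1) (s * n0) := ⟨_, rfl⟩
  rw [← hB, ← hκ, ← hω] at Lw Lw₀ hUp hDe hS
  have hcnt := @cnt_le s hs n0 h0 hinj w hw0 hw
  have htup := @tup_cnt s hs n0 h0 hinj w hw0 hw
  have helt := @elt s hs n0 h0 hinj w hw0 hw
  simp only [← hB, ← hκ, ← hω] at hcell hcnt htup helt
  obtain ⟨U, hU⟩ : ∃ U : ℝ → ℝ, U = UU P Ψ (Real.log |w|) := ⟨_, rfl⟩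
  have hUlow : ∀ t : ℝ, t ≤ Real.exp (-A) → U t = 0 := fun t ht => by
    rw [hU]
    refine UU_low Lw hS h1 h2 (ht.trans (Real.exp_le_exp.2 ?_))
    split_ifs <;> linarith
  have hUA : U (Real.exp (if s = 1 then 0 else A)) = U (Real.exp A) := by
    rw [hU]
    symm
    refine UU_high Lw hS h1 h2 (Real.exp_le_exp.2 ?_)
    split_ifs <;> linarith
  have hUhigh : ∀ t : ℝ, Real.exp A ≤ t → U t = U (Real.exp A) := fun t ht => by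
    rw [← hUA, hU]
    refine UU_high Lw hS h1 h2 (le_trans (Real.exp_le_exp.2 ?_) ht)
    split_ifs <;> linarith
  have hUpos : 0 < UU P Ψ (Real.log |w|) (Real.exp (if s = 1 then 0 else A)) := UU_pos Lw hS h1 h2 hΨ0
  have hUpos' : 0 < U (Real.exp A) := by rw [← hUA, hU]; exact hUpos
  obtain ⟨A', hA', hu⟩ := up_all hUp (c := 1) (by norm_num) (fun x hx j => by
    rw [one_mul]; exact CG_triv B κ ω hx j)
  obtain ⟨u₁, hu1, hu2, hmax⟩ := col_max Lw Lw₀ hS h1 h2 ha hDe hUpos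
  rw [← hU] at hu1 hu2 hmax
  -- the maximum in terms of `t`
  obtain ⟨t₁, ht₁⟩ : ∃ t₁ : ℝ, t₁ = Real.exp (-(u₁ * Real.log 3)) := ⟨_, rfl⟩
  have ht0 : 0 < t₁ := by rw [ht₁]; exact Real.exp_pos _
  have e1 : U t₁ / t₁ = pf U u₁ := by
    rw [pf_div U ht0]
    congr 1
    rw [ht₁, Real.log_exp]
    field_simp
  have hsd : ∀ x : ℝ, sd v0 x = sd (2 * Real.log 3 ^ 2 / Real.log (4 / 3) ^ 3) x := fun x => rfl
  refine ⟨U, by rw [hU]; exact UU_cont Lw.cont, by rw [hU]; exact UU_mono Lw hS h1 h2, hUlow, hUhigh, hUpos', ?_, ?_, ?_, ?_, ?_⟩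
  · intro K ε hε
    obtain ⟨L₀, hL₀, h⟩ := cell_law Lw hS h1 h2 (abs_nonneg K) hε
    refine ⟨Real.exp L₀, fun k l W hW hX hk t => ?_⟩
    rw [w_exp hw0] at hW
    subst hW
    rw [hcell, hU]
    refine h k l (Real.exp_le_exp.1 hX) ?_ t
    rw [Real.log_exp] at hk
    refine le_trans hk ?_
    exact mul_le_mul_of_nonneg_right (le_abs_self K) (Real.sqrt_nonneg _)
  · intro r hr
    have h := FP_sum Lw Lw₀ hS h1 h2 ha hA' hu hr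
    rw [← hU, pf_change] at h
    refine h.congr fun x => ?_
    rw [htup x hr]
    rfl
  · refine ⟨t₁, ht0, fun t ht => ?_, ?_, fun ε hε => ?_⟩
    · rw [e1, pf_div U ht]
      exact hu1 _
    · by_contra hcon
      have : U t₁ / t₁ ≤ 0 := div_nonpos_of_nonpos_of_nonneg (not_lt.1 hcon) ht0.le
      rw [e1] at this
      linarith
    · obtain ⟨X₀, hX0, h⟩ := hmax ε hε
      rw [e1]
      refine ⟨X₀, hX0, fun x hx => ?_⟩
      obtain ⟨q1, ⟨k, l, q2⟩, q3⟩ := h x hx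
      have hx0 : 0 < x := by linarith
      have hl : 0 < Real.log x := Real.log_pos (by linarith)
      have hss : 0 < sd v0 x := sd_pos v0_pos hl
      refine ⟨fun u => ?_, ⟨w * 2 ^ k / 3 ^ l, ?_⟩, fun k l hkl => ?_⟩
      · exact hcnt (by positivity) q1 u
      · rw [hcell]
        exact q2
      · refine q3 k l fun k' l' => ?_
        have := hkl (w * 2 ^ k' / 3 ^ l')
        rwa [hcell, hcell] at this
  · intro η hη
    obtain ⟨C, X₀, hX0, h⟩ := col_cover Lw Lw₀ hS h1 h2 ha η hη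
    refine ⟨C, X₀, fun x hx => ?_⟩
    obtain ⟨S, g1, g2⟩ := h x hx
    refine ⟨S.image fun p => w * 2 ^ p.1 / 3 ^ p.2, ?_, ?_⟩
    · refine le_trans ?_ g1
      exact_mod_cast card_image_le
    · refine le_trans ?_ g2
      have hfin : {n : ℤ | 1 ≤ n ∧ (n : ℝ) ≤ x ∧ n ∈ B ∧ (κ n, ω n) ∉ S}.Finite :=
        fin_set {n : ℤ | n ∈ B ∧ (κ n, ω n) ∉ S} x
      have hsub : (fun m : ℤ => s * m) '' {m : ℤ | m ∈ Mg (Td 1) n0 ∧ |(m : ℝ)| ≤ x ∧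
          ¬ ∃ u ∈ S.image fun p => w * 2 ^ p.1 / 3 ^ p.2, Gc m u} ⊆
          {n : ℤ | 1 ≤ n ∧ (n : ℝ) ≤ x ∧ n ∈ B ∧ (κ n, ω n) ∉ S} := by
        rintro _ ⟨m, ⟨m1, m2, m3⟩, rfl⟩
        obtain ⟨f1, f2, f3, f4⟩ := helt m1
        rw [f2] at m2
        refine ⟨f1, m2, f3, fun hmem => m3 ⟨_, mem_image.2 ⟨_, hmem, rfl⟩, f4⟩⟩
      have hs0 : s ≠ 0 := by rcases hs with rfl | rfl <;> norm_num
      have := Set.ncard_le_ncard hsub hfin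
      rw [Set.ncard_image_of_injective _ (mul_right_injective₀ hs0)] at this
      exact_mod_cast this
  · intro η hη
    obtain ⟨X₀, hX0, h⟩ := hmax 1 one_pos
    have hc0 : 0 < √(2 * Real.pi * v0) := Real.sqrt_pos.2 (by have := Real.pi_pos; have := v0_pos; positivity)
    have hM1 : 0 < pf U u₁ + 1 := by linarith
    refine ⟨η * √(2 * Real.pi * v0) / (pf U u₁ + 1), X₀, by positivity, fun x hx S hSx => ?_⟩
    have hx0 : 0 < x := by linarith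
    have hl : 0 < Real.log x := Real.log_pos (by linarith)
    have hss : 0 < sd v0 x := sd_pos v0_pos hl
    have hsr : 0 < √(Real.log x) := Real.sqrt_pos.2 hl
    have hsd' : sd v0 x = √(2 * Real.pi * v0) * √(Real.log x) := by
      unfold sd
      rw [← Real.sqrt_mul (by have := Real.pi_pos; have := v0_pos; positivity)]
      congr 1
      ring
    obtain ⟨q1, _, _⟩ := h x hx
    have hsub : {m : ℤ | m ∈ Mg (Td 1) n0 ∧ |(m : ℝ)| ≤ x ∧ ∃ u ∈ S, Gc m u} ⊆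
        ⋃ u ∈ S, {m : ℤ | m ∈ Mg (Td 1) n0 ∧ Gc m u ∧ |(m : ℝ)| ≤ x} := by
      rintro m ⟨m1, m2, u, hu, m3⟩
      exact Set.mem_biUnion hu ⟨m1, m3, m2⟩
    have hfin : ∀ u : ℝ, {m : ℤ | m ∈ Mg (Td 1) n0 ∧ Gc m u ∧ |(m : ℝ)| ≤ x}.Finite := fun u =>
      (fin_abs hs h0 hinj hw0 hw x).subset fun m hm => ⟨hm.1, hm.2.2⟩
    have hle := (Set.ncard_le_ncard hsub (S.finite_toSet.biUnion fun u _ => hfin u)).trans
      (Finset.set_ncard_biUnion_le S _)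
    have hle' : ({m : ℤ | m ∈ Mg (Td 1) n0 ∧ |(m : ℝ)| ≤ x ∧ ∃ u ∈ S, Gc m u}.ncard : ℝ) ≤
        S.card * ((pf U u₁ + 1) * x / sd v0 x) := by
      have hle2 := (Nat.cast_le (α := ℝ)).2 hle
      rw [Nat.cast_sum] at hle2
      refine hle2.trans ?_
      refine (Finset.sum_le_card_nsmul S _ ((pf U u₁ + 1) * x / sd v0 x) fun u _ => hcnt (by positivity) q1 u).trans
        (le_of_eq ?_)
      rw [nsmul_eq_mul]
    have h5 := hSx.trans hle'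
    rw [hsd'] at h5
    have h6 : (S.card : ℝ) * ((pf U u₁ + 1) * x / (√(2 * Real.pi * v0) * √(Real.log x))) =
        (S.card * (pf U u₁ + 1)) / (√(2 * Real.pi * v0) * √(Real.log x)) * x := by ring
    rw [h6] at h5
    have h7 := le_of_mul_le_mul_right h5 hx0
    rw [le_div_iff₀ (by positivity)] at h7
    rw [div_mul_eq_mul_div, div_le_iff₀ hM1]
    linarith

end Pool.Agent.L7h55.GC
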