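import Pool.Agent.L7h55.GC.Dens

/-!
The density in terms of the profile.
-/

set_option autoImplicit false

namespace Pool.Agent.L7h55.GC

open Finset Filter Topology

/-- the integrand -/
noncomputable def ph1 (U : ℝ → ℝ) (t u : ℝ) : ℝ := Real.exp (u * Real.log 3) * U (min (Real.exp (-(u * Real.log 3))) t)

theorem ph1_cont {U : ℝ → ℝ} (hU : Continuous U) (t : ℝ) : Continuous (ph1 U t) := by
  unfold ph1
  fun_prop

theorem gg_ph1 (U : ℝ → ℝ) (t u : ℝ) : gg U t u = ph1 U t u - 1 / 3 * ph1 U t (u + 1) := by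
  unfold gg ph1
  have e : Real.exp ((u + 1) * Real.log 3) = 3 * Real.exp (u * Real.log 3) := by
    rw [add_mul, one_mul, Real.exp_add, Real.exp_log (by norm_num)]
    ring
  rw [e]
  ring

theorem int_HH {U : ℝ → ℝ} (hU : Continuous U) (I : ℕ) (t : ℝ) :
    ∫ θ in (0 : ℝ)..1, HH U I t θ = ∫ u in (-(I : ℝ))..(I + 1), gg U t u := by
  have hg : Continuous (gg U t) := (gg_cont hU).comp (by fun_prop : Continuous fun u : ℝ => (t, u))
  unfold HH
  have hsum : ∫ θ in (0 : ℝ)..1, ∑ i ∈ range (2 * I + 1), gg U t (θ + i - I) =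
      ∑ i ∈ range (2 * I + 1), ∫ θ in (0 : ℝ)..1, gg U t (θ + i - I) :=
    intervalIntegral.integral_finsetSum (fun i _ =>
      (show Continuous fun θ : ℝ => gg U t (θ + i - I) from
        hg.comp (by fun_prop : Continuous fun u : ℝ => u + (i : ℝ) - I)).intervalIntegrable _ _)
  rw [hsum]
  have h1 := intervalIntegral.sum_integral_adjacent_intervals (f := gg U t) (μ := MeasureTheory.volume)
    (a := fun k : ℕ => (k : ℝ) - I) (n := 2 * I + 1) (fun k _ => hg.intervalIntegrable _ _)
  have e0 : (((0 : ℕ) : ℝ) - I) = -(I : ℝ) := by push_cast; ring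
  have e1 : (((2 * I + 1 : ℕ) : ℝ) - I) = (I : ℝ) + 1 := by push_cast; ring
  rw [e0, e1] at h1
  rw [← h1]
  apply Finset.sum_congr rfl
  intro i _
  have h2 : ∀ θ : ℝ, gg U t (θ + i - I) = gg U t (θ + ((i : ℝ) - I)) := fun θ => by congr 1; ring
  simp only [h2]
  rw [intervalIntegral.integral_comp_add_right (gg U t) ((i : ℝ) - I)]
  congr 1
  · ring
  · push_cast; ring

theorem formula {U : ℝ → ℝ} (hU : Continuous U) {a b : ℝ} (h1 : ∀ t, t ≤ Real.exp (-a) → U t = 0)
    (h2 : ∀ t, Real.exp b ≤ t → U t = U (Real.exp b)) {I : ℕ} (hI1 : a ≤ I * Real.log 3)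
    (hI2 : b + Real.log 3 ≤ I * Real.log 3) {t : ℝ} (ht1 : Real.exp (-(I * Real.log 3)) ≤ t)
    (ht2 : t ≤ Real.exp ((I - 1) * Real.log 3)) :
    VV U I t = 1 / Real.log 3 * (U t / t + ∫ r in (0 : ℝ)..t, U r / r ^ 2) := by
  have h3 := log3_pos
  have ht0 : 0 < t := (Real.exp_pos _).trans_le ht1
  have hp := ph1_cont hU t
  have hint : ∀ x y : ℝ, IntervalIntegrable (ph1 U t) MeasureTheory.volume x y := fun x y => hp.intervalIntegrable x y
  -- vanishing for large arguments
  have hz : ∀ u : ℝ, (I : ℝ) ≤ u → ph1 U t u = 0 := by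
    intro u hu
    unfold ph1
    rw [h1, mul_zero]
    refine (min_le_left _ _).trans (Real.exp_le_exp.2 ?_)
    have := mul_le_mul_of_nonneg_right hu h3.le
    linarith
  have hz' : ∀ x : ℝ, (I : ℝ) ≤ x → ∫ u in (I : ℝ)..x, ph1 U t u = 0 := by
    intro x hx
    rw [intervalIntegral.integral_congr (g := fun _ => 0) (fun u hu => ?_), intervalIntegral.integral_zero]
    rw [Set.uIcc_of_le hx] at hu
    exact hz u hu.1
  -- small arguments
  have hs : ∀ u : ℝ, u ≤ 1 - (I : ℝ) → ph1 U t u = Real.exp (u * Real.log 3) * U t := by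
    intro u hu
    unfold ph1
    congr 1
    have h4 : b ≤ -(u * Real.log 3) := by
      have := mul_le_mul_of_nonneg_right hu h3.le
      linarith
    have h5 : Real.exp b ≤ Real.exp (-(u * Real.log 3)) := Real.exp_le_exp.2 h4
    rcases le_total t (Real.exp (-(u * Real.log 3))) with h | h
    · rw [min_eq_right h]
    · rw [min_eq_left h, h2 _ h5, h2 t (h5.trans h)]
  have hs' : ∫ u in (-(I : ℝ))..(1 - I), ph1 U t u =
      U t * (2 * Real.exp (-(I * Real.log 3)) / Real.log 3) := by
    have e1 : ∫ u in (-(I : ℝ))..(1 - I), ph1 U t u = ∫ u in (-(I : ℝ))..(1 - I), Real.exp (u * Real.log 3) * U t := by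
      apply intervalIntegral.integral_congr
      intro u hu
      rw [Set.uIcc_of_le (by linarith)] at hu
      exact hs u hu.2
    rw [e1, intervalIntegral.integral_mul_const, intervalIntegral.integral_comp_mul_right (fun x => Real.exp x) h3.ne',
      integral_exp]
    have e2 : Real.exp ((1 - (I : ℝ)) * Real.log 3) = 3 * Real.exp (-(I * Real.log 3)) := by
      rw [sub_mul, one_mul, sub_eq_add_neg, Real.exp_add, Real.exp_log (by norm_num)]
    have e3 : Real.exp (-(I : ℝ) * Real.log 3) = Real.exp (-(I * Real.log 3)) := by rw [neg_mul]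
    rw [e2, e3, smul_eq_mul]
    field_simp
    ring
  -- the substitution
  have hsub : ∫ u in (1 - (I : ℝ))..I, ph1 U t u =
      1 / Real.log 3 * ∫ r in Real.exp (-(I * Real.log 3))..Real.exp ((I - 1) * Real.log 3), U (min r t) / r ^ 2 := by
    have hder : ∀ u ∈ Set.uIcc (1 - (I : ℝ)) I, HasDerivAt (fun u : ℝ => Real.exp (-(u * Real.log 3)))
        (-(Real.log 3) * Real.exp (-(u * Real.log 3))) u := by
      intro u _
      have h5 : HasDerivAt (fun u : ℝ => -(u * Real.log 3)) (-(Real.log 3)) u := by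
        simpa using ((hasDerivAt_id u).mul_const (Real.log 3)).fun_neg
      have h6 := h5.exp
      rw [mul_comm] at h6
      exact h6
    have h4 := intervalIntegral.integral_comp_mul_deriv' (a := 1 - (I : ℝ)) (b := I)
      (f := fun u : ℝ => Real.exp (-(u * Real.log 3))) (f' := fun u => -(Real.log 3) * Real.exp (-(u * Real.log 3)))
      (g := fun r => U (min r t) / r ^ 2) hder (by fun_prop) (by
        intro r hr
        obtain ⟨u, _, rfl⟩ := hr
        have : Real.exp (-(u * Real.log 3)) ≠ 0 := (Real.exp_pos _).ne'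
        apply ContinuousAt.continuousWithinAt
        apply ContinuousAt.div (by fun_prop) (by fun_prop)
        positivity)
    have e1 : Real.exp (-((1 - (I : ℝ)) * Real.log 3)) = Real.exp ((I - 1) * Real.log 3) := by congr 1; ring
    simp only [Function.comp_def] at h4
    rw [e1] at h4
    have e2 : ∀ u : ℝ, U (min (Real.exp (-(u * Real.log 3))) t) / Real.exp (-(u * Real.log 3)) ^ 2 *
        (-Real.log 3 * Real.exp (-(u * Real.log 3))) = -Real.log 3 * ph1 U t u := by
      intro u
      unfold ph1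
      have h5 : Real.exp (u * Real.log 3) * Real.exp (-(u * Real.log 3)) = 1 := by
        rw [← Real.exp_add, add_neg_cancel, Real.exp_zero]
      have h6 : Real.exp (-(u * Real.log 3)) ≠ 0 := (Real.exp_pos _).ne'
      field_simp
      linear_combination (U (min (Real.exp (-(u * Real.log 3))) t)) * h5
    simp only [e2] at h4
    rw [intervalIntegral.integral_const_mul,
      intervalIntegral.integral_symm (Real.exp (-(I * Real.log 3))) (Real.exp ((I - 1) * Real.log 3))] at h4
    have h7 : ∫ r in Real.exp (-(I * Real.log 3))..Real.exp ((I - 1) * Real.log 3), U (min r t) / r ^ 2 =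
      Real.log 3 * ∫ u in (1 - (I : ℝ))..I, ph1 U t u := by linarith
    rw [h7]
    field_simp
  -- the split
  have hcg : ∀ x y : ℝ, 0 < x → 0 < y → IntervalIntegrable (fun r => U (min r t) / r ^ 2) MeasureTheory.volume x y := by
    intro x y hx hy
    apply ContinuousOn.intervalIntegrable
    intro r hr
    have hr0 : 0 < r := by
      have : min x y ≤ r := hr.1
      exact (lt_min hx hy).trans_le this
    apply ContinuousAt.continuousWithinAt
    apply ContinuousAt.div (by fun_prop) (by fun_prop)
    positivity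
  have hsplit := intervalIntegral.integral_add_adjacent_intervals
    (hcg (Real.exp (-(I * Real.log 3))) t (Real.exp_pos _) ht0) (hcg t (Real.exp ((I - 1) * Real.log 3)) ht0 (Real.exp_pos _))
  have hA : ∫ r in Real.exp (-(I * Real.log 3))..t, U (min r t) / r ^ 2 = ∫ r in (0 : ℝ)..t, U r / r ^ 2 := by
    have e1 : ∫ r in Real.exp (-(I * Real.log 3))..t, U (min r t) / r ^ 2 =
        ∫ r in Real.exp (-(I * Real.log 3))..t, U r / r ^ 2 := by
      apply intervalIntegral.integral_congr
      intro r hr
      rw [Set.uIcc_of_le ht1] at hr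
      simp only
      rw [min_eq_left hr.2]
    have hzero : ∀ r ∈ Set.uIcc 0 (Real.exp (-(I * Real.log 3))), U r / r ^ 2 = (fun _ => (0 : ℝ)) r := by
      intro r hr
      rw [Set.uIcc_of_le (Real.exp_pos _).le] at hr
      rw [h1 r (hr.2.trans (Real.exp_le_exp.2 (by linarith))), zero_div]
    have e2 : ∫ r in (0 : ℝ)..Real.exp (-(I * Real.log 3)), U r / r ^ 2 = 0 := by
      rw [intervalIntegral.integral_congr hzero, intervalIntegral.integral_zero]
    have i1 : IntervalIntegrable (fun r => U r / r ^ 2) MeasureTheory.volume 0 (Real.exp (-(I * Real.log 3))) := by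
      refine (intervalIntegrable_congr (fun r hr => ?_)).2 (intervalIntegrable_const (c := (0 : ℝ)))
      exact hzero r (Set.uIoc_subset_uIcc hr)
    have i2 : IntervalIntegrable (fun r => U r / r ^ 2) MeasureTheory.volume (Real.exp (-(I * Real.log 3))) t := by
      apply ContinuousOn.intervalIntegrable
      intro r hr
      rw [Set.uIcc_of_le ht1] at hr
      have hr0 : 0 < r := (Real.exp_pos _).trans_le hr.1
      apply ContinuousAt.continuousWithinAt
      apply ContinuousAt.div hU.continuousAt (by fun_prop)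
      positivity
    rw [e1, ← intervalIntegral.integral_add_adjacent_intervals i1 i2, e2, zero_add]
  have hB : ∫ r in t..Real.exp ((I - 1) * Real.log 3), U (min r t) / r ^ 2 =
      U t * (1 / t - Real.exp (-((I - 1) * Real.log 3))) := by
    have e1 : ∫ r in t..Real.exp ((I - 1) * Real.log 3), U (min r t) / r ^ 2 =
        ∫ r in t..Real.exp ((I - 1) * Real.log 3), U t * (r ^ (-2 : ℤ)) := by
      apply intervalIntegral.integral_congr
      intro r hr
      rw [Set.uIcc_of_le ht2] at hr
      simp only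
      rw [min_eq_right hr.1, div_eq_mul_inv]
      rfl
    rw [e1, intervalIntegral.integral_const_mul, integral_zpow (Or.inr ⟨by norm_num, by
      rw [Set.uIcc_of_le ht2]
      rintro ⟨h, _⟩
      linarith⟩)]
    congr 1
    rw [Real.exp_neg]
    have h5 := Real.exp_pos ((I - 1) * Real.log 3)
    norm_num
    field_simp
    ring
  -- the assembly
  have hJ : ∫ θ in (0 : ℝ)..1, HH U I t θ = 2 / 3 * (∫ u in (1 - (I : ℝ))..I, ph1 U t u) +
      U t * (2 * Real.exp (-(I * Real.log 3)) / Real.log 3) := by
    rw [int_HH hU]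
    simp only [gg_ph1]
    have hc1 : Continuous fun u : ℝ => 1 / 3 * ph1 U t (u + 1) :=
      continuous_const.mul (hp.comp (by fun_prop : Continuous fun u : ℝ => u + 1))
    have hsb : ∫ u in (-(I : ℝ))..(I + 1), (ph1 U t u - 1 / 3 * ph1 U t (u + 1)) =
        (∫ u in (-(I : ℝ))..(I + 1), ph1 U t u) - ∫ u in (-(I : ℝ))..(I + 1), 1 / 3 * ph1 U t (u + 1) :=
      intervalIntegral.integral_sub (hint _ _) (hc1.intervalIntegrable _ _)
    rw [hsb, intervalIntegral.integral_const_mul, intervalIntegral.integral_comp_add_right (ph1 U t) 1]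
    have q1 := intervalIntegral.integral_add_adjacent_intervals (hint (-(I : ℝ)) (1 - I)) (hint (1 - (I : ℝ)) I)
    have q2 := intervalIntegral.integral_add_adjacent_intervals (hint (-(I : ℝ)) I) (hint (I : ℝ) (I + 1))
    have q3 := intervalIntegral.integral_add_adjacent_intervals (hint (-(I : ℝ) + 1) I) (hint (I : ℝ) (I + 1 + 1))
    rw [hz' _ (by linarith)] at q2 q3
    have q4 : -(I : ℝ) + 1 = 1 - I := by ring
    rw [q4] at q3 ⊢
    rw [hs'] at q1
    linarith
  unfold VV
  rw [hJ, hsub, ← hsplit, hA, hB]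
  have e5 : Real.exp (-((I - 1) * Real.log 3)) = 3 * Real.exp (-(I * Real.log 3)) := by
    have : -(((I : ℝ) - 1) * Real.log 3) = -(I * Real.log 3) + Real.log 3 := by ring
    rw [this, Real.exp_add, Real.exp_log (by norm_num)]
    ring
  rw [e5]
  field_simp
  ring

end Pool.Agent.L7h55.GC
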