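import Pool.Agent.L7h55.GC.Profile
import Pool.Agent.R468.MG.L
import Pool.Agent.Results.MP_ff4775_nt.DivergentAsymptotics

/-!
The growth constants of the integers of a merging class.
-/

set_option autoImplicit false

namespace Pool.Agent.L7h55.GC

open Finset Filter Topology
open Pool.Agent.R468.GL
open Pool.Agent.R468.MF
open Pool.Agent.R468.MG
open Pool.Agent.H499R2.LT (od od_add)
open Pool.Agent.H499R2.LT.C0 (od_sum)
open Pool.Agent.H499R2.ND (Td HD Mg Mg_inv Mg_self Mg_iter Mg_symm class_pos Td_side side_odd side_cop cop_of_not_dvd)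
open Pool.Agent.R468.LL (lam lam_eq lam_pos lam_lt)

/-- the number of odd terms among the first `k` terms -/
def oddc (k : ℕ) (n : ℤ) : ℕ := ((range k).filter fun j => ((Td 1)^[j] n) % 2 = 1).card

/-- the growth constant of `n` is `w` -/
def Gc (n : ℤ) (w : ℝ) : Prop :=
  Tendsto (fun k : ℕ => (2 : ℝ) ^ k * ((Td 1)^[k] n : ℤ) / 3 ^ (oddc k n)) atTop (𝓝 w)

theorem oddc_od (k : ℕ) (n : ℤ) : ((oddc k n : ℕ) : ℤ) = od 1 k n := by
  rw [od_sum]
  unfold oddc
  rw [card_filter]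
  push_cast
  refine sum_congr rfl fun i _ => ?_
  rcases Int.emod_two_eq_zero_or_one ((Td 1)^[i] n) with h | h
  · rw [if_neg (by omega), if_pos h]
  · rw [if_pos h, if_neg (by omega)]

theorem pow3 (k : ℕ) (n : ℤ) : (3 : ℝ) ^ (oddc k n) = (3 : ℝ) ^ (od 1 k n) := by
  rw [← oddc_od, zpow_natCast]

theorem od_one (d y : ℤ) : od d 1 y = if y % 2 = 0 then 0 else 1 := by
  unfold od od
  rw [add_zero]

theorem gc_merge {m n0 : ℤ} {a b : ℕ} (h : (Td 1)^[a] m = (Td 1)^[b] n0) {w : ℝ} (hw : Gc n0 w) :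
    Gc m (w * 2 ^ ((a : ℤ) - b) / 3 ^ (od 1 a m - od 1 b n0)) := by
  unfold Gc at hw ⊢
  rw [← tendsto_add_atTop_iff_nat a]
  rw [← tendsto_add_atTop_iff_nat b] at hw
  have h1 := hw.mul_const (2 ^ ((a : ℤ) - b) / 3 ^ (od 1 a m - od 1 b n0) : ℝ)
  rw [← mul_div_assoc] at h1
  refine h1.congr fun k => ?_
  rw [pow3, pow3, add_comm k a, add_comm k b, od_add, od_add, add_comm a k, add_comm b k,
    Function.iterate_add_apply, Function.iterate_add_apply, h]
  have h2 : (2 : ℝ) ≠ 0 := by norm_num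
  have h3 : (3 : ℝ) ≠ 0 := by norm_num
  rw [zpow_sub₀ h2, zpow_sub₀ h3, zpow_add₀ h3, zpow_add₀ h3, pow_add, pow_add, zpow_natCast, zpow_natCast]
  field_simp

theorem gc_mono (m : ℤ) : Monotone fun k : ℕ => (2 : ℝ) ^ k * ((Td 1)^[k] m : ℤ) / 3 ^ (oddc k m) := by
  apply monotone_nat_of_le_succ
  intro k
  rw [pow3, pow3, od_add 1 k 1, od_one, Function.iterate_succ_apply']
  generalize (Td 1)^[k] m = y
  have h3 : (0 : ℝ) < 3 ^ (od 1 k m) := by positivity
  have h33 : (3 : ℝ) ≠ 0 := by norm_num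
  rcases Int.emod_two_eq_zero_or_one y with h | h
  · have e : Td 1 y = y / 2 := by unfold Td; rw [if_pos h]
    have e2 : ((y / 2 : ℤ) : ℝ) = (y : ℝ) / 2 := by
      have : y / 2 * 2 = y := by omega
      have h4 : ((y / 2 : ℤ) : ℝ) * 2 = y := by exact_mod_cast this
      linarith
    rw [if_pos h, e, e2, add_zero, pow_succ]
    apply le_of_eq
    ring
  · have e : Td 1 y = (3 * y + 1) / 2 := by unfold Td; rw [if_neg (by omega)]
    have e2 : (((3 * y + 1) / 2 : ℤ) : ℝ) = (3 * (y : ℝ) + 1) / 2 := by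
      have : (3 * y + 1) / 2 * 2 = 3 * y + 1 := by omega
      have h4 : (((3 * y + 1) / 2 : ℤ) : ℝ) * 2 = 3 * y + 1 := by exact_mod_cast this
      linarith
    rw [if_neg (by omega), e, e2, zpow_add₀ h33, zpow_one, pow_succ]
    have e3 : (2 : ℝ) ^ k * 2 * ((3 * (y : ℝ) + 1) / 2) / (3 ^ (od 1 k m) * 3) =
        2 ^ k * y / 3 ^ (od 1 k m) + 2 ^ k / (3 ^ (od 1 k m) * 3) := by
      field_simp
    rw [e3]
    have : 0 ≤ (2 : ℝ) ^ k / (3 ^ (od 1 k m) * 3) := by positivity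
    linarith

theorem gc_ge {m : ℤ} {w : ℝ} (h : Gc m w) : (m : ℝ) ≤ w := by
  have := (gc_mono m).ge_of_tendsto h 0
  simpa [oddc] using this

theorem gc_neg {m : ℤ} {w : ℝ} (h : Gc m w) (hm : ∀ k, (Td 1)^[k] m < 0) : w ≤ 0 := by
  refine le_of_tendsto' h fun k => ?_
  have h1 : (((Td 1)^[k] m : ℤ) : ℝ) < 0 := by exact_mod_cast hm k
  apply div_nonpos_of_nonpos_of_nonneg _ (by positivity)
  have : (0 : ℝ) < 2 ^ k := by positivity
  nlinarith

theorem gc_unique {m : ℤ} {w w' : ℝ} (h : Gc m w) (h' : Gc m w') : w = w' := tendsto_nhds_unique h h'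

/-- the trajectory of `n` is divergent -/
def Dv (n : ℤ) : Prop := Tendsto (fun k : ℕ => |(Td 1)^[k] n|) atTop atTop

theorem dv_merge {m n0 : ℤ} (h : m ∈ Mg (Td 1) n0) (h0 : Dv n0) : Dv m := by
  obtain ⟨a, b, h⟩ := h
  unfold Dv at h0 ⊢
  rw [← tendsto_add_atTop_iff_nat a]
  rw [← tendsto_add_atTop_iff_nat b] at h0
  refine h0.congr fun k => ?_
  rw [Function.iterate_add_apply, Function.iterate_add_apply, h]

/-- existence of the growth constants and the bound for them -/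
theorem gc_exists : ∃ A : ℝ, 0 ≤ A ∧ ∀ n : ℤ, Dv n → ∃ w : ℝ, w ≠ 0 ∧ Gc n w ∧
    abs (Real.log |w| - Real.log |(n : ℝ)|) ≤ A := by
  obtain ⟨A, hA⟩ := Pool.Agent.Results.MP_ff4775_nt.DivergentAsymptotics.result.1 0.96
    (Pool.Agent.Results.MP_ff4775_nt.DivergentAsymptotics.result.2.trans (by norm_num)) (by norm_num)
  refine ⟨max A 0, le_max_right _ _, fun n hn => ?_⟩
  obtain ⟨w, hw0, hw, h⟩ := hA n hn
  refine ⟨w, hw0, hw, ?_⟩
  have hinj := Pool.Agent.Results.MP_ff4775_nt.DivergentAsymptotics.injective_of_tendsto hn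
  have hn0 : n ≠ 0 := by
    rintro rfl
    have : (0 : ℕ) = 1 := hinj (by decide)
    omega
  have h1 := h 0 1 le_rfl (fun j _ => by
    have h2 : Pool.Agent.Results.MP_ff4775_nt.DivergentAsymptotics.T^[j] n ≠ 0 := by
      rw [Pool.Agent.Results.MP_ff4775_nt.DivergentAsymptotics.T_eq]
      exact Pool.Agent.H319R2.iter_ne_zero hn0 j
    have h3 := Int.one_le_abs h2
    exact_mod_cast h3)
  rw [Real.one_rpow, mul_one] at h1
  refine le_trans ?_ (le_max_left A 0)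
  simpa [Pool.Agent.Results.MP_ff4775_nt.DivergentAsymptotics.odd] using h1

theorem od_side {s : ℤ} (hs : s = 1 ∨ s = -1) (a : ℕ) (x : ℤ) : od (s * 1) a x = od 1 a (s * x) := by
  rw [od_sum, od_sum]
  refine sum_congr rfl fun i _ => ?_
  rw [Td_side odd_one hs i x]
  have : s * (Td 1)^[i] (s * x) % 2 = 0 ↔ (Td 1)^[i] (s * x) % 2 = 0 := by
    rcases hs with rfl | rfl
    · rw [one_mul]
    · omega
  simp only [this]

/-- the statistics of the elements of the class on a side -/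
theorem stat {s : ℤ} (hs : s = 1 ∨ s = -1) {n0 : ℤ} (hinj : Function.Injective (fun c : ℕ => (Td 1)^[c] n0))
    {x : ℤ} {a b : ℕ} (h : (Td 1)^[a] (s * x) = (Td 1)^[b] n0) :
    mk (s * 1) (s * n0) x = a - b ∧ mo (s * 1) (s * n0) x = od 1 a (s * x) - od 1 b n0 := by
  have hss : s * (s * n0) = n0 := by rcases hs with rfl | rfl <;> ring
  have h1 : (Td (s * 1))^[a] x = (Td (s * 1))^[b] (s * n0) := by
    rw [Td_side odd_one hs, Td_side odd_one hs, hss, h]
  obtain ⟨h2, h3⟩ := mg_spec (inj_side odd_one hs hinj) h1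
  refine ⟨h2, ?_⟩
  rw [h3, od_side hs, od_side hs, hss]

theorem log_w {w : ℝ} (hw : w ≠ 0) (k l : ℤ) : Real.log |w * 2 ^ k / 3 ^ l| = LW (Real.log |w|) k l := by
  have h2 : (0 : ℝ) < 2 ^ k := by positivity
  have h3 : (0 : ℝ) < 3 ^ l := by positivity
  have hw' : 0 < |w| := abs_pos.2 hw
  rw [abs_div, abs_mul, abs_of_pos h2, abs_of_pos h3, Real.log_div (by positivity) h3.ne',
    Real.log_mul hw'.ne' h2.ne', Real.log_zpow, Real.log_zpow]
  rfl

theorem w_unique {w : ℝ} (hw : w ≠ 0) {k l k' l' : ℤ} (h : w * 2 ^ k / 3 ^ l = w * 2 ^ k' / 3 ^ l') :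
    k = k' ∧ l = l' := by
  have h1 := log_w hw k l
  rw [h, log_w hw] at h1
  unfold LW at h1
  obtain ⟨g1, g2⟩ := indep (a := k' - k) (b := l' - l) (by push_cast; linarith)
  omega

/-- the growth constants of the elements of the class -/
theorem gc_stat {s : ℤ} (hs : s = 1 ∨ s = -1) {n0 : ℤ} (hinj : Function.Injective (fun c : ℕ => (Td 1)^[c] n0))
    {w : ℝ} (hw : Gc n0 w) {x : ℤ} (hx : s * x ∈ Mg (Td 1) n0) :
    Gc (s * x) (w * 2 ^ (mk (s * 1) (s * n0) x) / 3 ^ (mo (s * 1) (s * n0) x)) := by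
  obtain ⟨a, b, h⟩ := hx
  obtain ⟨h1, h2⟩ := stat hs hinj h
  rw [h1, h2]
  exact gc_merge h hw

/-- the sizes -/
theorem size_mg {s : ℤ} (hs : s = 1 ∨ s = -1) {n0 : ℤ} (h0 : 0 < s * n0) (hd : Dv n0)
    (hinj : Function.Injective (fun c : ℕ => (Td 1)^[c] n0)) {A : ℝ} (hA0 : 0 ≤ A)
    (hA : ∀ n : ℤ, Dv n → ∃ w : ℝ, w ≠ 0 ∧ Gc n w ∧ abs (Real.log |w| - Real.log |(n : ℝ)|) ≤ A)
    {w : ℝ} (hw0 : w ≠ 0) (hw : Gc n0 w) :
    Size (Mg (Td (s * 1)) (s * n0)) (mk (s * 1) (s * n0)) (mo (s * 1) (s * n0)) (Real.log |w|)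
      (if s = 1 then A else 0) (if s = 1 then 0 else A) := by
  intro x hx hx1
  rw [Mg_side odd_one hs, Set.mem_ofPred_eq] at hx
  have hg := gc_stat hs hinj hw hx
  obtain ⟨w', hw'0, hw', hb⟩ := hA (s * x) (dv_merge hx hd)
  have e := gc_unique hw' hg
  rw [e, log_w hw0] at hb
  have habs : |((s * x : ℤ) : ℝ)| = x := by
    have hx0 : (0 : ℝ) < x := by exact_mod_cast (by omega : 0 < x)
    rcases hs with rfl | rfl
    · push_cast; rw [one_mul, abs_of_pos hx0]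
    · push_cast; rw [neg_one_mul, abs_neg, abs_of_pos hx0]
  have hx0 : (0 : ℝ) < x := by exact_mod_cast (by omega : 0 < x)
  rw [habs] at hb
  have hb' := abs_le.1 hb
  have hge := gc_ge hg
  obtain ⟨v, hv⟩ : ∃ v : ℝ, v = w * 2 ^ (mk (s * 1) (s * n0) x) / 3 ^ (mo (s * 1) (s * n0) x) := ⟨_, rfl⟩
  have hlv : Real.log |v| = LW (Real.log |w|) (mk (s * 1) (s * n0) x) (mo (s * 1) (s * n0) x) := by
    rw [hv, log_w hw0]
  rw [← hv] at hg hge e
  rw [← hlv] at hb' ⊢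
  rcases hs with rfl | rfl
  · rw [if_pos rfl, if_pos rfl]
    rw [one_mul] at hge
    refine ⟨by linarith, ?_⟩
    rw [add_zero]
    apply Real.log_le_log hx0
    exact hge.trans (le_abs_self v)
  · rw [if_neg (by norm_num), if_neg (by norm_num)]
    have hneg : v ≤ 0 := by
      refine gc_neg hg fun k => ?_
      have hm : 0 < -1 * (-1 * x) := by omega
      have := sgn_iter (Or.inr rfl) hm k
      omega
    have hv0 : v ≠ 0 := by rw [← e]; exact hw'0
    refine ⟨?_, by linarith⟩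
    rw [sub_zero]
    apply Real.log_le_log (abs_pos.2 hv0)
    rw [abs_of_nonpos hneg]
    push_cast at hge
    linarith

/-- the integers with a given growth constant -/
theorem cnt_cell {s : ℤ} (hs : s = 1 ∨ s = -1) {n0 : ℤ} (h0 : 0 < s * n0)
    (hinj : Function.Injective (fun c : ℕ => (Td 1)^[c] n0)) {w : ℝ} (hw0 : w ≠ 0) (hw : Gc n0 w) (k l : ℤ) (y : ℝ) :
    ({m : ℤ | m ∈ Mg (Td 1) n0 ∧ Gc m (w * 2 ^ k / 3 ^ l) ∧ |(m : ℝ)| ≤ y}.ncard : ℝ) =
      cell (Mg (Td (s * 1)) (s * n0)) (mk (s * 1) (s * n0)) (mo (s * 1) (s * n0)) k l y := by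
  have hs0 : s ≠ 0 := by rcases hs with rfl | rfl <;> norm_num
  have e : {m : ℤ | m ∈ Mg (Td 1) n0 ∧ Gc m (w * 2 ^ k / 3 ^ l) ∧ |(m : ℝ)| ≤ y} = (fun x : ℤ => s * x) ''
      {x : ℤ | 1 ≤ x ∧ (x : ℝ) ≤ y ∧ x ∈ Mg (Td (s * 1)) (s * n0) ∧ mk (s * 1) (s * n0) x = k ∧
        mo (s * 1) (s * n0) x = l} := by
    ext m
    rw [Set.mem_image]
    constructor
    · rintro ⟨g1, g2, g3⟩
      have hm : 0 < s * m := by
        obtain ⟨a, b, h⟩ := g1
        exact mer_sgn hs h0 h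
      have hsm : s * (s * m) = m := by rcases hs with rfl | rfl <;> ring
      have g4 : s * (s * m) ∈ Mg (Td 1) n0 := by rw [hsm]; exact g1
      have g5 := gc_stat hs hinj hw g4
      rw [hsm] at g5
      obtain ⟨g6, g7⟩ := w_unique hw0 (gc_unique g2 g5)
      refine ⟨s * m, ⟨by omega, ?_, ?_, g6.symm, g7.symm⟩, hsm⟩
      · refine le_trans (le_of_eq ?_) g3
        have hm' : (0 : ℝ) < ((s * m : ℤ) : ℝ) := by exact_mod_cast hm
        rcases hs with rfl | rfl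
        · push_cast at hm' ⊢
          rw [one_mul] at hm' ⊢
          rw [abs_of_pos hm']
        · push_cast at hm' ⊢
          rw [neg_one_mul] at hm' ⊢
          rw [abs_of_neg (by linarith)]
      · rw [Mg_side odd_one hs]
        exact g4
    · rintro ⟨x, ⟨g1, g2, g3, g4, g5⟩, rfl⟩
      rw [Mg_side odd_one hs, Set.mem_ofPred_eq] at g3
      have g6 := gc_stat hs hinj hw g3
      rw [g4, g5] at g6
      refine ⟨g3, g6, ?_⟩
      have hx0 : (0 : ℝ) < x := by exact_mod_cast (by omega : 0 < x)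
      rcases hs with rfl | rfl
      · push_cast; rw [one_mul, abs_of_pos hx0]; exact g2
      · push_cast; rw [neg_one_mul, abs_neg, abs_of_pos hx0]; exact g2
  unfold cell
  rw [e, Set.ncard_image_of_injective _ (mul_right_injective₀ hs0)]

end Pool.Agent.L7h55.GC
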