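import Pool.Agent.L7h55.GC.Win

/-!
The local asymptotics for the integers of `(x / 3, x]` with a bounded quotient by their growth constant.
-/

set_option autoImplicit false

namespace Pool.Agent.L7h55.GC

open Finset Filter Topology
open Pool.Agent.R468.GL
open Pool.Agent.R468.MF
open Pool.Agent.R468.MG
open Pool.Agent.R468.LL (lam lam_eq lam_pos lam_lt)

variable {P : Par} {B : Set ℤ} {κ ω : ℤ → ℤ} {c A₁ A₂ : ℝ} {Ψ : ℝ → ℝ} {δ : ℝ}

theorem m0_pos : 0 < m0 := by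
  unfold m0
  have := lam_pos
  positivity

/-- comparison of the densities at comparable arguments -/
theorem gn_near {K C ε : ℝ} (hK : 0 ≤ K) (hC : 0 ≤ C) (hε : 0 < ε) : ∃ L₀ : ℝ, 1 ≤ L₀ ∧ ∀ (x W : ℝ) (k : ℤ),
    L₀ ≤ Real.log x → |(k : ℝ) - m0 * Real.log x| ≤ K * √(Real.log x) → |Real.log W - Real.log x| ≤ C →
    ∃ E : ℝ, |E| ≤ ε ∧ gn m0 v0 W k = Real.exp E * gn m0 v0 x k := by
  have hm := m0_pos
  obtain ⟨L₀, h1, -, h⟩ := ratio (v := v0) (ρ := 1) v0_pos one_pos hK (C := C + m0 * C) (by positivity) hε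
  refine ⟨L₀, h1, fun x W k hx hk hW => ?_⟩
  have hmC : 0 ≤ m0 * C := by positivity
  obtain ⟨E, hE, he⟩ := h (Real.log x) (k - m0 * Real.log x) (Real.log W - Real.log x)
    (-(m0 * (Real.log W - Real.log x))) hx hk (by linarith) (by
      rw [abs_neg, abs_mul, abs_of_pos hm]
      have := mul_le_mul_of_nonneg_left hW hm.le
      linarith)
  refine ⟨E, hE, ?_⟩
  have e1 : (1 : ℝ) * ((k : ℝ) - m0 * Real.log x) + -(m0 * (Real.log W - Real.log x)) = k - m0 * Real.log W := by ring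
  have e2 : (1 : ℝ) ^ 2 * v0 * (Real.log x + (Real.log W - Real.log x)) = v0 * Real.log W := by ring
  rw [e1, e2, one_mul] at he
  unfold gn sd
  exact he

theorem ff_loc (Lw : Law (CG P B κ ω) (A0 P / lam) (2 * ww P ^ 2 / lam ^ 3) (kap P / ww P)
      (fun x => Real.log x / ww P) Ψ δ) (hS : Size B κ ω c A₁ A₂) (h1 : 2 * A₁ < ww P) (h2 : 2 * A₂ < ww P)
    (I : ℕ) (hI1 : A₁ ≤ I * Real.log 3) (hI2 : A₂ + Real.log 3 ≤ I * Real.log 3) :
    ∀ K ε : ℝ, 0 < K → 0 < ε → ∃ X₀ : ℝ, 2 ≤ X₀ ∧ ∀ x : ℝ, X₀ ≤ x → ∀ k : ℤ,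
      |(k : ℝ) - m0 * Real.log x| ≤ K * √(Real.log x) → ∀ t : ℝ,
      |ff B κ ω c t x k / (x * gn m0 v0 x k) - HH (UU P Ψ c) I t (Int.fract (l0 c x k))| ≤ ε := by
  intro K ε hK hε
  have h3 := log3_pos
  have hm := m0_pos
  obtain ⟨U, hU⟩ : ∃ U : ℝ → ℝ, U = UU P Ψ c := ⟨_, rfl⟩
  have hUm : Monotone U := by rw [hU]; exact UU_mono Lw hS h1 h2
  have hUl : ∀ t, t ≤ Real.exp (-A₁) → U t = 0 := fun t ht => by rw [hU]; exact UU_low Lw hS h1 h2 ht
  have hUh : ∀ t, Real.exp A₂ ≤ t → U t = U (Real.exp A₂) := fun t ht => by rw [hU]; exact UU_high Lw hS h1 h2 ht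
  obtain ⟨M, hM⟩ : ∃ M : ℝ, M = U (Real.exp A₂) := ⟨_, rfl⟩
  have hU0 : ∀ t, 0 ≤ U t := fun t => by
    rcases le_total t (Real.exp (-A₁)) with h | h
    · rw [hUl t h]
    · rw [← hUl _ (le_refl (Real.exp (-A₁)))]
      exact hUm h
  have hUM : ∀ t, U t ≤ M := fun t => by
    rw [hM]
    rcases le_total t (Real.exp A₂) with h | h
    · exact hUm h
    · exact (hUh t h).le
  have hM0 : 0 ≤ M := (hU0 0).trans (hUM 0)
  obtain ⟨C, hC⟩ : ∃ C : ℝ, C = (I + 1) * Real.log 3 := ⟨_, rfl⟩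
  have hC0 : 0 ≤ C := by rw [hC]; positivity
  obtain ⟨Y, hY⟩ : ∃ Y : ℝ, Y = Real.exp C := ⟨_, rfl⟩
  have hY0 : 0 < Y := by rw [hY]; exact Real.exp_pos _
  obtain ⟨ε₁, hε₁⟩ : ∃ e : ℝ, e = min 1 (ε / ((2 * I + 1) * (Y * (2 * M + 6)))) := ⟨_, rfl⟩
  have hε₁0 : 0 < ε₁ := by rw [hε₁]; positivity
  have hε₁1 : ε₁ ≤ 1 := by rw [hε₁]; exact min_le_left _ _
  have hε₁2 : (2 * I + 1) * (Y * (2 * M + 6) * ε₁) ≤ ε := by
    have : ε₁ ≤ ε / ((2 * I + 1) * (Y * (2 * M + 6))) := by rw [hε₁]; exact min_le_right _ _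
    rw [le_div_iff₀ (by positivity)] at this
    linarith
  obtain ⟨L₁, hL₁, hcl⟩ := cell_law Lw hS h1 h2 (K := 2 * (K + m0 * C)) (by positivity) hε₁0
  obtain ⟨L₂, hL₂, hgn⟩ := gn_near hK.le hC0 hε₁0
  refine ⟨max 2 (Real.exp (L₁ + L₂ + 2 * C)), le_max_left _ _, fun x hx k hk t => ?_⟩
  have hx2 : 2 ≤ x := (le_max_left _ _).trans hx
  have hx0 : 0 < x := by linarith
  have hL : L₁ + L₂ + 2 * C ≤ Real.log x := by
    rw [Real.le_log_iff_exp_le hx0]
    exact (le_max_right _ _).trans hx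
  have hlx : 0 < Real.log x := by linarith
  obtain ⟨g, hg⟩ : ∃ g : ℝ, g = gn m0 v0 x k := ⟨_, rfl⟩
  have hg0 : 0 < g := by rw [hg]; exact gn_pos v0_pos hlx k
  rw [← hg, ← hU, ff_eq hS I hI1 hI2 t hx0 k, Finset.sum_div]
  unfold HH
  rw [← Finset.sum_sub_distrib]
  have hr1 : 1 ≤ √(Real.log x) := by rw [← Real.sqrt_one]; exact Real.sqrt_le_sqrt (by linarith)
  have hterm : ∀ i ∈ range (2 * I + 1),
      |(cell B κ ω k (⌊l0 c x k⌋ + I - i) (min x (t * Real.exp (LW c k (⌊l0 c x k⌋ + I - i)))) -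
        cell B κ ω k (⌊l0 c x k⌋ + I - i) (min (x / 3) (t * Real.exp (LW c k (⌊l0 c x k⌋ + I - i))))) / (x * g) -
        gg U t (Int.fract (l0 c x k) + i - I)| ≤ Y * (2 * M + 6) * ε₁ := by
    intro i hi
    rw [mem_range] at hi
    have hiI : (i : ℝ) ≤ 2 * I := by exact_mod_cast (by omega : i ≤ 2 * I)
    have hi0 : (0 : ℝ) ≤ i := Nat.cast_nonneg _
    obtain ⟨l, hl⟩ : ∃ l : ℤ, l = ⌊l0 c x k⌋ + I - i := ⟨_, rfl⟩
    obtain ⟨u, hu⟩ : ∃ u : ℝ, u = Int.fract (l0 c x k) + i - I := ⟨_, rfl⟩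
    rw [← hl, ← hu]
    have hf0 := Int.fract_nonneg (l0 c x k)
    have hf1 := (Int.fract_lt_one (l0 c x k)).le
    have hlu : l0 c x k - l = u := by
      rw [hl, hu]
      have := Int.floor_add_fract (l0 c x k)
      push_cast
      linarith
    have hLW : LW c k l = Real.log x + u * Real.log 3 := by rw [LW_l0 c x, hlu]
    have hu1 : |u * Real.log 3| ≤ C := by
      rw [hC, abs_mul, abs_of_pos h3]
      apply mul_le_mul_of_nonneg_right _ h3.le
      rw [abs_le]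
      constructor <;> linarith
    have hu1' := abs_le.1 hu1
    obtain ⟨W, hW⟩ : ∃ W : ℝ, W = Real.exp (LW c k l) := ⟨_, rfl⟩
    have hW0 : 0 < W := by rw [hW]; exact Real.exp_pos _
    have hWx : W = x * Real.exp (u * Real.log 3) := by
      rw [hW, hLW, Real.exp_add, Real.exp_log hx0]
    have hlW : Real.log W = LW c k l := by rw [hW, Real.log_exp]
    have e1 : min x (t * W) = min (Real.exp (-(u * Real.log 3))) t * W := by
      rw [min_mul_of_nonneg _ _ hW0.le]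
      congr 1
      rw [hWx, mul_comm x, ← mul_assoc, ← Real.exp_add, neg_add_cancel, Real.exp_zero, one_mul]
    have e2 : min (x / 3) (t * W) = min (Real.exp (-((u + 1) * Real.log 3))) t * W := by
      rw [min_mul_of_nonneg _ _ hW0.le]
      congr 1
      have : -((u + 1) * Real.log 3) = -(u * Real.log 3) + -Real.log 3 := by ring
      rw [hWx, this, Real.exp_add, Real.exp_neg (Real.log 3), Real.exp_log (by norm_num : (0 : ℝ) < 3)]
      have h4 : Real.exp (-(u * Real.log 3)) * Real.exp (u * Real.log 3) = 1 := by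
        rw [← Real.exp_add, neg_add_cancel, Real.exp_zero]
      linear_combination (-(x / 3)) * h4
    have hk' : |(k : ℝ) - m0 * LW c k l| ≤ 2 * (K + m0 * C) * √(LW c k l) := by
      have h5 : (k : ℝ) - m0 * LW c k l = (k - m0 * Real.log x) + -(m0 * (u * Real.log 3)) := by rw [hLW]; ring
      have h6 : |(-(m0 * (u * Real.log 3)))| ≤ m0 * C := by
        rw [abs_neg, abs_mul, abs_of_pos hm]
        exact mul_le_mul_of_nonneg_left hu1 hm.le
      have h7 : √(Real.log x) / 2 ≤ √(LW c k l) := by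
        apply Real.le_sqrt_of_sq_le
        rw [div_pow, Real.sq_sqrt hlx.le, hLW]
        linarith
      have h8 : m0 * C ≤ m0 * C * √(Real.log x) := le_mul_of_one_le_right (by positivity) hr1
      calc _ ≤ |(k : ℝ) - m0 * Real.log x| + |(-(m0 * (u * Real.log 3)))| := by rw [h5]; exact abs_add_le _ _
        _ ≤ K * √(Real.log x) + m0 * C * √(Real.log x) := by linarith
        _ = 2 * (K + m0 * C) * (√(Real.log x) / 2) := by ring
        _ ≤ _ := mul_le_mul_of_nonneg_left h7 (by positivity)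
    have hLL : L₁ ≤ LW c k l := by rw [hLW]; linarith
    have b1 := hcl k l hLL hk' (min (Real.exp (-(u * Real.log 3))) t)
    have b2 := hcl k l hLL hk' (min (Real.exp (-((u + 1) * Real.log 3))) t)
    rw [← hU, ← hW] at b1 b2
    obtain ⟨E, hE, hgE⟩ := hgn x W k (by linarith) hk (by rw [hlW, hLW]; simpa using hu1)
    rw [← hg] at hgE
    rw [hgE] at b1 b2
    rw [← hW, e1, e2]
    unfold gg
    generalize hU1 : U (min (Real.exp (-(u * Real.log 3))) t) = U1 at b1 ⊢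
    generalize hU2 : U (min (Real.exp (-((u + 1) * Real.log 3))) t) = U2 at b2 ⊢
    generalize cell B κ ω k l (min (Real.exp (-(u * Real.log 3))) t * W) = c1 at b1 ⊢
    generalize cell B κ ω k l (min (Real.exp (-((u + 1) * Real.log 3))) t * W) = c2 at b2 ⊢
    have u1 : U1 ≤ M := by rw [← hU1]; exact hUM _
    have u2 : 0 ≤ U2 := by rw [← hU2]; exact hU0 _
    have u3 : 0 ≤ U1 := by rw [← hU1]; exact hU0 _
    have u4 : U2 ≤ M := by rw [← hU2]; exact hUM _
    obtain ⟨R, hR⟩ : ∃ R : ℝ, R = (c1 - c2) / (W * (Real.exp E * g)) := ⟨_, rfl⟩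
    have r1 : |R - (U1 - U2)| ≤ 2 * ε₁ := by
      rw [hR, sub_div]
      rw [abs_le] at b1 b2 ⊢
      constructor <;> linarith [b1.1, b1.2, b2.1, b2.2]
    have r2 : |R| ≤ M + 2 := by
      rw [abs_le] at r1 ⊢
      constructor <;> linarith [r1.1, r1.2]
    have r3 : |Real.exp E - 1| ≤ 2 * ε₁ := by
      have := Real.abs_exp_sub_one_le (hE.trans hε₁1)
      linarith
    have r4 : (c1 - c2) / (x * g) - Real.exp (u * Real.log 3) * (U1 - U2) =
        Real.exp (u * Real.log 3) * ((Real.exp E - 1) * R + (R - (U1 - U2))) := by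
      rw [hR, hWx]
      have := Real.exp_pos (u * Real.log 3)
      have := Real.exp_pos E
      field_simp
      ring
    rw [r4, abs_mul, abs_of_pos (Real.exp_pos _)]
    have r5 : Real.exp (u * Real.log 3) ≤ Y := by
      rw [hY]
      exact Real.exp_le_exp.2 hu1'.2
    have r6 : |(Real.exp E - 1) * R + (R - (U1 - U2))| ≤ (2 * M + 6) * ε₁ := by
      have q1 := abs_add_le ((Real.exp E - 1) * R) (R - (U1 - U2))
      have q2 : |(Real.exp E - 1) * R| ≤ 2 * ε₁ * (M + 2) := by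
        rw [abs_mul]
        exact mul_le_mul r3 r2 (abs_nonneg _) (by positivity)
      linarith
    calc _ ≤ Y * ((2 * M + 6) * ε₁) := mul_le_mul r5 r6 (abs_nonneg _) hY0.le
      _ = _ := by ring
  refine (Finset.abs_sum_le_sum_abs _ _).trans ((Finset.sum_le_sum hterm).trans ?_)
  rw [Finset.sum_const, card_range, nsmul_eq_mul]
  push_cast
  exact hε₁2

end Pool.Agent.L7h55.GC
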