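import Pool.Agent.L7h55.GC.Growth

/-!
The growth constants of affine neighbours: the deterministic part.
-/

set_option autoImplicit false

namespace Pool.Agent.L7h55.GC

open Finset Filter Topology
open Pool.Agent.H499R2.LT (od od_add)
open Pool.Agent.H499R2.ND (Td)

/-- the approximations of the growth constant increase by at most `2 ^ k` -/
theorem gc_up (m : ℤ) (k : ℕ) : (2 : ℝ) ^ k * ((Td 1)^[k] m : ℤ) / 3 ^ (oddc k m) ≤ m + 2 ^ k := by
  induction k with
  | zero => simp [oddc]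
  | succ k ih =>
    rw [pow3] at ih ⊢
    rw [od_add 1 k 1, od_one, Function.iterate_succ_apply']
    have hod : (1 : ℝ) ≤ 3 ^ (od 1 k m) := by
      rw [← pow3]
      exact one_le_pow₀ (by norm_num)
    revert ih
    generalize (Td 1)^[k] m = y
    intro ih
    have h3 : (0 : ℝ) < 3 ^ (od 1 k m) := by positivity
    have h33 : (3 : ℝ) ≠ 0 := by norm_num
    have h2k : (0 : ℝ) < 2 ^ k := by positivity
    rcases Int.emod_two_eq_zero_or_one y with h | h
    · have e : Td 1 y = y / 2 := by unfold Td; rw [if_pos h]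
      have e2 : ((y / 2 : ℤ) : ℝ) = (y : ℝ) / 2 := by
        have : y / 2 * 2 = y := by omega
        have h4 : ((y / 2 : ℤ) : ℝ) * 2 = y := by exact_mod_cast this
        linarith
      rw [if_pos h, e, e2, add_zero, pow_succ]
      have : (2 : ℝ) ^ k * 2 * (y / 2) / 3 ^ (od 1 k m) = 2 ^ k * y / 3 ^ (od 1 k m) := by ring
      rw [this]
      linarith
    · have e : Td 1 y = (3 * y + 1) / 2 := by unfold Td; rw [if_neg (by omega)]
      have e2 : (((3 * y + 1) / 2 : ℤ) : ℝ) = (3 * (y : ℝ) + 1) / 2 := by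
        have : (3 * y + 1) / 2 * 2 = 3 * y + 1 := by omega
        have h4 : (((3 * y + 1) / 2 : ℤ) : ℝ) * 2 = 3 * y + 1 := by exact_mod_cast this
        linarith
      rw [if_neg (by omega), e, e2, zpow_add₀ h33, zpow_one, pow_succ]
      have e3 : (2 : ℝ) ^ k * 2 * ((3 * (y : ℝ) + 1) / 2) / (3 ^ (od 1 k m) * 3) =
          2 ^ k * y / 3 ^ (od 1 k m) + 2 ^ k / (3 ^ (od 1 k m) * 3) := by
        field_simp
      rw [e3]
      have : (2 : ℝ) ^ k / (3 ^ (od 1 k m) * 3) ≤ 2 ^ k := by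
        rw [div_le_iff₀ (by positivity)]
        nlinarith
      linarith

/-- the growth constants of the affine neighbours -/
theorem gc_nbr {x m : ℤ} {t a b a' b' : ℕ} {w R : ℝ} (h : (Td 1)^[t + a'] m = (Td 1)^[t + a] x) (hw : Gc x w)
    (hR : |((2 ^ a * 3 ^ b * m - 2 ^ a' * 3 ^ b' * x : ℤ) : ℝ)| ≤ R)
    (hE : R + 2 ^ (t + a + a') * 3 ^ (b + b') < 2 / 3 * (|(x : ℝ)| - 2 ^ (t + a))) :
    Gc m (w * (2 ^ a' * 3 ^ b') / (2 ^ a * 3 ^ b)) := by
  set y := (Td 1)^[t + a'] m with hy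
  obtain ⟨M, hM⟩ : ∃ M : ℝ, M = (2 : ℝ) ^ (t + a') * (y : ℤ) / 3 ^ (oddc (t + a') m) := ⟨_, rfl⟩
  obtain ⟨X, hX⟩ : ∃ X : ℝ, X = (2 : ℝ) ^ (t + a) * (y : ℤ) / 3 ^ (oddc (t + a) x) := ⟨_, rfl⟩
  have hM1 : (m : ℝ) ≤ M := by
    have := gc_mono m (Nat.zero_le (t + a'))
    simp only [Function.iterate_zero, id_eq, pow_zero, one_mul] at this
    rw [hM]
    simpa [oddc] using this
  have hM2 : M ≤ m + 2 ^ (t + a') := by rw [hM]; exact gc_up m _
  have hX1 : (x : ℝ) ≤ X := by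
    have := gc_mono x (Nat.zero_le (t + a))
    simp only [Function.iterate_zero, id_eq, pow_zero, one_mul] at this
    rw [hX, h]
    simpa [oddc] using this
  have hX2 : X ≤ x + 2 ^ (t + a) := by rw [hX, h]; exact gc_up x _
  have hMX : M * 3 ^ (oddc (t + a') m) * 2 ^ a = X * 3 ^ (oddc (t + a) x) * 2 ^ a' := by
    rw [hM, hX, div_mul_cancel₀ _ (by positivity), div_mul_cancel₀ _ (by positivity), pow_add, pow_add]
    ring
  obtain ⟨α, hα⟩ : ∃ α : ℝ, α = 2 ^ a * 3 ^ b * M := ⟨_, rfl⟩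
  obtain ⟨β, hβ⟩ : ∃ β : ℝ, β = 2 ^ a' * 3 ^ b' * X := ⟨_, rfl⟩
  have hαβ : α * 3 ^ (oddc (t + a') m + b') = β * 3 ^ (oddc (t + a) x + b) := by
    rw [hα, hβ, pow_add, pow_add]
    linear_combination (3 ^ b * 3 ^ b' : ℝ) * hMX
  have hp : (0 : ℝ) < 2 ^ (t + a) := by positivity
  have hdiff : |α - β| ≤ R + 2 ^ (t + a + a') * 3 ^ (b + b') := by
    have e1 : α - β = ((2 ^ a * 3 ^ b * m - 2 ^ a' * 3 ^ b' * x : ℤ) : ℝ) +
        (2 ^ a * 3 ^ b * (M - m) - 2 ^ a' * 3 ^ b' * (X - x)) := by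
      rw [hα, hβ]; push_cast; ring
    have e2 : |2 ^ a * 3 ^ b * (M - m) - 2 ^ a' * 3 ^ b' * (X - x)| ≤ 2 ^ (t + a + a') * 3 ^ (b + b') := by
      have g1 : 0 ≤ 2 ^ a * 3 ^ b * (M - m) := mul_nonneg (by positivity) (by linarith)
      have g2 : 0 ≤ 2 ^ a' * 3 ^ b' * (X - x) := mul_nonneg (by positivity) (by linarith)
      have k1 : (1 : ℝ) ≤ 3 ^ b := one_le_pow₀ (by norm_num)
      have k2 : (1 : ℝ) ≤ 3 ^ b' := one_le_pow₀ (by norm_num)
      have g3 : 2 ^ a * 3 ^ b * (M - m) ≤ 2 ^ (t + a + a') * 3 ^ (b + b') := by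
        calc 2 ^ a * 3 ^ b * (M - m) ≤ 2 ^ a * 3 ^ b * 2 ^ (t + a') :=
              mul_le_mul_of_nonneg_left (by linarith) (by positivity)
          _ = 2 ^ (t + a + a') * 3 ^ b * 1 := by rw [pow_add, pow_add, pow_add]; ring
          _ ≤ 2 ^ (t + a + a') * 3 ^ b * 3 ^ b' := mul_le_mul_of_nonneg_left k2 (by positivity)
          _ = _ := by rw [pow_add 3 b b']; ring
      have g4 : 2 ^ a' * 3 ^ b' * (X - x) ≤ 2 ^ (t + a + a') * 3 ^ (b + b') := by
        calc 2 ^ a' * 3 ^ b' * (X - x) ≤ 2 ^ a' * 3 ^ b' * 2 ^ (t + a) :=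
              mul_le_mul_of_nonneg_left (by linarith) (by positivity)
          _ = 2 ^ (t + a + a') * 3 ^ b' * 1 := by rw [pow_add, pow_add, pow_add]; ring
          _ ≤ 2 ^ (t + a + a') * 3 ^ b' * 3 ^ b := mul_le_mul_of_nonneg_left k1 (by positivity)
          _ = _ := by rw [pow_add 3 b b']; ring
      rw [abs_le]
      constructor <;> linarith
    rw [e1]
    exact (abs_add_le _ _).trans (add_le_add hR e2)
  have hβ1 : |(x : ℝ)| - 2 ^ (t + a) ≤ |β| := by
    have e1 : |X| ≤ |β| := by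
      rw [hβ, abs_mul, abs_of_pos (by positivity : (0 : ℝ) < 2 ^ a' * 3 ^ b')]
      have k1 : (1 : ℝ) ≤ 2 ^ a' := one_le_pow₀ (by norm_num)
      have k2 : (1 : ℝ) ≤ 3 ^ b' := one_le_pow₀ (by norm_num)
      have k3 : (1 : ℝ) ≤ 2 ^ a' * 3 ^ b' := by nlinarith
      nlinarith [abs_nonneg X]
    have e2 : |(x : ℝ)| - |X| ≤ |(x : ℝ) - X| := abs_sub_abs_le_abs_sub _ _
    have e3 : |(x : ℝ) - X| ≤ 2 ^ (t + a) := by
      rw [abs_le]
      constructor <;> linarith
    linarith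
  have heq : oddc (t + a') m + b' = oddc (t + a) x + b := by
    by_contra hne
    have key : 2 / 3 * |β| ≤ |α - β| := by
      revert hne hαβ
      generalize oddc (t + a') m + b' = p
      generalize oddc (t + a) x + b = q
      intro hαβ hne
      rcases Nat.lt_or_gt_of_ne hne with hlt | hlt
      · obtain ⟨j, hj⟩ := Nat.exists_eq_add_of_lt hlt
        have e0 : (0 : ℝ) < 3 ^ p := by positivity
        have e1 : α = β * 3 ^ j * 3 := by
          apply mul_right_cancel₀ e0.ne'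
          rw [hαβ, hj, pow_succ, pow_add]; ring
        have e2 : α - β = β * (3 ^ j * 3 - 1) := by rw [e1]; ring
        have e3 : (1 : ℝ) ≤ 3 ^ j := one_le_pow₀ (by norm_num)
        rw [e2, abs_mul, abs_of_pos (by linarith : (0 : ℝ) < 3 ^ j * 3 - 1)]
        nlinarith [abs_nonneg β, mul_le_mul_of_nonneg_left e3 (abs_nonneg β)]
      · obtain ⟨j, hj⟩ := Nat.exists_eq_add_of_lt hlt
        have e0 : (0 : ℝ) < 3 ^ q := by positivity
        have e1 : β = α * 3 ^ j * 3 := by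
          apply mul_right_cancel₀ e0.ne'
          rw [← hαβ, hj, pow_succ, pow_add]; ring
        have e2 : α - β = -(α * (3 ^ j * 3 - 1)) := by rw [e1]; ring
        have e3 : (1 : ℝ) ≤ 3 ^ j := one_le_pow₀ (by norm_num)
        have e4 : |β| = |α| * (3 ^ j * 3) := by
          rw [e1, abs_mul, abs_mul, abs_of_pos (by positivity : (0 : ℝ) < 3 ^ j)]
          norm_num
          ring
        rw [e2, abs_neg, abs_mul, abs_of_pos (by linarith : (0 : ℝ) < 3 ^ j * 3 - 1), e4]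
        nlinarith [abs_nonneg α, mul_le_mul_of_nonneg_left e3 (abs_nonneg α)]
    linarith
  have h1 := gc_merge h hw
  have hz : od 1 (t + a') m - od 1 (t + a) x = (b : ℤ) - b' := by
    rw [← oddc_od, ← oddc_od]
    omega
  have h2 : (2 : ℝ) ≠ 0 := by norm_num
  have h3 : (3 : ℝ) ≠ 0 := by norm_num
  have hexp : ((t + a' : ℕ) : ℤ) - ((t + a : ℕ) : ℤ) = (a' : ℤ) - a := by push_cast; ring
  rw [hz, hexp, zpow_sub₀ h2, zpow_sub₀ h3, zpow_natCast, zpow_natCast, zpow_natCast, zpow_natCast] at h1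
  convert h1 using 1
  field_simp

end Pool.Agent.L7h55.GC
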