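import Pool.Agent.W38.AFe

/-!
Densities of monotone families of sets, almost invariant under the shift by one, in residue classes.
-/

set_option autoImplicit false

namespace Pool.Agent.L7h55.GC.Nb

open Filter Topology Pool.Agent.H499R2.CO

/-- the counting function -/
noncomputable def ct (P : ℕ → Prop) (N : ℕ) : ℝ := ({n : ℕ | 1 ≤ n ∧ n ≤ N ∧ P n}.ncard : ℝ)

theorem ct_fin (P : ℕ → Prop) (N : ℕ) : {n : ℕ | 1 ≤ n ∧ n ≤ N ∧ P n}.Finite :=
  (Set.finite_Icc 1 N).subset (fun _ hn => ⟨hn.1, hn.2.1⟩)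

theorem ct_nonneg (P : ℕ → Prop) (N : ℕ) : 0 ≤ ct P N := Nat.cast_nonneg _

theorem ct_mono {P Q : ℕ → Prop} (h : ∀ n, 1 ≤ n → P n → Q n) (N : ℕ) : ct P N ≤ ct Q N := by
  unfold ct
  have := Set.ncard_le_ncard (s := {n : ℕ | 1 ≤ n ∧ n ≤ N ∧ P n}) (t := {n : ℕ | 1 ≤ n ∧ n ≤ N ∧ Q n})
    (fun n ⟨h1, h2, h3⟩ => ⟨h1, h2, h n h1 h3⟩) (ct_fin Q N)
  exact_mod_cast this

theorem ct_or (P Q : ℕ → Prop) (N : ℕ) : ct (fun n => P n ∨ Q n) N ≤ ct P N + ct Q N := by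
  unfold ct
  have h1 : {n : ℕ | 1 ≤ n ∧ n ≤ N ∧ (P n ∨ Q n)} = {n : ℕ | 1 ≤ n ∧ n ≤ N ∧ P n} ∪ {n : ℕ | 1 ≤ n ∧ n ≤ N ∧ Q n} := by
    ext n
    simp only [Set.mem_ofPred_eq, Set.mem_union]
    tauto
  rw [h1]
  exact_mod_cast Set.ncard_union_le _ _

theorem ct_lt (K N : ℕ) : ct (fun n => n ≤ K) N ≤ K := by
  unfold ct
  have : {n : ℕ | 1 ≤ n ∧ n ≤ N ∧ n ≤ K}.ncard ≤ K := by
    have h0 : {n : ℕ | 1 ≤ n ∧ n ≤ N ∧ n ≤ K} ⊆ ((Finset.Icc 1 K : Finset ℕ) : Set ℕ) := by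
      intro n hn
      obtain ⟨h1, _, h3⟩ := hn
      simp [h1, h3]
    refine (Set.ncard_le_ncard h0 (Finset.finite_toSet _)).trans ?_
    rw [Set.ncard_coe_finset]
    simp
  exact_mod_cast this

/-- the shift by one -/
theorem ct_shift {P Q : ℕ → Prop} (h : ∀ n, 1 ≤ n → P n → Q (n + 1)) (N : ℕ) : ct P N ≤ ct Q N + 1 := by
  unfold ct
  have h1 : (fun n => n + 1) '' {n : ℕ | 1 ≤ n ∧ n ≤ N ∧ P n} ⊆ {n : ℕ | 1 ≤ n ∧ n ≤ N ∧ Q n} ∪ {N + 1} := by
    rintro m ⟨n, ⟨h1, h2, h3⟩, rfl⟩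
    rcases Nat.lt_or_ge n N with h4 | h4
    · exact Or.inl ⟨by simp, by simp only; omega, h n h1 h3⟩
    · refine Or.inr ?_
      have : n = N := le_antisymm h2 h4
      simp [this]
  have h2 := Set.ncard_le_ncard h1 ((ct_fin Q N).union (Set.finite_singleton _))
  rw [Set.ncard_image_of_injective _ (fun a b hab => by simpa using hab)] at h2
  have h3 := h2.trans (Set.ncard_union_le _ _)
  rw [Set.ncard_singleton] at h3
  exact_mod_cast h3

/-- the sum over the residue classes -/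
theorem ct_classes (P : ℕ → Prop) {q : ℕ} (hq : 0 < q) (c : ℕ) (N : ℕ) :
    ct P N = ∑ i ∈ Finset.range q, ct (fun n => n % q = (c + i) % q ∧ P n) N := by
  classical
  unfold ct
  rw [← Nat.cast_sum]
  congr 1
  simp only [ncard_filter]
  rw [← Finset.card_biUnion]
  · congr 1
    ext n
    simp only [Finset.mem_filter, Finset.mem_biUnion, Finset.mem_range]
    constructor
    · rintro ⟨h1, h2⟩
      refine ⟨(n + (q - c % q)) % q, Nat.mod_lt _ hq, h1, ?_, h2⟩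
      have hc := Nat.mod_lt c hq
      have e1 : (c + (n + (q - c % q)) % q) % q = (c % q + (n + (q - c % q))) % q := by
        simp [Nat.add_mod]
      rw [e1, show c % q + (n + (q - c % q)) = n + q by omega, Nat.add_mod_right]
    · rintro ⟨i, _, h1, _, h2⟩
      exact ⟨h1, h2⟩
  · intro i hi j hj hij
    rw [Function.onFun, Finset.disjoint_left]
    intro n hn hn'
    simp only [Finset.mem_filter] at hn hn'
    have h1 : (c + i) % q = (c + j) % q := by rw [← hn.2.1, ← hn'.2.1]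
    have h2 : i ≡ j [MOD q] := Nat.ModEq.add_left_cancel' c h1
    have h3 : i % q = j % q := h2
    rw [Nat.mod_eq_of_lt (Finset.mem_range.1 hi), Nat.mod_eq_of_lt (Finset.mem_range.1 hj)] at h3
    exact hij h3

theorem HD_ct {P : ℕ → Prop} {l : ℝ} : HD P l ↔ Tendsto (fun N : ℕ => ct P N / N) atTop (𝓝 l) := Iff.rfl

/-- squeezing -/
theorem squeeze {G : ℕ → Prop} (hG : HD G 1) {R : ℝ → ℕ → Prop} {v : ℝ → ℝ} (hv : Continuous v) (t₀ : ℝ)
    (hR : ∀ t, HD (R t) (v t)) {S : ℕ → Prop} (h1 : ∀ n, 1 ≤ n → S n → R t₀ n)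
    (h2 : ∀ ε : ℝ, 0 < ε → ∃ K : ℕ, ∀ n, K < n → G n → R (t₀ - ε) n → S n) : HD S (v t₀) := by
  have hG' : Tendsto (fun N : ℕ => ct (fun n => ¬ G n) N / N) atTop (𝓝 0) := by
    have := HD_not hG
    rw [sub_self] at this
    exact this
  rw [HD_ct, Metric.tendsto_atTop]
  intro η hη
  obtain ⟨δ, hδ, hδv⟩ := Metric.continuous_iff.1 hv t₀ (η / 2) (by positivity)
  obtain ⟨K, hK⟩ := h2 (δ / 2) (by positivity)
  have hv' := hδv (t₀ - δ / 2) (by rw [Real.dist_eq]; rw [show t₀ - δ / 2 - t₀ = -(δ / 2) by ring, abs_neg, abs_of_pos (by positivity)]; linarith)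
  rw [Real.dist_eq, abs_lt] at hv'
  have hK' : Tendsto (fun N : ℕ => (K : ℝ) / N) atTop (𝓝 0) := tendsto_const_div_atTop_nhds_zero_nat _
  have hlow : Tendsto (fun N : ℕ => ct (R (t₀ - δ / 2)) N / N - ct (fun n => ¬ G n) N / N - (K : ℝ) / N) atTop
      (𝓝 (v (t₀ - δ / 2) - 0 - 0)) := ((hR (t₀ - δ / 2)).sub hG').sub hK'
  rw [sub_zero, sub_zero] at hlow
  have e1 := hlow.eventually (lt_mem_nhds (show v t₀ - η < v (t₀ - δ / 2) by linarith))
  have e2 := (HD_ct.1 (hR t₀)).eventually (gt_mem_nhds (show v t₀ < v t₀ + η by linarith))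
  obtain ⟨N₀, hN₀⟩ := eventually_atTop.1 (e1.and e2)
  refine ⟨N₀ + 1, fun N hN => ?_⟩
  obtain ⟨f1, f2⟩ := hN₀ N (by omega)
  have hN0 : (0 : ℝ) < N := by
    have : 0 < N := by omega
    exact_mod_cast this
  have g1 : ct S N / N ≤ ct (R t₀) N / N := div_le_div_of_nonneg_right (ct_mono h1 N) hN0.le
  have g2 : ct (R (t₀ - δ / 2)) N ≤ ct S N + ct (fun n => ¬ G n) N + K := by
    have k1 := ct_mono (P := R (t₀ - δ / 2)) (Q := fun n => (S n ∨ ¬ G n) ∨ n ≤ K) (fun n hn h3 => by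
      by_cases h4 : n ≤ K
      · exact Or.inr h4
      · by_cases h5 : G n
        · exact Or.inl (Or.inl (hK n (by omega) h5 h3))
        · exact Or.inl (Or.inr h5)) N
    have k2 := ct_or (fun n => S n ∨ ¬ G n) (fun n => n ≤ K) N
    have k3 := ct_or S (fun n => ¬ G n) N
    have k4 := ct_lt K N
    linarith
  have g3 : ct (R (t₀ - δ / 2)) N / N - ct (fun n => ¬ G n) N / N - (K : ℝ) / N ≤ ct S N / N := by
    rw [← sub_div, ← sub_div]
    apply div_le_div_of_nonneg_right _ hN0.le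
    linarith
  rw [Real.dist_eq, abs_lt]
  constructor <;> linarith

/-- equidistribution in residue classes -/
theorem equi {G : ℕ → Prop} (hG : HD G 1) {P : ℝ → ℕ → Prop} {V : ℝ → ℝ} (hV : Continuous V)
    (hP : ∀ t, HD (P t) (V t)) (hmono : ∀ s t n, s ≤ t → P s n → P t n)
    (hsh : ∀ ε : ℝ, 0 < ε → ∃ K : ℕ, ∀ n, K < n → G n → ∀ t, P (t - ε) n → P t (n + 1))
    {q : ℕ} (hq : 0 < q) (c : ℕ) (t₀ : ℝ) : HD (fun n => n % q = c % q ∧ P t₀ n) (V t₀ / q) := by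
  have hG' : Tendsto (fun N : ℕ => ct (fun n => ¬ G n) N / N) atTop (𝓝 0) := by
    have := HD_not hG
    rw [sub_self] at this
    exact this
  have hqr : (0 : ℝ) < q := by exact_mod_cast hq
  -- one step
  have step : ∀ ε : ℝ, 0 < ε → ∃ K : ℕ, ∀ (t : ℝ) (c N : ℕ), ct (fun n => n % q = c % q ∧ P (t - ε) n) N ≤
      ct (fun n => n % q = (c + 1) % q ∧ P t n) N + (ct (fun n => ¬ G n) N + K) := by
    intro ε hε
    obtain ⟨K, hK⟩ := hsh ε hε
    refine ⟨K + 1, fun t c N => ?_⟩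
    have k0 := ct_mono (P := fun n => n % q = c % q ∧ P (t - ε) n)
      (Q := fun n => ((n % q = c % q ∧ P t (n + 1)) ∨ ¬ G n) ∨ n ≤ K) (fun n hn ⟨h3, h4⟩ => by
        by_cases h5 : n ≤ K
        · exact Or.inr h5
        · by_cases h6 : G n
          · exact Or.inl (Or.inl ⟨h3, hK n (by omega) h6 t h4⟩)
          · exact Or.inl (Or.inr h6)) N
    have k1 := ct_shift (P := fun n => n % q = c % q ∧ P t (n + 1)) (Q := fun n => n % q = (c + 1) % q ∧ P t n)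
      (fun n hn ⟨h3, h4⟩ => ⟨by rw [Nat.add_mod, h3, ← Nat.add_mod], h4⟩) N
    have k2 := ct_or (fun n => (n % q = c % q ∧ P t (n + 1)) ∨ ¬ G n) (fun n => n ≤ K) N
    have k3 := ct_or (fun n => n % q = c % q ∧ P t (n + 1)) (fun n => ¬ G n) N
    have k4 := ct_lt K N
    push_cast
    linarith
  have iter : ∀ ε : ℝ, 0 < ε → ∃ K : ℕ, ∀ (t : ℝ) (c N j : ℕ), ct (fun n => n % q = c % q ∧ P (t - j * ε) n) N ≤
      ct (fun n => n % q = (c + j) % q ∧ P t n) N + j * (ct (fun n => ¬ G n) N + K) := by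
    intro ε hε
    obtain ⟨K, hK⟩ := step ε hε
    refine ⟨K, fun t c N j => ?_⟩
    induction j generalizing t c with
    | zero => simp
    | succ j ih =>
      have h1 := ih (t - ε) c
      have h2 := hK t (c + j) N
      rw [show t - ε - j * ε = t - ((j + 1 : ℕ) : ℝ) * ε by push_cast; ring] at h1
      rw [add_assoc c j 1] at h2
      push_cast at h1 ⊢
      linarith
  have iterq : ∀ ε : ℝ, 0 < ε → ∃ K : ℕ, ∀ (t : ℝ) (c N j : ℕ), j ≤ q → ct (fun n => n % q = c % q ∧ P (t - q * ε) n) N ≤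
      ct (fun n => n % q = (c + j) % q ∧ P t n) N + q * (ct (fun n => ¬ G n) N + K) := by
    intro ε hε
    obtain ⟨K, hK⟩ := iter ε hε
    refine ⟨K, fun t c N j hj => ?_⟩
    have hjr : (j : ℝ) ≤ q := by exact_mod_cast hj
    have h1 := ct_mono (P := fun n => n % q = c % q ∧ P (t - q * ε) n) (Q := fun n => n % q = c % q ∧ P (t - j * ε) n)
      (fun n _ ⟨h2, h3⟩ => ⟨h2, hmono _ _ n (by nlinarith) h3⟩) N
    have h2 := hK t c N j
    have h3 : (j : ℝ) * (ct (fun n => ¬ G n) N + K) ≤ q * (ct (fun n => ¬ G n) N + K) :=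
      mul_le_mul_of_nonneg_right hjr (add_nonneg (ct_nonneg _ _) (Nat.cast_nonneg _))
    linarith
  rw [HD_ct, Metric.tendsto_atTop]
  intro η hη
  obtain ⟨δ, hδ, hδv⟩ := Metric.continuous_iff.1 hV t₀ (η / 2) (by positivity)
  obtain ⟨ε, hε, hεδ⟩ : ∃ ε : ℝ, 0 < ε ∧ q * ε = δ / 2 := ⟨δ / 2 / q, by positivity, by field_simp⟩
  obtain ⟨K, hK⟩ := iterq ε hε
  rw [hεδ] at hK
  have hv1 := hδv (t₀ - δ / 2) (by rw [Real.dist_eq]; rw [show t₀ - δ / 2 - t₀ = -(δ / 2) by ring, abs_neg, abs_of_pos (by positivity)]; linarith)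
  have hv2 := hδv (t₀ + δ / 2) (by rw [Real.dist_eq]; rw [show t₀ + δ / 2 - t₀ = δ / 2 by ring, abs_of_pos (by positivity)]; linarith)
  rw [Real.dist_eq, abs_lt] at hv1 hv2
  have hK' : Tendsto (fun N : ℕ => (K : ℝ) / N) atTop (𝓝 0) := tendsto_const_div_atTop_nhds_zero_nat _
  have hE : Tendsto (fun N : ℕ => (q : ℝ) * (ct (fun n => ¬ G n) N / N + (K : ℝ) / N)) atTop (𝓝 (q * (0 + 0))) :=
    (hG'.add hK').const_mul _
  rw [add_zero, mul_zero] at hE
  have hlow : Tendsto (fun N : ℕ => ct (P (t₀ - δ / 2)) N / N / q - (q : ℝ) * (ct (fun n => ¬ G n) N / N + (K : ℝ) / N)) atTop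
      (𝓝 (V (t₀ - δ / 2) / q - 0)) := ((hP (t₀ - δ / 2)).div_const _).sub hE
  have hhigh : Tendsto (fun N : ℕ => ct (P (t₀ + δ / 2)) N / N / q + (q : ℝ) * (ct (fun n => ¬ G n) N / N + (K : ℝ) / N)) atTop
      (𝓝 (V (t₀ + δ / 2) / q + 0)) := ((hP (t₀ + δ / 2)).div_const _).add hE
  rw [sub_zero] at hlow
  rw [add_zero] at hhigh
  have hq1 : (1 : ℝ) ≤ q := by exact_mod_cast hq
  have c1 : V t₀ / q - η < V (t₀ - δ / 2) / q := by
    have : V t₀ / q - V (t₀ - δ / 2) / q < η := by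
      rw [← sub_div, div_lt_iff₀ hqr]
      nlinarith
    linarith
  have c2 : V (t₀ + δ / 2) / q < V t₀ / q + η := by
    have : V (t₀ + δ / 2) / q - V t₀ / q < η := by
      rw [← sub_div, div_lt_iff₀ hqr]
      nlinarith
    linarith
  have e1 := hlow.eventually (lt_mem_nhds c1)
  have e2 := hhigh.eventually (gt_mem_nhds c2)
  obtain ⟨N₀, hN₀⟩ := eventually_atTop.1 (e1.and e2)
  refine ⟨N₀ + 1, fun N hN => ?_⟩
  obtain ⟨f1, f2⟩ := hN₀ N (by omega)
  have hN0 : (0 : ℝ) < N := by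
    have : 0 < N := by omega
    exact_mod_cast this
  -- the two inequalities
  have g1 : ct (P (t₀ - δ / 2)) N ≤ q * (ct (fun n => n % q = c % q ∧ P t₀ n) N + q * (ct (fun n => ¬ G n) N + K)) := by
    rw [ct_classes (P (t₀ - δ / 2)) hq c N]
    refine (Finset.sum_le_card_nsmul _ _ (ct (fun n => n % q = c % q ∧ P t₀ n) N + q * (ct (fun n => ¬ G n) N + K))
      (fun i hi => ?_)).trans ?_
    · have h3 := hK t₀ (c + i) N (q - i) (Nat.sub_le _ _)
      have h4 : (c + i + (q - i)) % q = c % q := by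
        rw [show c + i + (q - i) = c + q by have := Finset.mem_range.1 hi; omega, Nat.add_mod_right]
      rw [h4] at h3
      exact h3
    · rw [Finset.card_range, nsmul_eq_mul]
  have g2 : q * ct (fun n => n % q = c % q ∧ P t₀ n) N ≤ ct (P (t₀ + δ / 2)) N + q * (q * (ct (fun n => ¬ G n) N + K)) := by
    have h3 : ∀ i ∈ Finset.range q, ct (fun n => n % q = c % q ∧ P t₀ n) N - q * (ct (fun n => ¬ G n) N + K) ≤
        ct (fun n => n % q = (c + i) % q ∧ P (t₀ + δ / 2) n) N := by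
      intro i hi
      have h4 := hK (t₀ + δ / 2) c N i (Finset.mem_range.1 hi).le
      rw [add_sub_cancel_right] at h4
      linarith
    have h5 := Finset.card_nsmul_le_sum _ _ _ h3
    rw [← ct_classes (P (t₀ + δ / 2)) hq c N, Finset.card_range, nsmul_eq_mul] at h5
    linarith
  have k1 : ct (P (t₀ - δ / 2)) N / N / q - (q : ℝ) * (ct (fun n => ¬ G n) N / N + (K : ℝ) / N) ≤
      ct (fun n => n % q = c % q ∧ P t₀ n) N / N := by
    rw [sub_le_iff_le_add, div_le_iff₀ hqr, div_le_iff₀ hN0]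
    refine g1.trans (le_of_eq ?_)
    field_simp
  have k2 : ct (fun n => n % q = c % q ∧ P t₀ n) N / N ≤
      ct (P (t₀ + δ / 2)) N / N / q + (q : ℝ) * (ct (fun n => ¬ G n) N / N + (K : ℝ) / N) := by
    rw [← mul_le_mul_iff_right₀ (mul_pos hqr hN0)]
    have l1 : (q : ℝ) * N * (ct (fun n => n % q = c % q ∧ P t₀ n) N / N) = q * ct (fun n => n % q = c % q ∧ P t₀ n) N := by
      field_simp
    have l2 : (q : ℝ) * N * (ct (P (t₀ + δ / 2)) N / N / q + (q : ℝ) * (ct (fun n => ¬ G n) N / N + (K : ℝ) / N)) =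
        ct (P (t₀ + δ / 2)) N + q * (q * (ct (fun n => ¬ G n) N + K)) := by
      field_simp
    rw [l1, l2]
    exact g2
  rw [Real.dist_eq, abs_lt]
  constructor <;> linarith

end Pool.Agent.L7h55.GC.Nb
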