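import Pool.Agent.L7h55.GC.Quo

/-!
The law of the quotients of the divergent integers by their growth constants: the final theorem.
-/

set_option autoImplicit false

namespace Pool.Agent.L7h55.GC

open Finset Filter Topology
open Pool.Agent.R468.GL
open Pool.Agent.R468.MF
open Pool.Agent.R468.MG
open Pool.Agent.H499R2.ND (Td HD Mg Mg_inv Mg_self Mg_iter Mg_symm Mg_trans class_pos Td_side side_odd side_cop cop_of_not_dvd HD_ncard)
open Pool.Agent.R468.LL (lam lam_eq lam_pos lam_lt)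

/-- the constant -/
def AA (A : ℝ) : Prop := 0 ≤ A ∧ ∀ n : ℤ, Dv n → ∃ w : ℝ, w ≠ 0 ∧ Gc n w ∧ abs (Real.log |w| - Real.log |(n : ℝ)|) ≤ A

theorem dv_inj {n : ℤ} (h : Dv n) : Function.Injective (fun c : ℕ => (Td 1)^[c] n) :=
  Pool.Agent.Results.MP_ff4775_nt.DivergentAsymptotics.injective_of_tendsto h

theorem dv_ne {n : ℤ} (h : Dv n) : n ≠ 0 := by
  rintro rfl
  have : (0 : ℕ) = 1 := dv_inj h (by decide)
  omega

theorem sgn_merge {s : ℤ} (hs : s = 1 ∨ s = -1) {n m : ℤ} (h : m ∈ Mg (Td 1) n) (hn : 0 < s * n) : 0 < s * m := by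
  obtain ⟨a, b, h⟩ := h
  exact mer_sgn hs hn h

theorem dv_neg (n : ℤ) (hn : n < 0) (w : ℝ) (h : Gc n w) : w ≤ 0 := by
  refine gc_neg h fun k => ?_
  have hm : 0 < -1 * n := by omega
  have := sgn_iter (Or.inr rfl) hm k
  omega

/-- the law for a class -/
theorem class_law {A : ℝ} (hA : AA A) {s : ℤ} (hs : s = 1 ∨ s = -1) {n0 : ℤ} (h0 : 0 < s * n0) (hd : Dv n0) :
    ∃ V : ℝ → ℝ, LawP s A V ∧ (∀ t, ND s (Q t ∩ Mg (Td 1) n0) (V t)) ∧ 0 < V (Real.exp A) := by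
  obtain ⟨hA0, hA⟩ := hA
  have hinj := dv_inj hd
  have h3 := log3_pos
  obtain ⟨w, hw0, hw, -⟩ := hA n0 hd
  obtain ⟨P, hP⟩ := exists_par A
  have hww := ww_pos P
  obtain ⟨δ, Ψ, -, -, hHD, hΨ, Lw, -, -⟩ := mg_law P (side_odd odd_one hs) (side_cop isCoprime_one_left hs)
    (inj_side odd_one hs hinj)
  obtain ⟨δ₀, Ψ₀, -, -, -, -, Lw₀, -, -⟩ := mg_law PT (side_odd odd_one hs) (side_cop isCoprime_one_left hs)
    (inj_side odd_one hs hinj)
  have h2' : HD s (Mg (Td 1) n0) δ := by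
    rw [HD_one, Mg_side odd_one hs] at hHD
    exact hHD
  have hδ : 0 < δ := by
    obtain ⟨a, g1, g2, g3⟩ := good_term hs h0
    exact class_pos odd_one (by omega) hs (Mg_inv 1 n0) g1 g2 g3 h2'
  have hS := size_mg hs h0 hd hinj hA0 hA hw0 hw
  have h1 : 2 * (if s = 1 then A else 0) < ww P := by split_ifs <;> linarith
  have h2 : 2 * (if s = 1 then 0 else A) < ww P := by split_ifs <;> linarith
  obtain ⟨I, hI⟩ := exists_nat_ge (A / Real.log 3 + 1)
  have hI' : A + Real.log 3 ≤ I * Real.log 3 := by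
    have := mul_le_mul_of_nonneg_right hI h3.le
    have e : (A / Real.log 3 + 1) * Real.log 3 = A + Real.log 3 := by field_simp
    linarith
  have hdens := dens Lw Lw₀ hS h1 h2 I (by split_ifs <;> linarith) (by split_ifs <;> linarith)
  have hVc : Continuous (VV (UU P Ψ (Real.log |w|)) I) := VV_cont (UU_cont Lw.cont) I
  have hND : ∀ t, ND s (Q t ∩ Mg (Td 1) n0) (VV (UU P Ψ (Real.log |w|)) I t) := by
    intro t
    refine ((hdens t).comp tendsto_natCast_atTop_atTop).congr fun N => ?_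
    rw [cN_class hs h0 hd hinj hw0 hw]
    rfl
  have hlaw := lawP_of hs hVc hND hA (fun n _ hn w hw => dv_neg n hn w hw)
  refine ⟨VV (UU P Ψ (Real.log |w|)) I, hlaw, hND, ?_⟩
  have e : ND s (Mg (Td 1) n0) δ := HD_ncard hs h2'
  have e2 : VV (UU P Ψ (Real.log |w|)) I (Real.exp A) = δ := by
    refine ND_unique (hND (Real.exp A)) (e.congr fun N => ?_)
    have : cN s (Mg (Td 1) n0) N = cN s (Q (Real.exp A) ∩ Mg (Td 1) n0) N := by
      refine cN_congr (S := Mg (Td 1) n0) (T := Q (Real.exp A) ∩ Mg (Td 1) n0) (fun n hn => ⟨fun h => ⟨?_, h⟩, fun h => h.2⟩) N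
      have hdn := dv_merge h hd
      obtain ⟨w', hw0', hw', hb⟩ := hA n hdn
      refine ⟨hdn, w', hw', ?_⟩
      have hwp : 0 < |w'| := abs_pos.2 hw0'
      have hnp : 0 < |(n : ℝ)| := abs_pos.2 (by exact_mod_cast dv_ne hdn)
      rw [abs_le] at hb
      rw [← Real.exp_log hwp, ← Real.exp_log hnp, ← Real.exp_add]
      exact Real.exp_le_exp.2 (by linarith)
    rw [← this]
    try rfl
  rw [e2]
  exact hδ

/-- finite unions of classes -/
theorem fin_law {A : ℝ} (hA : AA A) {s : ℤ} (hs : s = 1 ∨ s = -1) (F : Finset ℤ) (hF : ∀ n ∈ F, 0 < s * n ∧ Dv n) :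
    ∃ V : ℝ → ℝ, Continuous V ∧ ∀ t, ND s (Q t ∩ {m | ∃ n ∈ F, m ∈ Mg (Td 1) n}) (V t) := by
  classical
  induction F using Finset.induction_on with
  | empty =>
      refine ⟨fun _ => 0, continuous_const, fun t => ND_empty ?_⟩
      rintro n _ ⟨_, m, hm, _⟩
      simp at hm
  | insert a F ha ih =>
      obtain ⟨V, hV, h⟩ := ih (fun n hn => hF n (mem_insert_of_mem hn))
      by_cases hcase : ∃ n ∈ F, a ∈ Mg (Td 1) n
      · refine ⟨V, hV, fun t => ?_⟩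
        obtain ⟨b, hb, hab⟩ := hcase
        refine (h t).congr fun N => ?_
        rw [cN_congr (fun m _ => ?_)]
        constructor
        · rintro ⟨h1, n, hn, hm⟩
          exact ⟨h1, n, mem_insert_of_mem hn, hm⟩
        · rintro ⟨h1, n, hn, hm⟩
          rcases mem_insert.1 hn with rfl | hn
          · exact ⟨h1, b, hb, Mg_trans hm hab⟩
          · exact ⟨h1, n, hn, hm⟩
      · obtain ⟨ha1, ha2⟩ := hF a (mem_insert_self a F)
        obtain ⟨V', hV', h', -⟩ := class_law hA hs ha1 ha2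
        refine ⟨fun t => V' t + V t, hV'.cont.add hV, fun t => ?_⟩
        have hdis : Disjoint (Q t ∩ Mg (Td 1) a) (Q t ∩ {m | ∃ n ∈ F, m ∈ Mg (Td 1) n}) := by
          rw [Set.disjoint_left]
          rintro m ⟨_, h1⟩ ⟨_, n, hn, h2⟩
          exact hcase ⟨n, hn, Mg_trans (Mg_symm h1) h2⟩
        refine ((h' t).add (h t)).congr fun N => ?_
        rw [← add_div, ← cN_disj hs hdis]
        rw [cN_congr (fun m _ => ?_)]
        constructor
        · rintro (⟨h1, h2⟩ | ⟨h1, n, hn, hm⟩)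
          · exact ⟨h1, a, mem_insert_self a F, h2⟩
          · exact ⟨h1, n, mem_insert_of_mem hn, hm⟩
        · rintro ⟨h1, n, hn, hm⟩
          rcases mem_insert.1 hn with rfl | hn
          · exact Or.inl ⟨h1, hm⟩
          · exact Or.inr ⟨h1, n, hn, hm⟩

/-- the tail -/
theorem tail_ND {s : ℤ} (hs : s = 1 ∨ s = -1) : ∃ C : ℝ, 0 < C ∧ ∀ y : ℝ, 2 ≤ y → ∃ δ : ℝ, δ ≤ C / Real.log y ∧
    ND s {n : ℤ | Dv n ∧ ∀ m : ℤ, m ∈ Mg (Td 1) n → y < |(m : ℝ)|} δ := by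
  obtain ⟨C, hC, h⟩ := (Pool.Agent.Results.MP_ff4775_nt.NaturalDensity.result s hs).2.2 1
  refine ⟨C, hC, fun y hy => ?_⟩
  obtain ⟨δ, h1, h2⟩ := h y hy
  rw [pow_one] at h1
  exact ⟨δ, h1, h2⟩

/-- the approximation -/
theorem approx {A : ℝ} (hA : AA A) {s : ℤ} (hs : s = 1 ∨ s = -1) {ε : ℝ} (hε : 0 < ε) :
    ∃ V : ℝ → ℝ, Continuous V ∧ ∀ t, ∀ᶠ N : ℕ in atTop, |cN s (Q t) N / N - V t| ≤ ε := by
  classical
  obtain ⟨C, hC, hT⟩ := tail_ND hs
  obtain ⟨Y, hY⟩ := exists_nat_ge (max 2 (Real.exp (4 * C / ε)))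
  have hY2 : (2 : ℝ) ≤ Y := (le_max_left _ _).trans hY
  obtain ⟨δ, hδ, hND⟩ := hT Y hY2
  have hlog : 4 * C / ε ≤ Real.log Y := by
    rw [Real.le_log_iff_exp_le (by linarith)]
    exact (le_max_right _ _).trans hY
  have hlog0 : 0 < Real.log Y := lt_of_lt_of_le (by positivity) hlog
  have hδ2 : δ ≤ ε / 4 := by
    refine hδ.trans ?_
    rw [div_le_iff₀ hlog0]
    rw [div_le_iff₀ hε] at hlog
    linarith
  obtain ⟨F, hF⟩ : ∃ F : Finset ℤ, F = (Icc (-(Y : ℤ)) Y).filter (fun n => 0 < s * n ∧ Dv n) := ⟨_, rfl⟩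
  obtain ⟨V, hV, h⟩ := fin_law hA hs F (fun n hn => by rw [hF, mem_filter] at hn; exact hn.2)
  refine ⟨V, hV, fun t => ?_⟩
  have e1 := (h t).eventually (Metric.ball_mem_nhds (V t) (show 0 < ε / 4 by positivity))
  have e2 := hND.eventually (Metric.ball_mem_nhds δ (show 0 < ε / 4 by positivity))
  filter_upwards [e1, e2] with N g1 g2
  rw [Real.dist_eq, abs_lt] at g1 g2
  have g3 : cN s (Q t ∩ {m | ∃ n ∈ F, m ∈ Mg (Td 1) n}) N ≤ cN s (Q t) N := cN_mono hs (fun n _ h => h.1) N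
  have g4 : cN s (Q t) N ≤ cN s (Q t ∩ {m | ∃ n ∈ F, m ∈ Mg (Td 1) n}) N +
      cN s {n : ℤ | Dv n ∧ ∀ m : ℤ, m ∈ Mg (Td 1) n → (Y : ℝ) < |(m : ℝ)|} N := by
    refine le_trans ?_ (cN_union s _ _ N)
    refine cN_mono hs (fun n hn h1 => ?_) N
    by_cases hc : ∃ m : ℤ, m ∈ Mg (Td 1) n ∧ |(m : ℝ)| ≤ Y
    · obtain ⟨m, hm1, hm2⟩ := hc
      refine Or.inl ⟨h1, m, ?_, Mg_symm hm1⟩
      rw [hF, mem_filter, mem_Icc]
      have h3 := abs_le.1 hm2
      refine ⟨⟨by exact_mod_cast h3.1, by exact_mod_cast h3.2⟩, sgn_merge hs hm1 hn, dv_merge hm1 h1.1⟩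
    · refine Or.inr ⟨h1.1, fun m hm => ?_⟩
      by_contra hc'
      exact hc ⟨m, hm, le_of_not_gt hc'⟩
  have g5 : cN s (Q t ∩ {m | ∃ n ∈ F, m ∈ Mg (Td 1) n}) N / N ≤ cN s (Q t) N / N :=
    div_le_div_of_nonneg_right g3 (Nat.cast_nonneg N)
  have g6 : cN s (Q t) N / N ≤ cN s (Q t ∩ {m | ∃ n ∈ F, m ∈ Mg (Td 1) n}) N / N +
      cN s {n : ℤ | Dv n ∧ ∀ m : ℤ, m ∈ Mg (Td 1) n → (Y : ℝ) < |(m : ℝ)|} N / N := by
    rw [← add_div]
    exact div_le_div_of_nonneg_right g4 (Nat.cast_nonneg N)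
  rw [abs_le]
  constructor <;> linarith [g1.1, g1.2, g2.1, g2.2]

/-- the law for all divergent integers -/
theorem all_law {A : ℝ} (hA : AA A) {s : ℤ} (hs : s = 1 ∨ s = -1) :
    ∃ V : ℝ → ℝ, LawP s A V ∧ ∀ t, ND s (Q t) (V t) := by
  have hex : ∀ t : ℝ, ∃ l : ℝ, ND s (Q t) l := by
    intro t
    apply cauchySeq_tendsto_of_complete
    rw [Metric.cauchySeq_iff']
    intro ε hε
    obtain ⟨V, -, h⟩ := approx hA hs (show 0 < ε / 4 by positivity)
    obtain ⟨N₀, hN⟩ := eventually_atTop.1 (h t)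
    refine ⟨N₀, fun n hn => ?_⟩
    have h1 := hN n hn
    have h2 := hN N₀ le_rfl
    rw [Real.dist_eq, abs_lt]
    rw [abs_le] at h1 h2
    constructor <;> linarith [h1.1, h1.2, h2.1, h2.2]
  choose V hV using hex
  have hcont : Continuous V := by
    apply continuous_of_uniform_approx_of_continuous
    intro u hu
    obtain ⟨ε, hε, hεu⟩ := Metric.mem_uniformity_dist.1 hu
    obtain ⟨V', hV', h⟩ := approx hA hs (show 0 < ε / 2 by positivity)
    refine ⟨V', hV', fun t => hεu ?_⟩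
    have h1 : |V t - V' t| ≤ ε / 2 := by
      have h2 := ((hV t).sub_const (V' t)).abs
      exact le_of_tendsto h2 (h t)
    rw [Real.dist_eq]
    linarith
  refine ⟨V, ?_, hV⟩
  refine lawP_of hs hcont (C := Set.univ) (fun t => ?_) hA.2 (fun n _ hn w hw => dv_neg n hn w hw)
  rw [Set.inter_univ]
  exact hV t

end Pool.Agent.L7h55.GC
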