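import Pool.Agent.L7h55.GC.Nb1
import Pool.Agent.L7h55.GC.Nb2
import Pool.Agent.L7h55.GC.Quo2

/-!
The growth constants of affine neighbours, and the law of the quotients in residue classes.
-/

set_option autoImplicit false

namespace Pool.Agent.L7h55.GC.Nb

open Filter Topology
open Pool.Agent.H499R2.CO (HD HD_congr HD_not Tz)
open Pool.Agent.H499R2.ND (Td Mg Mg_symm)
open Pool.Agent.W38.AF (kap Nbr NB kap_nonneg NB_self fwdN)

theorem tz_td : Tz 1 = Td 1 := rfl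

theorem kap_small {n : ℕ} (hn : 400 ≤ Real.log n) : kap n ≤ Real.log n / 20 := by
  have h1 : 1 ≤ Real.log (Real.log n) := by
    rw [Real.le_log_iff_exp_le (by linarith)]
    have := Real.exp_one_lt_d9
    linarith
  have h2 : 1 ≤ (Real.log (Real.log n)) ^ 16 := one_le_pow₀ h1
  unfold kap
  calc √ (Real.log n) / (Real.log (Real.log n)) ^ 16 ≤ √ (Real.log n) / 1 :=
        div_le_div_of_nonneg_left (Real.sqrt_nonneg _) one_pos h2
    _ = √ (Real.log n) := div_one _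
    _ ≤ Real.log n / 20 := by
        apply Real.sqrt_le_left (by linarith) |>.2
        nlinarith

theorem two_le (a : ℕ) {κ : ℝ} (ha : (a : ℝ) ≤ κ) : (2 : ℝ) ^ a ≤ Real.exp (0.7 * κ) := by
  rw [← Real.exp_log (show (0 : ℝ) < 2 ^ a by positivity), Real.log_pow]
  apply Real.exp_le_exp.2
  have := Real.log_two_lt_d9
  have h0 : (0 : ℝ) ≤ a := Nat.cast_nonneg a
  nlinarith

theorem three_le (a : ℕ) {κ : ℝ} (ha : (a : ℝ) ≤ κ) : (3 : ℝ) ^ a ≤ Real.exp (1.4 * κ) := by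
  rw [← Real.exp_log (show (0 : ℝ) < 3 ^ a by positivity), Real.log_pow]
  apply Real.exp_le_exp.2
  have h1 : Real.log 3 ≤ Real.log 4 := Real.log_le_log (by norm_num) (by norm_num)
  have h2 : Real.log 4 = 2 * Real.log 2 := by rw [show (4 : ℝ) = 2 ^ 2 by norm_num, Real.log_pow]; push_cast; ring
  have := Real.log_two_lt_d9
  have h0 : (0 : ℝ) ≤ a := Nat.cast_nonneg a
  nlinarith

theorem est {n t a b a' b' : ℕ} (hn : 400 ≤ Real.log n) (ht : 4 ^ t ≤ n) (ha : (a : ℝ) ≤ kap n)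
    (hb : (b : ℝ) ≤ kap n) (ha' : (a' : ℝ) ≤ kap n) (hb' : (b' : ℝ) ≤ kap n) :
    Real.exp (kap n) + 2 ^ (t + a + a') * 3 ^ (b + b') < 2 / 3 * ((n : ℝ) - 2 ^ (t + a)) := by
  set L := Real.log n with hL
  have hn0 : (0 : ℝ) < n := by
    rcases Nat.eq_zero_or_pos n with h | h
    · rw [h, Nat.cast_zero, Real.log_zero] at hL
      linarith
    · exact_mod_cast h
  have hk := kap_small hn
  have hnL : (n : ℝ) = Real.exp L := (Real.exp_log hn0).symm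
  have h2t : (2 : ℝ) ^ t ≤ Real.exp (L / 2) := by
    have h1 : ((2 : ℝ) ^ t) ^ 2 ≤ (Real.exp (L / 2)) ^ 2 := by
      rw [← pow_mul, mul_comm t 2, pow_mul, ← Real.exp_nat_mul]
      push_cast
      rw [show (2 : ℝ) * (L / 2) = L by ring, ← hnL]
      norm_num
      exact_mod_cast ht
    exact (pow_le_pow_iff_left₀ (by positivity) (by positivity) (by norm_num)).1 h1
  have h2a := two_le a (ha.trans hk)
  have h2a' := two_le a' (ha'.trans hk)
  have h3b := three_le b (hb.trans hk)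
  have h3b' := three_le b' (hb'.trans hk)
  have e1 : (2 : ℝ) ^ (t + a + a') * 3 ^ (b + b') ≤ Real.exp (0.71 * L) := by
    rw [pow_add, pow_add, pow_add]
    calc (2 : ℝ) ^ t * 2 ^ a * 2 ^ a' * (3 ^ b * 3 ^ b')
        ≤ Real.exp (L / 2) * Real.exp (0.7 * (L / 20)) * Real.exp (0.7 * (L / 20)) *
          (Real.exp (1.4 * (L / 20)) * Real.exp (1.4 * (L / 20))) := by gcongr
      _ = Real.exp (0.71 * L) := by
          rw [← Real.exp_add, ← Real.exp_add, ← Real.exp_add, ← Real.exp_add]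
          congr 1; ring
  have e2 : (2 : ℝ) ^ (t + a) ≤ Real.exp (0.71 * L) := by
    rw [pow_add]
    calc (2 : ℝ) ^ t * 2 ^ a ≤ Real.exp (L / 2) * Real.exp (0.7 * (L / 20)) := by gcongr
      _ = Real.exp (0.535 * L) := by rw [← Real.exp_add]; congr 1; ring
      _ ≤ _ := Real.exp_le_exp.2 (by linarith)
  have e3 : Real.exp (kap n) ≤ Real.exp (0.71 * L) := Real.exp_le_exp.2 (by linarith)
  have e4 : 4 * Real.exp (0.71 * L) < n := by
    rw [hnL]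
    have h1 : Real.exp L = Real.exp (0.29 * L) * Real.exp (0.71 * L) := by rw [← Real.exp_add]; congr 1; ring
    rw [h1]
    have h2 : (4 : ℝ) < Real.exp (0.29 * L) := by
      have := Real.add_one_le_exp (0.29 * L)
      linarith
    exact mul_lt_mul_of_pos_right h2 (Real.exp_pos _)
  linarith

theorem log_large (B : ℝ) : ∃ K : ℕ, ∀ n : ℕ, K < n → B ≤ Real.log n := by
  obtain ⟨K, hK⟩ := exists_nat_ge (Real.exp B)
  refine ⟨K, fun n hn => ?_⟩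
  have h1 : Real.exp B ≤ n := hK.trans (by exact_mod_cast hn.le)
  rw [Real.le_log_iff_exp_le ((Real.exp_pos B).trans_le h1)]
  exact h1

/-- the growth constants of the affine neighbours -/
theorem nbr_gc {s : ℤ} (hs : s = 1 ∨ s = -1) {n : ℕ} (hn : 400 ≤ Real.log n) {t : ℕ} (ht : 4 ^ t ≤ n) {w : ℝ}
    (hw : Gc (s * n) w) {m : ℤ} {a b a' b' : ℕ} (ha : (a : ℝ) ≤ kap n) (hb : (b : ℝ) ≤ kap n) (ha' : (a' : ℝ) ≤ kap n)
    (hb' : (b' : ℝ) ≤ kap n) (hm : |((2 ^ a * 3 ^ b * m - 2 ^ a' * 3 ^ b' * (s * n) : ℤ) : ℝ)| ≤ Real.exp (kap n))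
    (h : (Td 1)^[t + a'] m = (Td 1)^[t + a] (s * n)) : Gc m (w * (2 ^ a' * 3 ^ b') / (2 ^ a * 3 ^ b)) := by
  refine gc_nbr h hw hm ?_
  have h1 : |((s * n : ℤ) : ℝ)| = n := by
    rcases hs with rfl | rfl <;> simp
  rw [h1]
  exact est hn ht ha hb ha' hb'

theorem nbr_HD {s : ℤ} (hs : s = 1 ∨ s = -1) : HD (fun n => 400 ≤ Real.log n ∧ Nbr s n) 1 := by
  obtain ⟨K, hK⟩ := log_large 400
  have h1 := squeeze (G := Nbr s) (fwdN hs) (R := fun _ _ => True) (v := fun _ => 1) continuous_const 0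
    (fun _ => by
      have := fwdN hs
      exact HD_congr this this (fun n _ hn => iff_of_true hn trivial)) (S := fun n => 400 ≤ Real.log n ∧ Nbr s n)
    (fun _ _ _ => trivial) (fun ε _ => ⟨K, fun n hn hG _ => ⟨hK n hn, hG⟩⟩)
  exact h1

/-- the quotients of the affine neighbours -/
theorem nbr_Q {A : ℝ} (hA : AA A) {s : ℤ} (hs : s = 1 ∨ s = -1) {ε : ℝ} (hε : 0 < ε) :
    ∃ K : ℕ, ∀ n : ℕ, K < n → Nbr s n → ∀ m : ℤ, NB n (s * n) m → ∀ t : ℝ,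
      (s * (n : ℤ) ∈ Q (t - ε) → m ∈ Q t) ∧ (m ∈ Q t → s * (n : ℤ) ∈ Q (t + ε)) ∧ m ∈ Mg (Td 1) (s * n) := by
  obtain ⟨K, hK⟩ := log_large (400 + 2 * |A - Real.log ε|)
  refine ⟨K, fun n hn ⟨τ, hτ, hN⟩ m ⟨a, a', b, b', ha, ha', hb, hb', hm⟩ t => ?_⟩
  have hL := hK n hn
  have habs := abs_nonneg (A - Real.log ε)
  have hL4 : 400 ≤ Real.log n := by linarith
  have hmerge := hN a a' b b' ha ha' hb hb' m hm
  rw [tz_td] at hmerge
  have hk := kap_small hL4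
  have hn0 : (0 : ℝ) < n := by
    have : 0 < n := by omega
    exact_mod_cast this
  have habsn : |((s * n : ℤ) : ℝ)| = n := by
    rcases hs with rfl | rfl <;> simp
  have hMg : m ∈ Mg (Td 1) (s * n) := ⟨_, _, hmerge⟩
  -- the size of `w`
  have hsize : Dv (s * n) → ∀ w, Gc (s * n) w → Real.exp (kap n) ≤ ε * |w| := by
    intro hd w hw
    obtain ⟨w', hw0, hw', hb⟩ := hA.2 _ hd
    obtain rfl := gc_unique hw hw'
    rw [habsn, abs_le] at hb
    have hwp : 0 < |w| := abs_pos.2 hw0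
    have h1 : kap n ≤ Real.log (ε * |w|) := by
      rw [Real.log_mul hε.ne' hwp.ne']
      have := le_abs_self (A - Real.log ε)
      linarith [hb.1]
    rwa [Real.le_log_iff_exp_le (mul_pos hε hwp)] at h1
  obtain ⟨r, hr⟩ : ∃ r : ℝ, r = (2 ^ a' * 3 ^ b') / (2 ^ a * 3 ^ b) := ⟨_, rfl⟩
  have hr0 : 0 < r := by rw [hr]; positivity
  have hp : (0 : ℝ) < 2 ^ a * 3 ^ b := by positivity
  have hp' : (1 : ℝ) ≤ 2 ^ a' * 3 ^ b' := by
    have k1 : (1 : ℝ) ≤ 2 ^ a' := one_le_pow₀ (by norm_num)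
    have k2 : (1 : ℝ) ≤ 3 ^ b' := one_le_pow₀ (by norm_num)
    nlinarith
  have hmr : |(m : ℝ) - r * ((s * n : ℤ) : ℝ)| ≤ r * Real.exp (kap n) := by
    have e1 : (m : ℝ) - r * ((s * n : ℤ) : ℝ) =
        ((2 ^ a * 3 ^ b * m - 2 ^ a' * 3 ^ b' * (s * n) : ℤ) : ℝ) / (2 ^ a * 3 ^ b) := by
      rw [hr]; push_cast; field_simp
    rw [e1, abs_div, abs_of_pos hp, hr, div_mul_eq_mul_div]
    apply div_le_div_of_nonneg_right _ hp.le
    refine hm.trans ?_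
    nlinarith [Real.exp_pos (kap n)]
  have hgc : ∀ w, Gc (s * n) w → Gc m (w * r) := by
    intro w hw
    have := nbr_gc hs hL4 hτ hw ha hb ha' hb' hm hmerge
    rw [hr, mul_div_assoc'] 
    exact this
  have hm1 : |(m : ℝ)| ≤ r * n + r * Real.exp (kap n) := by
    have := abs_sub_abs_le_abs_sub (m : ℝ) (r * ((s * n : ℤ) : ℝ))
    rw [abs_mul, habsn, abs_of_pos hr0] at this
    linarith
  have hm2 : r * n ≤ |(m : ℝ)| + r * Real.exp (kap n) := by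
    have := abs_sub_abs_le_abs_sub (r * ((s * n : ℤ) : ℝ)) (m : ℝ)
    rw [abs_mul, habsn, abs_of_pos hr0, abs_sub_comm] at this
    linarith
  refine ⟨?_, ?_, hMg⟩
  · rintro ⟨hd, w, hw, hq⟩
    refine ⟨dv_merge hMg hd, w * r, hgc w hw, ?_⟩
    have h1 := hsize hd w hw
    rw [habsn] at hq
    rw [abs_mul, abs_of_pos hr0]
    have h2 := mul_le_mul_of_nonneg_left h1 hr0.le
    have h3 := mul_le_mul_of_nonneg_left hq hr0.le
    linarith
  · rintro ⟨hd, w', hw', hq⟩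
    have hd' := dv_merge (Mg_symm hMg) hd
    obtain ⟨w, hw0, hw, -⟩ := hA.2 _ hd'
    obtain rfl := gc_unique hw' (hgc w hw)
    refine ⟨hd', w, hw, ?_⟩
    have h1 := hsize hd' w hw
    rw [habsn]
    rw [abs_mul, abs_of_pos hr0] at hq
    have h2 := mul_le_mul_of_nonneg_left h1 hr0.le
    apply le_of_mul_le_mul_left _ hr0
    linarith

theorem cN_ct (s : ℤ) (hs : s = 1 ∨ s = -1) (S : Set ℤ) (N : ℕ) : cN s S N = ct (fun n => s * (n : ℤ) ∈ S) N := by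
  unfold cN ct
  have hss : s * s = 1 := by rcases hs with rfl | rfl <;> norm_num
  have h1 : {n : ℤ | 0 < s * n ∧ s * n ≤ N ∧ n ∈ S} = (fun n : ℕ => s * (n : ℤ)) '' {n : ℕ | 1 ≤ n ∧ n ≤ N ∧ s * (n : ℤ) ∈ S} := by
    ext n
    constructor
    · rintro ⟨h1, h2, h3⟩
      have e1 : ((s * n).toNat : ℤ) = s * n := Int.toNat_of_nonneg h1.le
      refine ⟨(s * n).toNat, ⟨by omega, by omega, ?_⟩, ?_⟩
      · rw [e1, ← mul_assoc, hss, one_mul]; exact h3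
      · simp only
        rw [e1, ← mul_assoc, hss, one_mul]
    · rintro ⟨k, ⟨h1, h2, h3⟩, rfl⟩
      simp only
      refine ⟨?_, ?_, h3⟩
      · rw [← mul_assoc, hss, one_mul]; exact_mod_cast h1
      · rw [← mul_assoc, hss, one_mul]; exact_mod_cast h2
  rw [h1, Set.ncard_image_of_injective]
  intro a b hab
  simp only at hab
  have h0 : s ≠ 0 := by rcases hs with rfl | rfl <;> norm_num
  have := mul_left_cancel₀ h0 hab
  exact_mod_cast this

/-- the equidistribution in residue classes, for an invariant set `C` -/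
theorem nb_law {A : ℝ} (hA : AA A) {s : ℤ} (hs : s = 1 ∨ s = -1) {C : Set ℤ}
    (hC : ∀ x m : ℤ, m ∈ Mg (Td 1) x → (m ∈ C ↔ x ∈ C)) {V : ℝ → ℝ} (hV : Continuous V)
    (hVd : ∀ t, ND s (Q t ∩ C) (V t)) (t : ℝ) (q c : ℕ) (hq : 0 < q) :
    HD (fun n => n % q = c % q ∧ ∀ m, NB n (s * n) m → m ∈ Q t ∩ C) (V t / q) ∧
    HD (fun n => n % q = c % q ∧ ∀ m, NB n (s * n) m → m ∉ Q t ∩ C) ((1 - V t) / q) := by
  have hP : ∀ t, HD (fun n => s * (n : ℤ) ∈ Q t ∩ C) (V t) := by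
    intro t
    refine (hVd t).congr fun N => ?_
    rw [cN_ct s hs]
    rfl
  have hmono : ∀ (t t' : ℝ) (n : ℕ), t ≤ t' → s * (n : ℤ) ∈ Q t ∩ C → s * (n : ℤ) ∈ Q t' ∩ C := by
    rintro t t' n h ⟨⟨h1, w, h2, h3⟩, h4⟩
    exact ⟨⟨h1, w, h2, h3.trans (mul_le_mul_of_nonneg_right h (abs_nonneg w))⟩, h4⟩
  have hcls : ∀ (t : ℝ) (q c : ℕ), 0 < q → HD (fun n => n % q = c % q ∧ s * (n : ℤ) ∈ Q t ∩ C) (V t / q) := by
    intro t q c hq
    refine equi (fwdN hs) hV hP hmono (fun ε hε => ?_) hq c t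
    obtain ⟨K, hK⟩ := nbr_Q hA hs hε
    refine ⟨K, fun n hn hG t ht => ?_⟩
    have hnb : NB n (s * n) (s * (n + 1 : ℕ)) := by
      have hk := kap_nonneg n
      refine ⟨0, 0, 0, 0, by simpa using hk, by simpa using hk, by simpa using hk, by simpa using hk, ?_⟩
      have h1 : (2 ^ 0 * 3 ^ 0 * (s * ((n + 1 : ℕ) : ℤ)) - 2 ^ 0 * 3 ^ 0 * (s * (n : ℤ)) : ℤ) = s := by
        push_cast; ring
      rw [h1]
      have h2 : |((s : ℤ) : ℝ)| = 1 := by rcases hs with rfl | rfl <;> simp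
      rw [h2]
      exact Real.one_le_exp hk
    obtain ⟨k1, -, k3⟩ := hK n hn hG _ hnb t
    exact ⟨k1 ht.1, (hC _ _ k3).2 ht.2⟩
  have hqr : (0 : ℝ) < q := by exact_mod_cast hq
  have hcls1 : HD (fun n : ℕ => n % q = c % q) (1 / q) := by
    have := equi (G := fun n => 400 ≤ Real.log n ∧ Nbr s n) (nbr_HD hs) (P := fun _ _ => True) (V := fun _ => 1)
      continuous_const (fun _ => HD_congr (nbr_HD hs) (nbr_HD hs) (fun n _ hn => iff_of_true hn trivial))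
      (fun _ _ _ _ h => h) (fun ε _ => ⟨0, fun _ _ _ _ _ => trivial⟩) hq c 0
    exact Pool.Agent.W38.AF.HD_congr' this (fun n _ => by simp)
  constructor
  · refine squeeze (fwdN hs) (R := fun t n => n % q = c % q ∧ s * (n : ℤ) ∈ Q t ∩ C) (v := fun t => V t / q)
      (hV.div_const _) t (fun t => hcls t q c hq) (fun n _ ⟨h1, h2⟩ => ⟨h1, h2 _ (NB_self n _)⟩)
      (fun ε hε => ?_)
    obtain ⟨K, hK⟩ := nbr_Q hA hs hε
    refine ⟨K, fun n hn hG ⟨h1, h2⟩ => ⟨h1, fun m hm => ?_⟩⟩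
    obtain ⟨k1, -, k3⟩ := hK n hn hG m hm t
    exact ⟨k1 h2.1, (hC _ _ k3).2 h2.2⟩
  · have h := squeeze (fwdN hs) (R := fun t n => n % q = c % q ∧ s * (n : ℤ) ∉ Q (-t) ∩ C) (v := fun t => (1 - V (-t)) / q)
      ((continuous_const.sub (hV.comp continuous_neg)).div_const _) (-t) (fun t => ?_)
      (S := fun n => n % q = c % q ∧ ∀ m, NB n (s * n) m → m ∉ Q t ∩ C)
      (fun n _ ⟨h1, h2⟩ => ⟨h1, by rw [neg_neg]; exact h2 _ (NB_self n _)⟩) (fun ε hε => ?_)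
    · simpa using h
    · have := Pool.Agent.W38.AF.HD_diff hcls1 (hcls (-t) q c hq)
      rwa [← sub_div] at this
    · obtain ⟨K, hK⟩ := nbr_Q hA hs hε
      refine ⟨K, fun n hn hG ⟨h1, h2⟩ => ⟨h1, fun m hm hc => h2 ?_⟩⟩
      obtain ⟨-, k2, k3⟩ := hK n hn hG m hm t
      have := k2 hc.1
      rw [show t + ε = -(-t - ε) by ring] at this
      exact ⟨this, (hC _ _ k3).1 hc.2⟩

theorem nb_main : ∃ A : ℝ, ∀ s : ℤ, s = 1 ∨ s = -1 →
    HD (fun n => ∀ w : ℝ, Gc (s * n) w → ∀ (m : ℤ) (a b a' b' : ℕ), (a : ℝ) ≤ kap n → (b : ℝ) ≤ kap n →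
      (a' : ℝ) ≤ kap n → (b' : ℝ) ≤ kap n →
      |((2 ^ a * 3 ^ b * m - 2 ^ a' * 3 ^ b' * (s * n) : ℤ) : ℝ)| ≤ Real.exp (kap n) →
        Gc m (w * (2 ^ a' * 3 ^ b') / (2 ^ a * 3 ^ b))) 1 ∧
    (∃ V : ℝ → ℝ, LawP s A V ∧ ∀ (t : ℝ) (q c : ℕ), 0 < q →
      HD (fun n => n % q = c % q ∧ ∀ m, NB n (s * n) m → m ∈ Q t) (V t / q) ∧
      HD (fun n => n % q = c % q ∧ ∀ m, NB n (s * n) m → m ∉ Q t) ((1 - V t) / q)) ∧
    ∀ n0 : ℤ, 0 < s * n0 → Dv n0 → ∃ V : ℝ → ℝ, LawP s A V ∧ 0 < V (Real.exp A) ∧ ∀ (t : ℝ) (q c : ℕ), 0 < q →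
      HD (fun n => n % q = c % q ∧ ∀ m, NB n (s * n) m → m ∈ Q t ∧ m ∈ Mg (Td 1) n0) (V t / q) ∧
      HD (fun n => n % q = c % q ∧ ∀ m, NB n (s * n) m → ¬ (m ∈ Q t ∧ m ∈ Mg (Td 1) n0)) ((1 - V t) / q) := by
  obtain ⟨A, hA⟩ := gc_exists
  refine ⟨A, fun s hs => ⟨?_, ?_, ?_⟩⟩
  · refine HD_congr (nbr_HD hs) (nbr_HD hs) (fun n _ hn => iff_of_true hn ?_)
    obtain ⟨h400, τ, hτ, hN⟩ := hn
    intro w hw m a b a' b' ha hb ha' hb' hm
    exact nbr_gc hs h400 hτ hw ha hb ha' hb' hm (hN a a' b b' ha ha' hb hb' m hm)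
  · obtain ⟨V, hV, hVd⟩ := all_law hA hs
    refine ⟨V, hV, fun t q c hq => ?_⟩
    have := nb_law hA hs (C := Set.univ) (fun _ _ _ => by simp) hV.cont (fun t => by
      rw [Set.inter_univ]; exact hVd t) t q c hq
    simpa only [Set.inter_univ] using this
  · intro n0 h0 hd
    obtain ⟨V, hV, hVn, hVp⟩ := class_law hA hs h0 hd
    refine ⟨V, hV, hVp, fun t q c hq => ?_⟩
    exact nb_law hA hs (C := Mg (Td 1) n0) (fun x m h => ⟨fun h1 => Pool.Agent.H499R2.ND.Mg_trans (Mg_symm h) h1,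
      fun h1 => Pool.Agent.H499R2.ND.Mg_trans h h1⟩) hV.cont hVn t q c hq

end Pool.Agent.L7h55.GC.Nb
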