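import Pool.Agent.L7h55.GC.CellLaw

/-!
Properties of the profile.
-/

set_option autoImplicit false

namespace Pool.Agent.L7h55.GC

open Finset Filter Topology
open Pool.Agent.R468.GL
open Pool.Agent.R468.MF
open Pool.Agent.R468.MG
open Pool.Agent.R468.LL (lam lam_eq lam_pos lam_lt)

variable {P : Par} {B : Set ℤ} {κ ω : ℤ → ℤ} {c A₁ A₂ : ℝ} {Ψ : ℝ → ℝ} {δ : ℝ}

theorem LW_diag (c : ℝ) (n : ℕ) : LW c (2 * n : ℤ) (n : ℤ) = c + n * lam := by
  unfold LW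
  rw [lam_eq]
  push_cast
  ring

/-- the normalised count in a cell on the diagonal -/
noncomputable def fc (B : Set ℤ) (κ ω : ℤ → ℤ) (c : ℝ) (n : ℕ) (t : ℝ) : ℝ :=
  cell B κ ω (2 * n : ℤ) n (t * Real.exp (LW c (2 * n : ℤ) n)) /
    (Real.exp (LW c (2 * n : ℤ) n) * gn m0 v0 (Real.exp (LW c (2 * n : ℤ) n)) (2 * n : ℤ))

theorem fc_lim (Lw : Law (CG P B κ ω) (A0 P / lam) (2 * ww P ^ 2 / lam ^ 3) (kap P / ww P)
      (fun x => Real.log x / ww P) Ψ δ) (hS : Size B κ ω c A₁ A₂) (h1 : 2 * A₁ < ww P) (h2 : 2 * A₂ < ww P) (t : ℝ) :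
    Tendsto (fun n : ℕ => fc B κ ω c n t) atTop (𝓝 (UU P Ψ c t)) := by
  have hl := lam_pos
  rw [Metric.tendsto_atTop]
  intro ε hε
  obtain ⟨L₀, hL₀, h⟩ := cell_law Lw hS h1 h2 (K := |2 * c / lam|) (abs_nonneg _) (half_pos hε)
  obtain ⟨N, hN⟩ := exists_nat_ge ((L₀ - c) / lam)
  refine ⟨N, fun n hn => ?_⟩
  have hnN : (N : ℝ) ≤ n := by exact_mod_cast hn
  have hL : L₀ ≤ LW c (2 * n : ℤ) (n : ℤ) := by
    rw [LW_diag]
    have := hN.trans hnN
    rw [div_le_iff₀ hl] at this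
    linarith
  have hk : |((2 * n : ℤ) : ℝ) - m0 * LW c (2 * n : ℤ) (n : ℤ)| ≤ |2 * c / lam| * √(LW c (2 * n : ℤ) (n : ℤ)) := by
    have e : ((2 * n : ℤ) : ℝ) - m0 * LW c (2 * n : ℤ) (n : ℤ) = -(2 * c / lam) := by
      rw [LW_diag]
      unfold m0
      push_cast
      field_simp
      ring
    rw [e, abs_neg]
    have h3 : 1 ≤ √(LW c (2 * n : ℤ) (n : ℤ)) := by
      rw [← Real.sqrt_one]
      exact Real.sqrt_le_sqrt (hL₀.trans hL)
    exact le_mul_of_one_le_right (abs_nonneg _) h3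
  have := h (2 * n) n hL hk t
  rw [Real.dist_eq]
  unfold fc
  linarith

theorem ev_pos (c : ℝ) : ∀ᶠ n : ℕ in atTop, 0 < Real.exp (LW c (2 * n : ℤ) n) *
    gn m0 v0 (Real.exp (LW c (2 * n : ℤ) n)) (2 * n : ℤ) := by
  have hl := lam_pos
  obtain ⟨N, hN⟩ := exists_nat_gt (-c / lam)
  filter_upwards [eventually_ge_atTop N] with n hn
  have hnN : (N : ℝ) ≤ n := by exact_mod_cast hn
  apply mul_pos (Real.exp_pos _)
  apply gn_pos v0_pos
  rw [Real.log_exp, LW_diag]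
  have := hN.trans_le hnN
  rw [div_lt_iff₀ hl] at this
  linarith

theorem UU_mono (Lw : Law (CG P B κ ω) (A0 P / lam) (2 * ww P ^ 2 / lam ^ 3) (kap P / ww P)
      (fun x => Real.log x / ww P) Ψ δ) (hS : Size B κ ω c A₁ A₂) (h1 : 2 * A₁ < ww P) (h2 : 2 * A₂ < ww P) :
    Monotone (UU P Ψ c) := by
  intro s t hst
  refine le_of_tendsto_of_tendsto (fc_lim Lw hS h1 h2 s) (fc_lim Lw hS h1 h2 t) ?_
  filter_upwards [ev_pos c] with n hn
  unfold fc
  apply div_le_div_of_nonneg_right _ hn.le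
  apply cell_mono
  exact mul_le_mul_of_nonneg_right hst (Real.exp_pos _).le

theorem UU_low (Lw : Law (CG P B κ ω) (A0 P / lam) (2 * ww P ^ 2 / lam ^ 3) (kap P / ww P)
      (fun x => Real.log x / ww P) Ψ δ) (hS : Size B κ ω c A₁ A₂) (h1 : 2 * A₁ < ww P) (h2 : 2 * A₂ < ww P)
    {t : ℝ} (ht : t ≤ Real.exp (-A₁)) : UU P Ψ c t = 0 := by
  have key : Set.EqOn (UU P Ψ c) (fun _ => 0) (Set.Iio (Real.exp (-A₁))) := by
    intro s hs
    refine tendsto_nhds_unique (fc_lim Lw hS h1 h2 s) ?_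
    have : ∀ n : ℕ, fc B κ ω c n s = 0 := by
      intro n
      unfold fc
      rw [cell_low hS, zero_div]
      rw [sub_eq_add_neg, add_comm, Real.exp_add]
      exact mul_lt_mul_of_pos_right hs (Real.exp_pos _)
    simp only [this]
    exact tendsto_const_nhds
  have h3 := key.closure (UU_cont Lw.cont) continuous_const
  rw [closure_Iio] at h3
  exact h3 ht

theorem UU_high (Lw : Law (CG P B κ ω) (A0 P / lam) (2 * ww P ^ 2 / lam ^ 3) (kap P / ww P)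
      (fun x => Real.log x / ww P) Ψ δ) (hS : Size B κ ω c A₁ A₂) (h1 : 2 * A₁ < ww P) (h2 : 2 * A₂ < ww P)
    {t : ℝ} (ht : Real.exp A₂ ≤ t) : UU P Ψ c t = UU P Ψ c (Real.exp A₂) := by
  refine tendsto_nhds_unique (fc_lim Lw hS h1 h2 t) ((fc_lim Lw hS h1 h2 (Real.exp A₂)).congr fun n => ?_)
  unfold fc
  rw [cell_high hS _ _ (y := Real.exp A₂ * Real.exp (LW c (2 * n : ℤ) n)) (z := t * Real.exp (LW c (2 * n : ℤ) n))]
  · rw [add_comm, Real.exp_add]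
  · exact mul_le_mul_of_nonneg_right ht (Real.exp_pos _).le

theorem UU_pos (Lw : Law (CG P B κ ω) (A0 P / lam) (2 * ww P ^ 2 / lam ^ 3) (kap P / ww P)
      (fun x => Real.log x / ww P) Ψ δ) (hS : Size B κ ω c A₁ A₂) (h1 : 2 * A₁ < ww P) (h2 : 2 * A₂ < ww P)
    (hΨ : ∀ t, 0 < Ψ t) : 0 < UU P Ψ c (Real.exp A₂) := by
  have hw := ww_pos P
  rw [← UU_high Lw hS h1 h2 (t := Real.exp (ww P / 2)) (Real.exp_le_exp.2 (by linarith))]
  have e1 : clamp P (Real.exp (ww P / 2)) = Real.exp (ww P / 2) := by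
    unfold clamp
    rw [min_self, max_eq_right (Real.exp_le_exp.2 (by linarith))]
  unfold UU
  rw [e1, Real.log_exp]
  have e2 : (c + ww P / 2) / ww P = (c + -(ww P / 2)) / ww P + 1 := by
    field_simp
    ring
  have e3 : Ψ ((c + ww P / 2) / ww P) = Ψ ((c + -(ww P / 2)) / ww P) := by rw [e2, Lw.per]
  rw [e3, ← mul_sub, ← sub_mul]
  have h3 := hΨ ((c + -(ww P / 2)) / ww P)
  have h4 : Real.exp (-(ww P / 2)) < Real.exp (ww P / 2) := Real.exp_lt_exp.2 (by linarith)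
  have h5 : 0 < Real.log 3 / ww P := div_pos log3_pos hw
  exact mul_pos h5 (mul_pos (by linarith) h3)

end Pool.Agent.L7h55.GC
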