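import Pool.Agent.L7h55.GC.Dens
import Pool.Agent.L7h55.GC.Main
import Pool.Agent.Results.MP_ff4775_nt.NaturalDensity

/-!
The law of the quotients of the divergent integers by their growth constants.
-/

set_option autoImplicit false

namespace Pool.Agent.L7h55.GC

open Finset Filter Topology
open Pool.Agent.R468.GL
open Pool.Agent.R468.MF
open Pool.Agent.R468.MG
open Pool.Agent.H499R2.ND (Td HD Mg Mg_inv Mg_self Mg_iter Mg_symm Mg_trans class_pos Td_side side_odd side_cop cop_of_not_dvd HD_ncard)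
open Pool.Agent.R468.LL (lam lam_eq lam_pos lam_lt)

/-- the number of the elements of sign `s` -/
noncomputable def cN (s : ℤ) (S : Set ℤ) (N : ℕ) : ℝ := ({n : ℤ | 0 < s * n ∧ s * n ≤ N ∧ n ∈ S}.ncard : ℝ)

/-- natural density on the side `s` -/
def ND (s : ℤ) (S : Set ℤ) (l : ℝ) : Prop := Tendsto (fun N : ℕ => cN s S N / N) atTop (𝓝 l)

/-- the divergent integers which are at most `t` times their growth constants -/
def Q (t : ℝ) : Set ℤ := {m : ℤ | Dv m ∧ ∃ w : ℝ, Gc m w ∧ |(m : ℝ)| ≤ t * |w|}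

/-- the properties of the distribution functions -/
structure LawP (s : ℤ) (A : ℝ) (V : ℝ → ℝ) : Prop where
  cont : Continuous V
  mono : Monotone V
  low : ∀ t, t ≤ Real.exp (-A) → V t = 0
  high : ∀ t, Real.exp A ≤ t → V t = V (Real.exp A)
  one : s = 1 → ∀ t, 1 ≤ t → V t = V (Real.exp A)
  neg : s = -1 → ∀ t, t ≤ 1 → V t = 0

theorem side_fin {s : ℤ} (hs : s = 1 ∨ s = -1) (S : Set ℤ) (N : ℕ) : {n : ℤ | 0 < s * n ∧ s * n ≤ N ∧ n ∈ S}.Finite := by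
  apply (Set.finite_Icc (-(N : ℤ)) N).subset
  rintro n ⟨h1, h2, -⟩
  rw [Set.mem_Icc]
  rcases hs with rfl | rfl <;> constructor <;> omega

theorem cN_mono {s : ℤ} (hs : s = 1 ∨ s = -1) {S T : Set ℤ} (h : ∀ n, 0 < s * n → n ∈ S → n ∈ T) (N : ℕ) :
    cN s S N ≤ cN s T N := by
  unfold cN
  have := Set.ncard_le_ncard (s := {n : ℤ | 0 < s * n ∧ s * n ≤ N ∧ n ∈ S})
    (t := {n : ℤ | 0 < s * n ∧ s * n ≤ N ∧ n ∈ T}) (fun n ⟨h1, h2, h3⟩ => ⟨h1, h2, h n h1 h3⟩) (side_fin hs T N)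
  exact_mod_cast this

theorem cN_congr {s : ℤ} {S T : Set ℤ} (h : ∀ n, 0 < s * n → (n ∈ S ↔ n ∈ T)) (N : ℕ) :
    cN s S N = cN s T N := by
  unfold cN
  congr 2
  ext n
  constructor
  · rintro ⟨h1, h2, h3⟩
    exact ⟨h1, h2, (h n h1).1 h3⟩
  · rintro ⟨h1, h2, h3⟩
    exact ⟨h1, h2, (h n h1).2 h3⟩

theorem cN_union (s : ℤ) (S T : Set ℤ) (N : ℕ) : cN s (S ∪ T) N ≤ cN s S N + cN s T N := by
  unfold cN
  have h1 : {n : ℤ | 0 < s * n ∧ s * n ≤ N ∧ n ∈ S ∪ T} = {n : ℤ | 0 < s * n ∧ s * n ≤ N ∧ n ∈ S} ∪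
      {n : ℤ | 0 < s * n ∧ s * n ≤ N ∧ n ∈ T} := by
    ext n
    constructor
    · rintro ⟨h1, h2, h3 | h3⟩
      · exact Or.inl ⟨h1, h2, h3⟩
      · exact Or.inr ⟨h1, h2, h3⟩
    · rintro (⟨h1, h2, h3⟩ | ⟨h1, h2, h3⟩)
      · exact ⟨h1, h2, Or.inl h3⟩
      · exact ⟨h1, h2, Or.inr h3⟩
  rw [h1]
  exact_mod_cast Set.ncard_union_le _ _

theorem cN_disj {s : ℤ} (hs : s = 1 ∨ s = -1) {S T : Set ℤ} (h : Disjoint S T) (N : ℕ) :
    cN s (S ∪ T) N = cN s S N + cN s T N := by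
  unfold cN
  have h1 : {n : ℤ | 0 < s * n ∧ s * n ≤ N ∧ n ∈ S ∪ T} = {n : ℤ | 0 < s * n ∧ s * n ≤ N ∧ n ∈ S} ∪
      {n : ℤ | 0 < s * n ∧ s * n ≤ N ∧ n ∈ T} := by
    ext n
    constructor
    · rintro ⟨h1, h2, h3 | h3⟩
      · exact Or.inl ⟨h1, h2, h3⟩
      · exact Or.inr ⟨h1, h2, h3⟩
    · rintro (⟨h1, h2, h3⟩ | ⟨h1, h2, h3⟩)
      · exact ⟨h1, h2, Or.inl h3⟩
      · exact ⟨h1, h2, Or.inr h3⟩
  have h2 : Disjoint {n : ℤ | 0 < s * n ∧ s * n ≤ N ∧ n ∈ S} {n : ℤ | 0 < s * n ∧ s * n ≤ N ∧ n ∈ T} := by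
    rw [Set.disjoint_left] at h ⊢
    rintro n ⟨_, _, h3⟩ ⟨_, _, h4⟩
    exact h h3 h4
  rw [h1, Set.ncard_union_eq h2 (side_fin hs S N) (side_fin hs T N)]
  push_cast
  rfl

theorem ND_unique {s : ℤ} {S : Set ℤ} {l l' : ℝ} (h : ND s S l) (h' : ND s S l') : l = l' := tendsto_nhds_unique h h'

theorem ND_le {s : ℤ} (hs : s = 1 ∨ s = -1) {S T : Set ℤ} {l l' : ℝ} (h : ND s S l) (h' : ND s T l')
    (hST : ∀ n, 0 < s * n → n ∈ S → n ∈ T) : l ≤ l' :=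
  le_of_tendsto_of_tendsto' h h' fun N => div_le_div_of_nonneg_right (cN_mono hs hST N) (Nat.cast_nonneg N)

theorem ND_empty {s : ℤ} {S : Set ℤ} (h : ∀ n, 0 < s * n → n ∉ S) : ND s S 0 := by
  unfold ND
  have : ∀ N : ℕ, cN s S N / N = 0 := fun N => by
    unfold cN
    have : {n : ℤ | 0 < s * n ∧ s * n ≤ N ∧ n ∈ S} = ∅ := by
      rw [Set.eq_empty_iff_forall_notMem]
      rintro n ⟨h1, _, h3⟩
      exact h n h1 h3
    rw [this, Set.ncard_empty, Nat.cast_zero, zero_div]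
  simp only [this]
  exact tendsto_const_nhds

/-- the laws from the densities -/
theorem lawP_of {s : ℤ} (hs : s = 1 ∨ s = -1) {A : ℝ} {V : ℝ → ℝ} (hV : Continuous V) {C : Set ℤ}
    (h : ∀ t, ND s (Q t ∩ C) (V t))
    (hb : ∀ n : ℤ, Dv n → ∃ w : ℝ, w ≠ 0 ∧ Gc n w ∧ abs (Real.log |w| - Real.log |(n : ℝ)|) ≤ A)
    (hneg : ∀ n : ℤ, Dv n → n < 0 → ∀ w, Gc n w → w ≤ 0) : LawP s A V := by
  have hmono : ∀ {t t' : ℝ}, t ≤ t' → ∀ n, 0 < s * n → n ∈ Q t ∩ C → n ∈ Q t' ∩ C := by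
    rintro t t' htt n _ ⟨⟨h1, w, h2, h3⟩, h4⟩
    exact ⟨⟨h1, w, h2, h3.trans (mul_le_mul_of_nonneg_right htt (abs_nonneg w))⟩, h4⟩
  have hn0 : ∀ n : ℤ, 0 < s * n → 0 < |(n : ℝ)| := fun n hn => by
    rw [abs_pos]
    have : n ≠ 0 := by rintro rfl; simp at hn
    exact_mod_cast this
  -- the sizes
  have hsz : ∀ n : ℤ, Dv n → 0 < s * n → ∀ w, Gc n w → Real.exp (-A) * |w| ≤ |(n : ℝ)| ∧ |(n : ℝ)| ≤ Real.exp A * |w| ∧
      (s = 1 → |(n : ℝ)| ≤ |w|) ∧ (s = -1 → |w| ≤ |(n : ℝ)|) := by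
    intro n hn hsn w hw
    obtain ⟨w', hw0, hw', hb'⟩ := hb n hn
    obtain rfl := gc_unique hw hw'
    have hwp : 0 < |w| := abs_pos.2 hw0
    have hnp := hn0 n hsn
    rw [abs_le] at hb'
    refine ⟨?_, ?_, ?_, ?_⟩
    · rw [← Real.exp_log hwp, ← Real.exp_log hnp, ← Real.exp_add]
      exact Real.exp_le_exp.2 (by linarith)
    · rw [← Real.exp_log hwp, ← Real.exp_log hnp, ← Real.exp_add]
      exact Real.exp_le_exp.2 (by linarith)
    · rintro rfl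
      have h1 : (0 : ℝ) < n := by exact_mod_cast (by omega : 0 < n)
      rw [abs_of_pos h1]
      exact (gc_ge hw).trans (le_abs_self w)
    · rintro rfl
      have h1 : (n : ℝ) < 0 := by exact_mod_cast (by omega : n < 0)
      have h2 := hneg n hn (by omega) w hw
      rw [abs_of_neg h1, abs_of_nonpos h2]
      linarith [gc_ge hw]
  have hQall : ∀ (t : ℝ), (Real.exp A ≤ t ∨ (s = 1 ∧ 1 ≤ t)) → ∀ n, 0 < s * n → (n ∈ Q t ∩ C ↔ Dv n ∧ n ∈ C) := by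
    intro t ht n hn
    constructor
    · rintro ⟨⟨h1, _⟩, h2⟩
      exact ⟨h1, h2⟩
    · rintro ⟨h1, h2⟩
      obtain ⟨w, _, hw, _⟩ := hb n h1
      obtain ⟨_, g2, g3, _⟩ := hsz n h1 hn w hw
      refine ⟨⟨h1, w, hw, ?_⟩, h2⟩
      rcases ht with ht | ⟨hs1, ht⟩
      · exact g2.trans (mul_le_mul_of_nonneg_right ht (abs_nonneg w))
      · refine (g3 hs1).trans ?_
        nlinarith [abs_nonneg w]
  have hempty : ∀ t : ℝ, (t < Real.exp (-A) ∨ (s = -1 ∧ t < 1)) → V t = 0 := by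
    intro t ht
    refine ND_unique (h t) (ND_empty ?_)
    rintro n hn ⟨⟨h1, w, hw, h2⟩, _⟩
    obtain ⟨w', hw0, hw', _⟩ := hb n h1
    obtain rfl := gc_unique hw hw'
    have hwp : 0 < |w| := abs_pos.2 hw0
    obtain ⟨g1, _, _, g4⟩ := hsz n h1 hn w hw
    rcases ht with ht | ⟨hs1, ht⟩
    · nlinarith
    · have := g4 hs1
      nlinarith
  refine ⟨hV, fun t t' htt => ND_le hs (h t) (h t') (hmono htt), fun t ht => ?_, fun t ht => ?_, fun hs1 t ht => ?_,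
    fun hs1 t ht => ?_⟩
  · have key : Set.EqOn V (fun _ => 0) (Set.Iio (Real.exp (-A))) := fun r hr => hempty r (Or.inl hr)
    have h3 := key.closure hV continuous_const
    rw [closure_Iio] at h3
    exact h3 ht
  · have e : ND s (Q t ∩ C) (V (Real.exp A)) := by
      refine (h (Real.exp A)).congr fun N => ?_
      rw [cN_congr (fun n hn => (hQall (Real.exp A) (Or.inl le_rfl) n hn).trans (hQall t (Or.inl ht) n hn).symm)]
    exact ND_unique (h t) e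
  · have e : ND s (Q t ∩ C) (V (Real.exp A)) := by
      refine (h (Real.exp A)).congr fun N => ?_
      rw [cN_congr (fun n hn => (hQall (Real.exp A) (Or.inl le_rfl) n hn).trans
        (hQall t (Or.inr ⟨hs1, ht⟩) n hn).symm)]
    exact ND_unique (h t) e
  · have key : Set.EqOn V (fun _ => 0) (Set.Iio 1) := fun r hr => hempty r (Or.inr ⟨hs1, hr⟩)
    have h3 := key.closure hV continuous_const
    rw [closure_Iio] at h3
    exact h3 ht

/-- the count of a class -/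
theorem cN_class {s : ℤ} (hs : s = 1 ∨ s = -1) {n0 : ℤ} (h0 : 0 < s * n0) (hd : Dv n0)
    (hinj : Function.Injective (fun c : ℕ => (Td 1)^[c] n0)) {w : ℝ} (hw0 : w ≠ 0) (hw : Gc n0 w) (t : ℝ) (N : ℕ) :
    cN s (Q t ∩ Mg (Td 1) n0) N =
      SS (Mg (Td (s * 1)) (s * n0)) (mk (s * 1) (s * n0)) (mo (s * 1) (s * n0)) (Real.log |w|) t N := by
  have hs0 : s ≠ 0 := by rcases hs with rfl | rfl <;> norm_num
  have hsR : |(s : ℝ)| = 1 := by rcases hs with rfl | rfl <;> simp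
  have habs : ∀ x : ℤ, 1 ≤ x → |((s * x : ℤ) : ℝ)| = x := fun x hx => by
    have hx0 : (0 : ℝ) < x := by exact_mod_cast (by omega : 0 < x)
    push_cast
    rw [abs_mul, hsR, one_mul, abs_of_pos hx0]
  have e : {n : ℤ | 0 < s * n ∧ s * n ≤ N ∧ n ∈ Q t ∩ Mg (Td 1) n0} = (fun x : ℤ => s * x) ''
      {x : ℤ | 1 ≤ x ∧ (x : ℝ) ≤ (N : ℕ) ∧ x ∈ Mg (Td (s * 1)) (s * n0) ∧
        (x : ℝ) ≤ t * Real.exp (LW (Real.log |w|) (mk (s * 1) (s * n0) x) (mo (s * 1) (s * n0) x))} := by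
    ext m
    rw [Set.mem_image]
    constructor
    · rintro ⟨g1, g2, ⟨g3, w', g4, g5⟩, g6⟩
      have hsm : s * (s * m) = m := by rcases hs with rfl | rfl <;> ring
      have g7 : s * (s * m) ∈ Mg (Td 1) n0 := by rw [hsm]; exact g6
      have g8 := gc_stat hs hinj hw g7
      rw [hsm] at g8
      have g9 := gc_unique g4 g8
      have g10 := habs (s * m) (by omega)
      rw [hsm] at g10
      refine ⟨s * m, ⟨by omega, ?_, ?_, ?_⟩, hsm⟩
      · have : ((s * m : ℤ) : ℝ) ≤ ((N : ℤ) : ℝ) := by exact_mod_cast g2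
        simpa using this
      · rw [Mg_side odd_one hs]
        exact g7
      · rw [g10, g9, abs_div, abs_mul, abs_of_pos (by positivity : (0 : ℝ) < 2 ^ (mk (s * 1) (s * n0) (s * m))),
          abs_of_pos (by positivity : (0 : ℝ) < 3 ^ (mo (s * 1) (s * n0) (s * m))), w_exp hw0] at g5
        exact g5
    · rintro ⟨x, ⟨g1, g2, g3, g4⟩, rfl⟩
      rw [Mg_side odd_one hs, Set.mem_ofPred_eq] at g3
      have g6 := gc_stat hs hinj hw g3
      have hsx : s * (s * x) = x := by rcases hs with rfl | rfl <;> ring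
      refine ⟨?_, ?_, ⟨dv_merge g3 hd, _, g6, ?_⟩, g3⟩
      · show 0 < s * (s * x)
        rw [hsx]
        omega
      · show s * (s * x) ≤ N
        rw [hsx]
        exact_mod_cast g2
      · rw [habs x g1, abs_div, abs_mul, abs_of_pos (by positivity : (0 : ℝ) < 2 ^ (mk (s * 1) (s * n0) x)),
          abs_of_pos (by positivity : (0 : ℝ) < 3 ^ (mo (s * 1) (s * n0) x)), w_exp hw0]
        exact g4
  unfold cN SS
  rw [e, Set.ncard_image_of_injective _ (mul_right_injective₀ hs0)]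

end Pool.Agent.L7h55.GC
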