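import Pool.Agent.L7h55.GC.Quo2
import Pool.Agent.L7h55.GC.Form

/-!
The law of the quotients of the divergent integers by their growth constants: the law of a class in terms of the profile.
-/

set_option autoImplicit false

namespace Pool.Agent.L7h55.GC

open Finset Filter Topology
open Pool.Agent.R468.GL
open Pool.Agent.R468.MF
open Pool.Agent.R468.MG
open Pool.Agent.H499R2.ND (Td HD Mg Mg_inv Mg_self Mg_iter Mg_symm Mg_trans class_pos Td_side side_odd side_cop cop_of_not_dvd HD_ncard)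
open Pool.Agent.R468.LL (lam lam_eq lam_pos lam_lt)

/-- the law for a class and the profile -/
theorem class_full {A : ℝ} (hA : AA A) {s : ℤ} (hs : s = 1 ∨ s = -1) {n0 : ℤ} (h0 : 0 < s * n0) (hd : Dv n0) :
    ∃ (w : ℝ) (U V : ℝ → ℝ), w ≠ 0 ∧ Gc n0 w ∧ Continuous U ∧ Monotone U ∧
      (∀ t : ℝ, Tendsto (fun n : ℕ =>
        ({m : ℤ | m ∈ Mg (Td 1) n0 ∧ Gc m (w * 4 ^ n / 3 ^ n) ∧ |(m : ℝ)| ≤ t * (|w| * 4 ^ n / 3 ^ n)}.ncard : ℝ) /
          (|w| * 4 ^ n / 3 ^ n * gn (2 / Real.log (4 / 3)) (2 * Real.log 3 ^ 2 / Real.log (4 / 3) ^ 3)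
            (|w| * 4 ^ n / 3 ^ n) (2 * n))) atTop (𝓝 (U t))) ∧
      LawP s A V ∧ 0 < V (Real.exp A) ∧ (∀ t, ND s (Q t ∩ Mg (Td 1) n0) (V t)) ∧
      ∀ t : ℝ, 0 < t → V t = 1 / Real.log 3 * (U t / t + ∫ r in (0 : ℝ)..t, U r / r ^ 2) := by
  obtain ⟨hA0, hA'⟩ := hA
  have hinj := dv_inj hd
  have h3 := log3_pos
  obtain ⟨w, hw0, hw, -⟩ := hA' n0 hd
  obtain ⟨P, hP⟩ := exists_par A
  have hww := ww_pos P
  obtain ⟨δ, Ψ, -, -, -, -, Lw, -, -⟩ := mg_law P (side_odd odd_one hs) (side_cop isCoprime_one_left hs)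
    (inj_side odd_one hs hinj)
  obtain ⟨δ₀, Ψ₀, -, -, -, -, Lw₀, -, -⟩ := mg_law PT (side_odd odd_one hs) (side_cop isCoprime_one_left hs)
    (inj_side odd_one hs hinj)
  have hS := size_mg hs h0 hd hinj hA0 hA' hw0 hw
  have h1 : 2 * (if s = 1 then A else 0) < ww P := by split_ifs <;> linarith
  have h2 : 2 * (if s = 1 then 0 else A) < ww P := by split_ifs <;> linarith
  have hND : ∀ I : ℕ, A + Real.log 3 ≤ I * Real.log 3 → ∀ t,
      ND s (Q t ∩ Mg (Td 1) n0) (VV (UU P Ψ (Real.log |w|)) I t) := by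
    intro I hI t
    have hdens := dens Lw Lw₀ hS h1 h2 I (by split_ifs <;> linarith) (by split_ifs <;> linarith)
    refine ((hdens t).comp tendsto_natCast_atTop_atTop).congr fun N => ?_
    rw [cN_class hs h0 hd hinj hw0 hw]
    rfl
  obtain ⟨V, hV, hVn, hVp⟩ := class_law ⟨hA0, hA'⟩ hs h0 hd
  refine ⟨w, UU P Ψ (Real.log |w|), V, hw0, hw, UU_cont Lw.cont, UU_mono Lw hS h1 h2, fun t => ?_, hV, hVp, hVn,
    fun t ht => ?_⟩
  · refine (fc_lim Lw hS h1 h2 t).congr fun n => ?_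
    unfold fc
    have e1 : |w| * 4 ^ n / 3 ^ n = Real.exp (LW (Real.log |w|) (2 * n : ℤ) n) := by
      rw [← w_exp hw0]
      congr 2
      rw [show (4 : ℝ) = 2 ^ 2 by norm_num, ← pow_mul]
      norm_cast
    have e2 : w * 4 ^ n / 3 ^ n = w * 2 ^ (2 * n : ℤ) / 3 ^ (n : ℤ) := by
      congr 2
      rw [show (4 : ℝ) = 2 ^ 2 by norm_num, ← pow_mul]
      norm_cast
    rw [e1, e2, cnt_cell hs h0 hinj hw0 hw]
    rfl
  · obtain ⟨I, hI⟩ := exists_nat_ge (A / Real.log 3 + 1 + |Real.log t| / Real.log 3)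
    have hI' : A + Real.log 3 + |Real.log t| ≤ I * Real.log 3 := by
      have := mul_le_mul_of_nonneg_right hI h3.le
      have e : (A / Real.log 3 + 1 + |Real.log t| / Real.log 3) * Real.log 3 = A + Real.log 3 + |Real.log t| := by
        field_simp
      linarith
    have hlt := abs_nonneg (Real.log t)
    have hlt1 := le_abs_self (Real.log t)
    have hlt2 := neg_abs_le (Real.log t)
    have e := ND_unique (hVn t) (hND I (by linarith) t)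
    rw [e]
    refine formula (UU_cont Lw.cont) (fun t ht => UU_low Lw hS h1 h2 ht) (fun t ht => UU_high Lw hS h1 h2 ht)
      (by split_ifs <;> linarith) (by split_ifs <;> linarith) ?_ ?_
    · rw [← Real.le_log_iff_exp_le ht]
      linarith
    · rw [← Real.log_le_iff_le_exp ht, sub_mul]
      linarith

/-- the final theorem -/
theorem quo_main : ∃ A : ℝ, ∀ s : ℤ, s = 1 ∨ s = -1 →
    (∃ V : ℝ → ℝ, LawP s A V ∧ (∀ t, ND s (Q t) (V t)) ∧ ND s {m | Dv m} (V (Real.exp A)) ∧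
      ((∃ m : ℤ, 0 < s * m ∧ Dv m) → 0 < V (Real.exp A))) ∧
    ∀ n0 : ℤ, 0 < s * n0 → Dv n0 → ∃ (w : ℝ) (U V : ℝ → ℝ), w ≠ 0 ∧ Gc n0 w ∧ Continuous U ∧ Monotone U ∧
      (∀ t : ℝ, Tendsto (fun n : ℕ =>
        ({m : ℤ | m ∈ Mg (Td 1) n0 ∧ Gc m (w * 4 ^ n / 3 ^ n) ∧ |(m : ℝ)| ≤ t * (|w| * 4 ^ n / 3 ^ n)}.ncard : ℝ) /
          (|w| * 4 ^ n / 3 ^ n * gn (2 / Real.log (4 / 3)) (2 * Real.log 3 ^ 2 / Real.log (4 / 3) ^ 3)
            (|w| * 4 ^ n / 3 ^ n) (2 * n))) atTop (𝓝 (U t))) ∧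
      LawP s A V ∧ 0 < V (Real.exp A) ∧ (∀ t, ND s (Q t ∩ Mg (Td 1) n0) (V t)) ∧
      ∀ t : ℝ, 0 < t → V t = 1 / Real.log 3 * (U t / t + ∫ r in (0 : ℝ)..t, U r / r ^ 2) := by
  obtain ⟨A, hA0, hA⟩ := gc_exists
  refine ⟨A, fun s hs => ⟨?_, fun n0 h0 hd => class_full ⟨hA0, hA⟩ hs h0 hd⟩⟩
  obtain ⟨V, hV, h⟩ := all_law ⟨hA0, hA⟩ hs
  refine ⟨V, hV, h, ?_, ?_⟩
  · refine (h (Real.exp A)).congr fun N => ?_
    rw [cN_congr (fun n hn => ?_)]
    constructor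
    · rintro ⟨h1, _⟩
      exact h1
    · intro hdn
      obtain ⟨w', hw0', hw', hb⟩ := hA n hdn
      refine ⟨hdn, w', hw', ?_⟩
      have hwp : 0 < |w'| := abs_pos.2 hw0'
      have hnp : 0 < |(n : ℝ)| := abs_pos.2 (by exact_mod_cast dv_ne hdn)
      rw [abs_le] at hb
      rw [← Real.exp_log hwp, ← Real.exp_log hnp, ← Real.exp_add]
      exact Real.exp_le_exp.2 (by linarith)
  · rintro ⟨m, hm, hdm⟩
    obtain ⟨V', hV', h', hp⟩ := class_law ⟨hA0, hA⟩ hs hm hdm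
    exact hp.trans_le (ND_le hs (h' _) (h _) (fun n _ hn => hn.1))

end Pool.Agent.L7h55.GC
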