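import Pool.Agent.L7h55.GC.Profile
import Pool.Agent.L7h55.GC.Avg

/-!
The integers of `(x / 3, x]` with a given value of `κ` and with a bounded quotient by their growth constant.
-/

set_option autoImplicit false

namespace Pool.Agent.L7h55.GC

open Finset Filter Topology
open Pool.Agent.R468.GL
open Pool.Agent.R468.MF
open Pool.Agent.R468.MG
open Pool.Agent.R468.LL (lam lam_eq lam_pos lam_lt)

/-- the integers of `(x / 3, x]` with the value `k` of `κ`, at most `t` times the growth constant -/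
noncomputable def ff (B : Set ℤ) (κ ω : ℤ → ℤ) (c t x : ℝ) (k : ℤ) : ℝ :=
  ({n : ℤ | 1 ≤ n ∧ (n : ℝ) ≤ x ∧ n ∈ B ∧ κ n = k ∧ x / 3 < n ∧ (n : ℝ) ≤ t * Real.exp (LW c (κ n) (ω n))}.ncard : ℝ)

theorem ff_nonneg (B : Set ℤ) (κ ω : ℤ → ℤ) (c t x : ℝ) (k : ℤ) : 0 ≤ ff B κ ω c t x k := Nat.cast_nonneg _

theorem cell_sub (B : Set ℤ) (κ ω : ℤ → ℤ) (k l : ℤ) {a b : ℝ} (hab : a ≤ b) :
    cell B κ ω k l b - cell B κ ω k l a =
      ({n : ℤ | 1 ≤ n ∧ (n : ℝ) ≤ b ∧ n ∈ B ∧ κ n = k ∧ ω n = l ∧ a < n}.ncard : ℝ) := by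
  have key : {n : ℤ | 1 ≤ n ∧ (n : ℝ) ≤ b ∧ n ∈ B ∧ κ n = k ∧ ω n = l} =
      {n : ℤ | 1 ≤ n ∧ (n : ℝ) ≤ b ∧ n ∈ B ∧ κ n = k ∧ ω n = l ∧ a < n} ∪
      {n : ℤ | 1 ≤ n ∧ (n : ℝ) ≤ a ∧ n ∈ B ∧ κ n = k ∧ ω n = l} := by
    ext n
    rw [Set.mem_union]
    constructor
    · rintro ⟨h1, h2, h3, h4, h5⟩
      rcases lt_or_ge a n with h | h
      · exact Or.inl ⟨h1, h2, h3, h4, h5, h⟩
      · exact Or.inr ⟨h1, h, h3, h4, h5⟩
    · rintro (⟨h1, h2, h3, h4, h5, _⟩ | ⟨h1, h2, h3, h4, h5⟩)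
      · exact ⟨h1, h2, h3, h4, h5⟩
      · exact ⟨h1, h2.trans hab, h3, h4, h5⟩
  have hdis : Disjoint {n : ℤ | 1 ≤ n ∧ (n : ℝ) ≤ b ∧ n ∈ B ∧ κ n = k ∧ ω n = l ∧ a < n}
      {n : ℤ | 1 ≤ n ∧ (n : ℝ) ≤ a ∧ n ∈ B ∧ κ n = k ∧ ω n = l} := by
    rw [Set.disjoint_left]
    rintro n ⟨_, _, _, _, _, h⟩ ⟨_, h', _⟩
    linarith
  unfold cell
  rw [key, Set.ncard_union_eq hdis ((cell_fin B κ ω k l b).subset fun n ⟨h1, h2, h3, h4, h5, _⟩ => ⟨h1, h2, h3, h4, h5⟩)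
    (cell_fin B κ ω k l a)]
  push_cast
  ring

/-- the real position on the line -/
noncomputable def l0 (c x : ℝ) (k : ℤ) : ℝ := (c + k * Real.log 2 - Real.log x) / Real.log 3

theorem LW_l0 (c x : ℝ) (k l : ℤ) : LW c k l = Real.log x + (l0 c x k - l) * Real.log 3 := by
  have h3 := log3_pos.ne'
  unfold LW l0
  field_simp
  ring

variable {P : Par} {B : Set ℤ} {κ ω : ℤ → ℤ} {c A₁ A₂ : ℝ} {Ψ : ℝ → ℝ} {δ : ℝ}

/-- the decomposition -/
theorem ff_eq (hS : Size B κ ω c A₁ A₂) (I : ℕ) (hI1 : A₁ ≤ I * Real.log 3) (hI2 : A₂ + Real.log 3 ≤ I * Real.log 3)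
    (t : ℝ) {x : ℝ} (hx : 0 < x) (k : ℤ) :
    ff B κ ω c t x k = ∑ i ∈ range (2 * I + 1),
      (cell B κ ω k (⌊l0 c x k⌋ + I - i) (min x (t * Real.exp (LW c k (⌊l0 c x k⌋ + I - i)))) -
        cell B κ ω k (⌊l0 c x k⌋ + I - i) (min (x / 3) (t * Real.exp (LW c k (⌊l0 c x k⌋ + I - i))))) := by
  classical
  have h3 := log3_pos
  obtain ⟨m, hm⟩ : ∃ m : ℤ, m = ⌊l0 c x k⌋ := ⟨_, rfl⟩
  have hm1 : (m : ℝ) ≤ l0 c x k := by rw [hm]; exact Int.floor_le _
  have hm2 : l0 c x k < m + 1 := by rw [hm]; exact Int.lt_floor_add_one _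
  rw [← hm]
  have hfin : {n : ℤ | 1 ≤ n ∧ (n : ℝ) ≤ x ∧ n ∈ B ∧ κ n = k ∧ x / 3 < n ∧
      (n : ℝ) ≤ t * Real.exp (LW c (κ n) (ω n))}.Finite :=
    fin_set {n : ℤ | n ∈ B ∧ κ n = k ∧ x / 3 < n ∧ (n : ℝ) ≤ t * Real.exp (LW c (κ n) (ω n))} x
  -- the index
  have hrange : ∀ n : ℤ, 1 ≤ n → (n : ℝ) ≤ x → n ∈ B → κ n = k → x / 3 < n → 0 ≤ m + I - ω n ∧ m + I - ω n ≤ 2 * I := by
    intro n g1 g2 g3 g4 g5
    have hn : (0 : ℝ) < n := by exact_mod_cast (by omega : 0 < n)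
    obtain ⟨g6, g7⟩ := hS n g3 g1
    rw [g4, LW_l0 c x] at g6 g7
    have g8 : Real.log n ≤ Real.log x := Real.log_le_log hn g2
    have g9 : Real.log x - Real.log 3 ≤ Real.log n := by
      rw [← Real.log_div hx.ne' (by norm_num)]
      exact Real.log_le_log (by positivity) g5.le
    have g10 : (l0 c x k - ω n) * Real.log 3 ≤ I * Real.log 3 := by linarith
    have g11 : -(I * Real.log 3) ≤ (l0 c x k - ω n) * Real.log 3 := by linarith
    have g12 : l0 c x k - ω n ≤ I := le_of_mul_le_mul_right g10 h3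
    have g13 : -(I : ℝ) ≤ l0 c x k - ω n := by
      have : -(I : ℝ) * Real.log 3 ≤ (l0 c x k - ω n) * Real.log 3 := by linarith
      exact le_of_mul_le_mul_right this h3
    constructor
    · have : (-1 : ℝ) < ((m + I - ω n : ℤ) : ℝ) := by push_cast; linarith
      have : (-1 : ℤ) < m + I - ω n := by exact_mod_cast this
      omega
    · have : ((m + I - ω n : ℤ) : ℝ) ≤ ((2 * I : ℤ) : ℝ) := by push_cast; linarith
      exact_mod_cast this
  unfold ff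
  rw [Set.ncard_eq_toFinset_card _ hfin]
  rw [Finset.card_eq_sum_card_fiberwise (f := fun n : ℤ => (m + I - ω n).toNat) (t := range (2 * I + 1))]
  · push_cast
    apply Finset.sum_congr rfl
    intro i hi
    rw [cell_sub _ _ _ _ _ (min_le_min_right _ (by linarith))]
    rw [← Set.ncard_coe_finset]
    congr 2
    ext n
    rw [mem_coe, mem_filter, Set.Finite.mem_toFinset]
    simp only [Set.mem_ofPred_eq, le_min_iff, min_lt_iff]
    constructor
    · rintro ⟨⟨g1, g2, g3, g4, g5, g6⟩, g7⟩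
      have g8 := (hrange n g1 g2 g3 g4 g5).1
      have g9 : ω n = m + I - i := by omega
      rw [g4, g9] at g6
      exact ⟨g1, ⟨g2, g6⟩, g3, g4, g9, Or.inl g5⟩
    · rintro ⟨g1, ⟨g2, g3⟩, g4, g5, g6, g7⟩
      have g8 : x / 3 < n := by
        rcases g7 with g7 | g7
        · exact g7
        · linarith
      refine ⟨⟨g1, g2, g4, g5, g8, by rw [g5, g6]; exact g3⟩, by omega⟩
  · intro n hn
    rw [mem_coe, Set.Finite.mem_toFinset] at hn
    obtain ⟨g1, g2, g3, g4, g5, _⟩ := hn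
    obtain ⟨h1, h2⟩ := hrange n g1 g2 g3 g4 g5
    rw [coe_range, Set.mem_Iio]
    show (m + I - ω n).toNat < 2 * I + 1
    omega

/-- the local profile -/
noncomputable def gg (U : ℝ → ℝ) (t u : ℝ) : ℝ := Real.exp (u * Real.log 3) *
  (U (min (Real.exp (-(u * Real.log 3))) t) - U (min (Real.exp (-((u + 1) * Real.log 3))) t))

/-- the sum of the local profiles -/
noncomputable def HH (U : ℝ → ℝ) (I : ℕ) (t u : ℝ) : ℝ := ∑ i ∈ range (2 * I + 1), gg U t (u + i - I)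

theorem gg_cont {U : ℝ → ℝ} (hU : Continuous U) : Continuous fun p : ℝ × ℝ => gg U p.1 p.2 := by
  unfold gg
  fun_prop

theorem HH_cont {U : ℝ → ℝ} (hU : Continuous U) (I : ℕ) : Continuous fun p : ℝ × ℝ => HH U I p.1 p.2 := by
  unfold HH
  apply continuous_finsetSum
  intro i _
  exact (gg_cont hU).comp (by fun_prop : Continuous fun p : ℝ × ℝ => (p.1, p.2 + (i : ℝ) - I))

theorem gg_nonneg {U : ℝ → ℝ} (hU : Monotone U) (t u : ℝ) : 0 ≤ gg U t u := by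
  have h3 := log3_pos
  unfold gg
  apply mul_nonneg (Real.exp_pos _).le
  rw [sub_nonneg]
  apply hU
  apply min_le_min_right
  apply Real.exp_le_exp.2
  nlinarith

theorem HH_nonneg {U : ℝ → ℝ} (hU : Monotone U) (I : ℕ) (t u : ℝ) : 0 ≤ HH U I t u :=
  Finset.sum_nonneg fun _ _ => gg_nonneg hU _ _

/-- the profile is zero for large arguments -/
theorem gg_high {U : ℝ → ℝ} {a : ℝ} (hU : ∀ t, t ≤ Real.exp (-a) → U t = 0) (t : ℝ) {u : ℝ}
    (hu : a ≤ u * Real.log 3) : gg U t u = 0 := by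
  have h3 := log3_pos
  unfold gg
  rw [hU, hU, sub_zero, mul_zero]
  · exact (min_le_left _ _).trans (Real.exp_le_exp.2 (by nlinarith))
  · exact (min_le_left _ _).trans (Real.exp_le_exp.2 (by linarith))

/-- the profile is zero for small arguments -/
theorem gg_low {U : ℝ → ℝ} {b : ℝ} (hU : ∀ t, Real.exp b ≤ t → U t = U (Real.exp b)) (t : ℝ) {u : ℝ}
    (hu : (u + 1) * Real.log 3 ≤ -b) : gg U t u = 0 := by
  have h3 := log3_pos
  have key : ∀ s : ℝ, Real.exp b ≤ s → U (min s t) = U (min (Real.exp b) t) := by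
    intro s hs
    rcases le_total t (Real.exp b) with h | h
    · rw [min_eq_right h, min_eq_right (h.trans hs)]
    · rw [min_eq_left h, hU _ (le_min hs h)]
  have e1 := key (Real.exp (-(u * Real.log 3))) (Real.exp_le_exp.2 (by nlinarith))
  have e2 := key (Real.exp (-((u + 1) * Real.log 3))) (Real.exp_le_exp.2 (by linarith))
  unfold gg
  rw [e1, e2, sub_self, mul_zero]

theorem HH_per {U : ℝ → ℝ} {a b : ℝ} (h1 : ∀ t, t ≤ Real.exp (-a) → U t = 0)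
    (h2 : ∀ t, Real.exp b ≤ t → U t = U (Real.exp b)) {I : ℕ} (hI1 : a ≤ I * Real.log 3)
    (hI2 : b + Real.log 3 ≤ I * Real.log 3) (t : ℝ) : HH U I t 0 = HH U I t 1 := by
  have h3 := log3_pos
  have e : HH U I t 1 - HH U I t 0 = ∑ i ∈ range (2 * I + 1),
      ((fun j : ℕ => gg U t ((j : ℝ) - I)) (i + 1) - (fun j : ℕ => gg U t ((j : ℝ) - I)) i) := by
    unfold HH
    rw [← Finset.sum_sub_distrib]
    apply Finset.sum_congr rfl
    intro i _
    simp only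
    congr 2
    · push_cast; ring
    · ring
  rw [Finset.sum_range_sub (fun j : ℕ => gg U t ((j : ℝ) - I))] at e
  rw [gg_high h1 t (u := ((2 * I + 1 : ℕ) : ℝ) - I) (by push_cast; nlinarith), gg_low h2 t (u := ((0 : ℕ) : ℝ) - I)
    (by push_cast; nlinarith)] at e
  linarith

end Pool.Agent.L7h55.GC
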